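import Mathlib
import Pool.Agent.Lib.MP_cf191d_co.Shearer

set_option autoImplicit false
set_option linter.unusedSectionVars false

/-!
Base families of matroids on a finite ground set, and the bound on their number obtained from
Shearer's theorem and contraction.
-/

namespace Pool.Agent.MatCount

open Finset

variable {α : Type*} [DecidableEq α]

/-- `𝓑` is the family of bases of a matroid of rank `r` with ground set `E`. -/
def IsBF (E : Finset α) (r : ℕ) (𝓑 : Finset (Finset α)) : Prop :=
  ∃ M : Matroid α, M.E = ↑E ∧ (∀ B : Finset α, B ∈ 𝓑 ↔ M.IsBase ↑B) ∧ (∀ B ∈ 𝓑, B.card = r)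

open Classical in
/-- The set of all base families of matroids of rank `r` on `E`. -/
noncomputable def BFon (E : Finset α) (r : ℕ) : Finset (Finset (Finset α)) :=
  ((E.powersetCard r).powerset).filter (IsBF E r)

lemma IsBF.subset {E : Finset α} {r : ℕ} {𝓑 : Finset (Finset α)} (h : IsBF E r 𝓑) :
    𝓑 ⊆ E.powersetCard r := by
  obtain ⟨M, hE, hB, hr⟩ := h
  intro B hBB
  rw [mem_powersetCard]
  refine ⟨?_, hr B hBB⟩
  have := ((hB B).1 hBB).subset_ground
  rw [hE] at this
  exact_mod_cast this

open Classical in
lemma mem_BFon {E : Finset α} {r : ℕ} {𝓑 : Finset (Finset α)} :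
    𝓑 ∈ BFon E r ↔ IsBF E r 𝓑 := by
  unfold BFon
  rw [mem_filter, mem_powerset]
  exact ⟨fun h => h.2, fun h => ⟨h.subset, h⟩⟩

lemma IsBF.nonempty {E : Finset α} {r : ℕ} {𝓑 : Finset (Finset α)} (h : IsBF E r 𝓑) :
    𝓑.Nonempty := by
  obtain ⟨M, hE, hB, hr⟩ := h
  obtain ⟨B, hBase⟩ := M.exists_isBase
  have hsub : B ⊆ ↑E := hE ▸ hBase.subset_ground
  have hfin : B.Finite := E.finite_toSet.subset hsub
  refine ⟨hfin.toFinset, ?_⟩
  rw [hB, Set.Finite.coe_toFinset]
  exact hBase

/-- contraction of a base family -/
lemma IsBF.contract {E T : Finset α} {r : ℕ} {𝓑 : Finset (Finset α)} (h : IsBF E r 𝓑)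
    (hT : ∃ B ∈ 𝓑, T ⊆ B) :
    IsBF (E \ T) (r - T.card) ((𝓑.filter (fun X => T ⊆ X)).image (fun X => X \ T)) := by
  obtain ⟨M, hE, hB, hr⟩ := h
  have hTi : M.Indep ↑T := by
    obtain ⟨B, hBB, hTB⟩ := hT
    exact ((hB B).1 hBB).indep.subset (by exact_mod_cast hTB)
  refine ⟨M.contract (↑T : Set α), ?_, ?_, ?_⟩
  · rw [Matroid.contract_ground, hE]
    push_cast
    rfl
  · intro B
    rw [hTi.contract_isBase_iff, mem_image]
    constructor
    · rintro ⟨X, hX, rfl⟩
      rw [mem_filter] at hX
      have e : (↑(X \ T) : Set α) ∪ ↑T = ↑X := by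
        rw [← coe_union, sdiff_union_of_subset hX.2]
      rw [e]
      refine ⟨(hB X).1 hX.1, ?_⟩
      rw [disjoint_coe]
      exact sdiff_disjoint
    · rintro ⟨h1, h2⟩
      rw [disjoint_coe] at h2
      refine ⟨B ∪ T, ?_, ?_⟩
      · rw [mem_filter]
        refine ⟨?_, subset_union_right⟩
        rw [hB]
        push_cast
        exact h1
      · rw [union_sdiff_right, sdiff_eq_self_of_disjoint h2]
  · intro B hBm
    rw [mem_image] at hBm
    obtain ⟨X, hX, rfl⟩ := hBm
    rw [mem_filter] at hX
    rw [card_sdiff_of_subset hX.2, hr X hX.1]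

/-- Shearer's theorem for matroids: contracting `t`-subsets. -/
theorem shearer_bound (E : Finset α) (r t : ℕ) (htr : t ≤ r) (Q : ℕ)
    (hQ : ∀ T ∈ E.powersetCard t, (BFon (E \ T) (r - t)).card + 1 ≤ Q) :
    (BFon E r).card ^ (r.choose t) ≤ Q ^ (E.card.choose t) := by
  classical
  have key := Pool.Agent.Lib.MP_cf191d_co.shearer (E.powersetCard t)
    (fun T => (E.powersetCard r).filter (fun X => T ⊆ X)) (r.choose t)
    (Nat.choose_pos htr) (E.powersetCard r) (BFon E r)
    (fun 𝓑 h𝓑 => (mem_BFon.1 h𝓑).subset) ?_
  · refine key.trans ?_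
    calc ∏ T ∈ E.powersetCard t,
          ((BFon E r).image (fun A => A ∩ (E.powersetCard r).filter (fun X => T ⊆ X))).card
        ≤ ∏ _T ∈ E.powersetCard t, Q := by
          apply Finset.prod_le_prod'
          intro T hT
          refine le_trans ?_ (hQ T hT)
          have hsub : (BFon E r).image (fun A => A ∩ (E.powersetCard r).filter (fun X => T ⊆ X)) ⊆
              insert ∅ ((BFon (E \ T) (r - t)).image (fun 𝓒 => 𝓒.image (fun X => X ∪ T))) := by
            intro 𝓐 h𝓐
            rw [mem_image] at h𝓐
            obtain ⟨𝓑, h𝓑, rfl⟩ := h𝓐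
            have hb := mem_BFon.1 h𝓑
            have e1 : 𝓑 ∩ (E.powersetCard r).filter (fun X => T ⊆ X) =
                𝓑.filter (fun X => T ⊆ X) := by
              ext X
              simp only [mem_inter, mem_filter]
              exact ⟨fun h => ⟨h.1, h.2.2⟩, fun h => ⟨h.1, hb.subset h.1, h.2⟩⟩
            rw [e1, mem_insert]
            by_cases hne : ∃ B ∈ 𝓑, T ⊆ B
            · right
              rw [mem_image]
              refine ⟨(𝓑.filter (fun X => T ⊆ X)).image (fun X => X \ T), mem_BFon.2 ?_, ?_⟩
              · have := hb.contract hne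
                rw [(mem_powersetCard.1 hT).2] at this
                exact this
              · rw [image_image]
                have : ∀ X ∈ 𝓑.filter (fun X => T ⊆ X), ((fun X => X ∪ T) ∘ fun X => X \ T) X = X := by
                  intro X hX
                  rw [mem_filter] at hX
                  simp only [Function.comp]
                  exact sdiff_union_of_subset hX.2
                ext X
                simp only [mem_image]
                constructor
                · rintro ⟨Y, hY, rfl⟩
                  rw [this Y hY]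
                  exact hY
                · intro hX
                  exact ⟨X, hX, this X hX⟩
            · left
              rw [filter_eq_empty_iff]
              intro X hX hTX
              exact hne ⟨X, hX, hTX⟩
          refine (card_le_card hsub).trans ?_
          refine (card_insert_le _ _).trans ?_
          have := card_image_le (s := BFon (E \ T) (r - t))
            (f := fun 𝓒 : Finset (Finset α) => 𝓒.image (fun X => X ∪ T))
          omega
      _ = Q ^ (E.card.choose t) := by
          rw [prod_const, card_powersetCard]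
  · intro X hX
    rw [mem_powersetCard] at hX
    have : (E.powersetCard t).filter (fun T => X ∈ (E.powersetCard r).filter (fun X => T ⊆ X)) =
        X.powersetCard t := by
      ext T
      simp only [mem_filter, mem_powersetCard]
      constructor
      · rintro ⟨⟨_, h2⟩, _, h4⟩
        exact ⟨h4, h2⟩
      · rintro ⟨h1, h2⟩
        exact ⟨⟨h1.trans hX.1, h2⟩, hX, h1⟩
    rw [this, card_powersetCard, hX.2]

end Pool.Agent.MatCount
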