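import Mathlib
import Pool.Agent.Lib.MP_e1cc60_co.Basic

set_option autoImplicit false
set_option linter.unusedSectionVars false

/-!
Matroids of rank `k` are determined by their truncation to rank `k-1` and a packing.
-/

namespace Pool.Agent.MatCount

open Finset

variable {α : Type*} [DecidableEq α]

/-- The subset `Y` spans a hyperplane and all its `(k-1)`-subsets are independent. -/
def US (M : Matroid α) (E : Finset α) (k : ℕ) (Y : Finset α) : Prop :=
  Y ⊆ E ∧ k ≤ Y.card ∧ (∀ I ⊆ Y, I.card = k - 1 → M.Indep ↑I) ∧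
    (∀ X ⊆ Y, X.card = k → ¬ M.Indep ↑X)

section rank

variable {M : Matroid α} {E : Finset α} {k : ℕ}

lemma US.closure_eq (hE : M.E = ↑E) (hk : 1 ≤ k) {Y I : Finset α} (hY : US M E k Y) (hI : I ⊆ Y)
    (hIc : I.card = k - 1) : M.closure ↑I = M.closure ↑Y := by
  apply Set.Subset.antisymm
  · exact M.closure_subset_closure (by exact_mod_cast hI)
  · apply M.closure_subset_closure_of_subset_closure
    have hIi := hY.2.2.1 I hI hIc
    have hYE : (↑Y : Set α) ⊆ M.E := by rw [hE]; exact_mod_cast hY.1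
    intro y hy
    have hy' : y ∈ Y := by exact_mod_cast hy
    by_cases hyI : y ∈ I
    · exact M.subset_closure ↑I (hIi.subset_ground) (by exact_mod_cast hyI)
    · rw [hIi.mem_closure_iff_of_notMem (by exact_mod_cast hyI)]
      have h1 : (insert y I) ⊆ Y := insert_subset hy' hI
      have h2 : (insert y I).card = k := by rw [card_insert_of_notMem hyI, hIc]; omega
      have h3 := hY.2.2.2 _ h1 h2
      rw [Matroid.dep_iff]
      push_cast at h3
      refine ⟨h3, ?_⟩
      refine Set.insert_subset (hYE hy) hIi.subset_ground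

lemma US.not_indep (hE : M.E = ↑E) (hk : 1 ≤ k) {Y X : Finset α} (hY : US M E k Y)
    (hX : (↑X : Set α) ⊆ M.closure ↑Y) (hXc : X.card = k) : ¬ M.Indep ↑X := by
  intro hXi
  obtain ⟨I, hI, hIc⟩ := exists_subset_card_eq (show k - 1 ≤ Y.card by have := hY.2.1; omega)
  have e := hY.closure_eq hE hk hI hIc
  have hIi := hY.2.2.1 I hI hIc
  have h1 := hXi.encard_le_eRk_of_subset hX
  rw [← e, M.eRk_closure_eq, hIi.eRk_eq_encard, Set.encard_coe_eq_coe_finsetCard,
    Set.encard_coe_eq_coe_finsetCard, hXc, hIc] at h1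
  have : k ≤ k - 1 := by exact_mod_cast h1
  omega

lemma US.closure_eq_of_subset (hE : M.E = ↑E) (hk : 1 ≤ k) {Y Y' : Finset α} (hY : US M E k Y)
    (hY' : US M E k Y') (hsub : (↑Y' : Set α) ⊆ M.closure ↑Y) :
    M.closure ↑Y' = M.closure ↑Y := by
  apply Set.Subset.antisymm
  · exact M.closure_subset_closure_of_subset_closure hsub
  · obtain ⟨I, hI, hIc⟩ := exists_subset_card_eq (show k - 1 ≤ Y'.card by have := hY'.2.1; omega)
    have e := hY'.closure_eq hE hk hI hIc
    have hIi := hY'.2.2.1 I hI hIc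
    rw [← e]
    intro y hy
    by_contra hyn
    have hyE : y ∈ M.E := M.closure_subset_ground _ hy
    have hyI : y ∉ I := fun h => hyn (M.subset_closure ↑I hIi.subset_ground (by exact_mod_cast h))
    rw [hIi.mem_closure_iff_of_notMem (by exact_mod_cast hyI), Matroid.dep_iff, not_and] at hyn
    have h1 : M.Indep (↑(insert y I) : Set α) := by
      by_contra h
      push_cast at h
      exact hyn h (Set.insert_subset hyE hIi.subset_ground)
    refine hY.not_indep hE hk (X := insert y I) ?_ ?_ h1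
    · push_cast
      refine Set.insert_subset hy ?_
      refine Set.Subset.trans ?_ hsub
      exact_mod_cast hI
    · rw [card_insert_of_notMem hyI, hIc]; omega

end rank

open Classical in
/-- closure as a finset -/
noncomputable def clF (M : Matroid α) (E Y : Finset α) : Finset α :=
  E.filter (fun x => x ∈ M.closure ↑Y)

lemma coe_clF {M : Matroid α} {E : Finset α} (hE : M.E = ↑E) (Y : Finset α) :
    (↑(clF M E Y) : Set α) = M.closure ↑Y := by
  classical
  unfold clF
  ext x
  simp only [coe_filter, Set.mem_ofPred_eq]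
  constructor
  · intro h; exact h.2
  · intro h
    refine ⟨?_, h⟩
    have := M.closure_subset_ground _ h
    rw [hE] at this
    exact_mod_cast this

open Classical in
/-- the special hyperplanes -/
noncomputable def spH (M : Matroid α) (E : Finset α) (k : ℕ) : Finset (Finset α) :=
  (E.powerset.filter (US M E k)).image (clF M E)

open Classical in
/-- a maximal uniform subset of a special hyperplane -/
noncomputable def mx (M : Matroid α) (E : Finset α) (k : ℕ) (H : Finset α) : Finset α :=
  if h : ∃ Y, Maximal (fun Y => Y ⊆ H ∧ US M E k Y) Y then h.choose else ∅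

lemma mx_spec {M : Matroid α} {E : Finset α} (hE : M.E = ↑E) {k : ℕ} {H : Finset α}
    (hH : H ∈ spH M E k) : Maximal (fun Y => Y ⊆ H ∧ US M E k Y) (mx M E k H) := by
  classical
  have hex : ∃ Y, Maximal (fun Y => Y ⊆ H ∧ US M E k Y) Y := by
    unfold spH at hH
    rw [mem_image] at hH
    obtain ⟨Y0, hY0, rfl⟩ := hH
    rw [mem_filter, mem_powerset] at hY0
    have hsub : Y0 ⊆ clF M E Y0 := by
      have : (↑Y0 : Set α) ⊆ ↑(clF M E Y0) := by
        rw [coe_clF hE]
        exact M.subset_closure _ (by rw [hE]; exact_mod_cast hY0.1)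
      exact_mod_cast this
    obtain ⟨Y, hY⟩ := ((clF M E Y0).powerset.filter (US M E k)).exists_maximal
      ⟨Y0, by rw [mem_filter, mem_powerset]; exact ⟨hsub, hY0.2⟩⟩
    refine ⟨Y, ?_⟩
    simpa only [mem_filter, mem_powerset] using hY
  unfold mx
  rw [dif_pos hex]
  exact hex.choose_spec

lemma mx_closure {M : Matroid α} {E : Finset α} (hE : M.E = ↑E) {k : ℕ} (hk : 1 ≤ k)
    {H : Finset α} (hH : H ∈ spH M E k) : clF M E (mx M E k H) = H := by
  classical
  have h := mx_spec hE hH
  unfold spH at hH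
  rw [mem_image] at hH
  obtain ⟨Y0, hY0, rfl⟩ := hH
  rw [mem_filter, mem_powerset] at hY0
  have h1 : (↑(mx M E k (clF M E Y0)) : Set α) ⊆ M.closure ↑Y0 := by
    rw [← coe_clF hE]
    exact_mod_cast h.prop.1
  have h2 := hY0.2.closure_eq_of_subset hE hk h.prop.2 h1
  rw [← coe_clF hE, ← coe_clF hE, coe_inj] at h2
  exact h2

open Classical in
/-- the packing attached to a matroid -/
noncomputable def pk (M : Matroid α) (E : Finset α) (k : ℕ) : Finset (Finset α) :=
  (spH M E k).image (mx M E k)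

/-- Packings: sets of size at least `k` any two of which share at most `k-2` elements. -/
def Pack (E : Finset α) (k : ℕ) : Finset (Finset (Finset α)) :=
  E.powerset.powerset.filter (fun 𝓨 => (∀ Y ∈ 𝓨, k ≤ Y.card) ∧
    ∀ Y ∈ 𝓨, ∀ Y' ∈ 𝓨, Y ≠ Y' → (Y ∩ Y').card + 2 ≤ k)

lemma pk_mem {M : Matroid α} {E : Finset α} (hE : M.E = ↑E) {k : ℕ} (hk : 1 ≤ k) :
    pk M E k ∈ Pack E k := by
  classical
  unfold Pack pk
  rw [mem_filter, mem_powerset]
  refine ⟨?_, ?_, ?_⟩
  · intro Y hY
    rw [mem_image] at hY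
    obtain ⟨H, hH, rfl⟩ := hY
    rw [mem_powerset]
    exact (mx_spec hE hH).prop.2.1
  · intro Y hY
    rw [mem_image] at hY
    obtain ⟨H, hH, rfl⟩ := hY
    exact (mx_spec hE hH).prop.2.2.1
  · intro Y hY Y' hY' hne
    rw [mem_image] at hY hY'
    obtain ⟨H, hH, rfl⟩ := hY
    obtain ⟨H', hH', rfl⟩ := hY'
    by_contra hlt
    obtain ⟨I, hI, hIc⟩ := exists_subset_card_eq
      (show k - 1 ≤ (mx M E k H ∩ mx M E k H').card by omega)
    have e1 := (mx_spec hE hH).prop.2.closure_eq hE hk (hI.trans inter_subset_left) hIc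
    have e2 := (mx_spec hE hH').prop.2.closure_eq hE hk (hI.trans inter_subset_right) hIc
    have e3 : clF M E (mx M E k H) = clF M E (mx M E k H') := by
      rw [← coe_inj, coe_clF hE, coe_clF hE, ← e1, ← e2]
    rw [mx_closure hE hk hH, mx_closure hE hk hH'] at e3
    rw [e3] at hne
    exact hne rfl

/-- A set `X` of size `k` all of whose `(k-1)`-subsets are independent and which is a base of
`M₁` is a base of `M₂`, if the two matroids have the same packing and the same independent
`(k-1)`-sets. -/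
lemma det_aux {M₁ M₂ : Matroid α} {E : Finset α} (hE₁ : M₁.E = ↑E) (hE₂ : M₂.E = ↑E) {k : ℕ}
    (hk : 1 ≤ k) (hind : ∀ I ⊆ E, I.card = k - 1 → (M₁.Indep ↑I ↔ M₂.Indep ↑I))
    (hpk : pk M₂ E k ⊆ pk M₁ E k) {X : Finset α} (hXE : X ⊆ E) (hXc : X.card = k)
    (hX : M₁.Indep ↑X) : M₂.Indep ↑X := by
  classical
  by_contra hX2
  have hUS : US M₂ E k X := by
    refine ⟨hXE, hXc.ge, ?_, ?_⟩
    · intro I hI hIc
      rw [← hind I (hI.trans hXE) hIc]
      exact hX.subset (by exact_mod_cast hI)
    · intro X' hX' hX'c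
      have : X' = X := eq_of_subset_of_card_le hX' (by omega)
      rwa [this]
  have hH : clF M₂ E X ∈ spH M₂ E k := by
    unfold spH
    rw [mem_image]
    refine ⟨X, ?_, rfl⟩
    rw [mem_filter, mem_powerset]
    exact ⟨hXE, hUS⟩
  set H := clF M₂ E X with hHdef
  have hmx := mx_spec hE₂ hH
  set Y := mx M₂ E k H with hYdef
  have hYpk : Y ∈ pk M₁ E k := by
    apply hpk
    unfold pk
    rw [mem_image]
    exact ⟨H, hH, rfl⟩
  have hYcl : clF M₂ E Y = H := mx_closure hE₂ hk hH
  -- `Y` is uniform in `M₁`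
  have hUS1 : US M₁ E k Y := by
    unfold pk at hYpk
    rw [mem_image] at hYpk
    obtain ⟨H1, hH1, h1⟩ := hYpk
    rw [← h1]
    exact (mx_spec hE₁ hH1).prop.2
  have hXH : X ⊆ H := by
    have : (↑X : Set α) ⊆ ↑H := by
      rw [hHdef, coe_clF hE₂]
      exact M₂.subset_closure _ (by rw [hE₂]; exact_mod_cast hXE)
    exact_mod_cast this
  have hXcl : (↑X : Set α) ⊆ M₁.closure ↑Y := by
    intro x hx
    have hx' : x ∈ X := by exact_mod_cast hx
    have hYE : (↑Y : Set α) ⊆ M₁.E := by rw [hE₁]; exact_mod_cast hUS1.1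
    by_cases hxY : x ∈ Y
    · exact M₁.subset_closure _ hYE (by exact_mod_cast hxY)
    · -- by maximality, `insert x Y` is not uniform
      have hnot : ¬ US M₂ E k (insert x Y) := by
        intro hU
        have h1 : insert x Y ⊆ H := insert_subset (hXH hx') hmx.prop.1
        have h2 := hmx.le_of_ge ⟨h1, hU⟩ (subset_insert x Y)
        exact hxY (h2 (mem_insert_self x Y))
      -- so some independent (k-2)-subset together with x is dependent
      have hex : ∃ I ⊆ insert x Y, I.card = k - 1 ∧ ¬ M₂.Indep ↑I := by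
        by_contra hno
        push Not at hno
        apply hnot
        refine ⟨insert_subset (hXE hx') hmx.prop.2.1, ?_, hno, ?_⟩
        · have := hmx.prop.2.2.1
          exact this.trans (card_le_card (subset_insert x Y))
        · intro Z hZ hZc
          have hZH : (↑Z : Set α) ⊆ M₂.closure ↑X := by
            rw [← coe_clF hE₂, ← hHdef]
            have : Z ⊆ H := hZ.trans (insert_subset (hXH hx') hmx.prop.1)
            exact_mod_cast this
          exact hUS.not_indep hE₂ hk hZH hZc
      obtain ⟨I, hI, hIc, hIn⟩ := hex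
      have hxI : x ∈ I := by
        by_contra hxI
        apply hIn
        apply hmx.prop.2.2.2.1 I _ hIc
        intro z hz
        have := hI hz
        rw [mem_insert] at this
        rcases this with rfl | h
        · exact absurd hz hxI
        · exact h
      have hJY : I.erase x ⊆ Y := by
        intro z hz
        rw [mem_erase] at hz
        have := hI hz.2
        rw [mem_insert] at this
        rcases this with rfl | h
        · exact absurd rfl hz.1
        · exact h
      have hIE : I ⊆ E := hI.trans (insert_subset (hXE hx') hmx.prop.2.1)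
      have hJi : M₁.Indep ↑(I.erase x) := by
        have hc : (I.erase x).card ≤ k - 1 := by
          rw [card_erase_of_mem hxI, hIc]; omega
        have hYc : k - 1 ≤ Y.card := by have := hmx.prop.2.2.1; omega
        obtain ⟨J', hJ1, hJ2, hJ3⟩ := exists_subsuperset_card_eq hJY hc hYc
        exact (hUS1.2.2.1 J' hJ2 hJ3).subset (by exact_mod_cast hJ1)
      have hI1 : ¬ M₁.Indep ↑I := by
        rw [hind I hIE hIc]; exact hIn
      have hxcl : x ∈ M₁.closure ↑(I.erase x) := by
        rw [hJi.mem_closure_iff_of_notMem (by simp)]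
        rw [Matroid.dep_iff]
        have e : (insert x (↑(I.erase x) : Set α)) = ↑I := by
          rw [← coe_insert, insert_erase hxI]
        rw [e]
        refine ⟨hI1, ?_⟩
        rw [hE₁]; exact_mod_cast hIE
      exact M₁.closure_subset_closure (by exact_mod_cast hJY) hxcl
  exact hUS1.not_indep hE₁ hk hXcl hXc hX

/-- truncation -/
lemma trunc_isBF {M : Matroid α} {E : Finset α} (hE : M.E = ↑E) {k : ℕ}
    (hB : ∃ B : Finset α, M.Indep ↑B ∧ B.card = k) (𝓘 : Finset (Finset α))
    (h𝓘 : ∀ I, I ∈ 𝓘 ↔ M.Indep ↑I ∧ I.card = k) : IsBF E k 𝓘 := by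
  classical
  let P : Set α → Prop := fun S => ∃ I ∈ 𝓘, (↑I : Set α) = S
  have hex : ∃ B, P B := by
    obtain ⟨B, hB1, hB2⟩ := hB
    exact ⟨↑B, B, (h𝓘 B).2 ⟨hB1, hB2⟩, rfl⟩
  have hexch : Matroid.ExchangeProperty P := by
    rintro X Y ⟨I, hI, rfl⟩ ⟨J, hJ, rfl⟩ a ha
    rw [h𝓘] at hI hJ
    have haI : a ∈ I := by exact_mod_cast ha.1
    have haJ : a ∉ J := fun h => ha.2 (by exact_mod_cast h)
    have hI' : M.Indep ↑(I.erase a) := hI.1.subset (by exact_mod_cast erase_subset a I)
    have hc : (↑(I.erase a) : Set α).encard < (↑J : Set α).encard := by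
      rw [Set.encard_coe_eq_coe_finsetCard, Set.encard_coe_eq_coe_finsetCard, hJ.2,
        card_erase_of_mem haI, hI.2]
      have : 0 < I.card := card_pos.2 ⟨a, haI⟩
      have h2 : k - 1 < k := by omega
      exact_mod_cast h2
    obtain ⟨e, he, hei⟩ := hI'.exists_insert_of_encard_lt hJ.1 hc
    have heJ : e ∈ J := by exact_mod_cast he.1
    have heI' : e ∉ I.erase a := fun h => he.2 (by exact_mod_cast h)
    have hea : e ≠ a := by rintro rfl; exact haJ heJ
    have heI : e ∉ I := fun h => heI' (mem_erase.2 ⟨hea, h⟩)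
    refine ⟨e, ⟨by exact_mod_cast heJ, by exact_mod_cast heI⟩, insert e (I.erase a), ?_, ?_⟩
    · rw [h𝓘]
      refine ⟨by push_cast at hei ⊢; exact hei, ?_⟩
      rw [card_insert_of_notMem heI', card_erase_of_mem haI, hI.2]
      have : 0 < I.card := card_pos.2 ⟨a, haI⟩
      omega
    · push_cast
      rfl
  have hsub : ∀ B, P B → B ⊆ (↑E : Set α) := by
    rintro B ⟨I, hI, rfl⟩
    rw [← hE]
    exact ((h𝓘 I).1 hI).1.subset_ground
  refine ⟨Matroid.ofExistsFiniteIsBase (↑E : Set α) P ?_ hexch hsub, rfl, ?_, ?_⟩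
  · obtain ⟨B, hB⟩ := hex
    exact ⟨B, hB, E.finite_toSet.subset (hsub B hB)⟩
  · intro B
    rw [Matroid.ofExistsFiniteIsBase_isBase]
    constructor
    · intro h; exact ⟨B, h, rfl⟩
    · rintro ⟨I, hI, h⟩
      rw [coe_inj] at h
      rwa [← h]
  · intro B hB
    exact ((h𝓘 B).1 hB).2

open Classical in
/-- the chosen matroid of a base family -/
noncomputable def mt (E : Finset α) (k : ℕ) (𝓑 : Finset (Finset α)) : Matroid α :=
  if h : IsBF E k 𝓑 then h.choose else Matroid.loopyOn ∅

lemma mt_spec {E : Finset α} {k : ℕ} {𝓑 : Finset (Finset α)} (h : IsBF E k 𝓑) :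
    (mt E k 𝓑).E = ↑E ∧ (∀ B : Finset α, B ∈ 𝓑 ↔ (mt E k 𝓑).IsBase ↑B) ∧
      (∀ B ∈ 𝓑, B.card = k) := by
  unfold mt
  rw [dif_pos h]
  exact h.choose_spec

lemma mt_mem_iff {E : Finset α} {k : ℕ} {𝓑 : Finset (Finset α)} (h : IsBF E k 𝓑)
    {B : Finset α} : B ∈ 𝓑 ↔ (mt E k 𝓑).Indep ↑B ∧ B.card = k := by
  obtain ⟨hE, hB, hc⟩ := mt_spec h
  constructor
  · intro hBB
    exact ⟨((hB B).1 hBB).indep, hc B hBB⟩
  · rintro ⟨h1, h2⟩
    obtain ⟨B', hB', hsub⟩ := h1.exists_isBase_superset
    have hfin : B'.Finite := E.finite_toSet.subset (hE ▸ hB'.subset_ground)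
    have hB'' : hfin.toFinset ∈ 𝓑 := by
      rw [hB, Set.Finite.coe_toFinset]; exact hB'
    have hsub' : B ⊆ hfin.toFinset := by
      intro x hx
      rw [Set.Finite.mem_toFinset]
      exact hsub (by exact_mod_cast hx)
    have := eq_of_subset_of_card_le hsub' (by rw [hc _ hB'', h2])
    rwa [this]

/-- Erection bound: a rank `k` matroid is determined by its truncation and a packing. -/
theorem card_BFon_le (E : Finset α) {k : ℕ} (hk : 1 ≤ k) :
    (BFon E k).card ≤ (BFon E (k - 1)).card * (Pack E k).card := by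
  classical
  rw [← card_product]
  apply card_le_card_of_injOn
    (fun 𝓑 : Finset (Finset α) =>
      ((E.powersetCard (k - 1)).filter (fun I : Finset α => (mt E k 𝓑).Indep (↑I : Set α)),
        pk (mt E k 𝓑) E k))
  · intro 𝓑 h𝓑
    have h := mem_BFon.1 h𝓑
    obtain ⟨hE, hB, hc⟩ := mt_spec h
    simp only [coe_product, Set.mem_prod, mem_coe]
    refine ⟨?_, pk_mem hE hk⟩
    rw [mem_BFon]
    apply trunc_isBF hE
    · obtain ⟨B, hBB⟩ := h.nonempty
      obtain ⟨I, hI, hIc⟩ := exists_subset_card_eq (show k - 1 ≤ B.card by rw [hc B hBB]; omega)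
      exact ⟨I, ((hB B).1 hBB).indep.subset (by exact_mod_cast hI), hIc⟩
    · intro I
      rw [mem_filter, mem_powersetCard]
      constructor
      · rintro ⟨⟨_, h2⟩, h3⟩; exact ⟨h3, h2⟩
      · rintro ⟨h3, h2⟩
        refine ⟨⟨?_, h2⟩, h3⟩
        have := h3.subset_ground
        rw [hE] at this
        exact_mod_cast this
  · intro 𝓑₁ h₁ 𝓑₂ h₂ heq
    have b1 := mem_BFon.1 (mem_coe.1 h₁)
    have b2 := mem_BFon.1 (mem_coe.1 h₂)
    simp only [Prod.mk.injEq] at heq
    obtain ⟨e1, e2⟩ := heq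
    have hind : ∀ I ⊆ E, I.card = k - 1 →
        ((mt E k 𝓑₁).Indep ↑I ↔ (mt E k 𝓑₂).Indep ↑I) := by
      intro I hI hIc
      have := Finset.ext_iff.1 e1 I
      rw [mem_filter, mem_filter, mem_powersetCard] at this
      constructor
      · intro h; exact (this.1 ⟨⟨hI, hIc⟩, h⟩).2
      · intro h; exact (this.2 ⟨⟨hI, hIc⟩, h⟩).2
    ext B
    constructor
    · intro hB
      have hBE := (mem_powersetCard.1 (b1.subset hB))
      rw [mt_mem_iff b1] at hB
      rw [mt_mem_iff b2]
      exact ⟨det_aux (mt_spec b1).1 (mt_spec b2).1 hk hind e2.ge hBE.1 hBE.2 hB.1, hB.2⟩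
    · intro hB
      have hBE := (mem_powersetCard.1 (b2.subset hB))
      rw [mt_mem_iff b2] at hB
      rw [mt_mem_iff b1]
      exact ⟨det_aux (mt_spec b2).1 (mt_spec b1).1 hk (fun I hI hIc => (hind I hI hIc).symm) e2.le
        hBE.1 hBE.2 hB.1, hB.2⟩

end Pool.Agent.MatCount
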