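import Mathlib
import Pool.Agent.Lib.MP_e1cc60_co.Erect

set_option autoImplicit false
set_option linter.unusedSectionVars false

/-!
Counting packings: large members are encoded by stars of small sets.
-/

namespace Pool.Agent.MatCount

open Finset

variable {α : Type*} [DecidableEq α]

/-- a chosen subset of size `s` -/
noncomputable def core (s : ℕ) (Y : Finset α) : Finset α :=
  if h : s ≤ Y.card then (exists_subset_card_eq h).choose else ∅

lemma core_spec {s : ℕ} {Y : Finset α} (h : s ≤ Y.card) : core s Y ⊆ Y ∧ (core s Y).card = s := by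
  unfold core
  rw [dif_pos h]
  exact (exists_subset_card_eq h).choose_spec

/-- the star of `Y`: all sets consisting of the core and one more element of `Y` -/
noncomputable def star (s : ℕ) (Y : Finset α) : Finset (Finset α) :=
  (Y \ core s Y).image (fun y => insert y (core s Y))

lemma mem_star {s : ℕ} {Y W : Finset α} :
    W ∈ star s Y ↔ ∃ y ∈ Y \ core s Y, insert y (core s Y) = W := by
  unfold star
  rw [mem_image]

lemma star_sub {s : ℕ} {Y W : Finset α} (h : s ≤ Y.card) (hW : W ∈ star s Y) :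
    W ⊆ Y ∧ W.card = s + 1 ∧ core s Y ⊆ W := by
  rw [mem_star] at hW
  obtain ⟨y, hy, rfl⟩ := hW
  rw [mem_sdiff] at hy
  have hc := core_spec h
  exact ⟨insert_subset hy.1 hc.1, by rw [card_insert_of_notMem hy.2, hc.2], subset_insert _ _⟩

lemma star_card {s : ℕ} {Y : Finset α} (h : s ≤ Y.card) : (star s Y).card ≤ Y.card - s := by
  unfold star
  refine card_image_le.trans ?_
  rw [card_sdiff_of_subset (core_spec h).1, (core_spec h).2]

lemma star_union {s : ℕ} {Y : Finset α} (h : s + 1 ≤ Y.card) :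
    (star s Y).biUnion id = Y := by
  apply Finset.Subset.antisymm
  · rw [biUnion_subset]
    intro W hW
    exact (star_sub (by omega) hW).1
  · have hc := core_spec (show s ≤ Y.card by omega)
    have hne : (Y \ core s Y).Nonempty := by
      rw [← card_pos, card_sdiff_of_subset hc.1, hc.2]
      omega
    intro y hy
    rw [mem_biUnion]
    by_cases hyc : y ∈ core s Y
    · obtain ⟨z, hz⟩ := hne
      exact ⟨insert z (core s Y), mem_star.2 ⟨z, hz, rfl⟩, mem_insert_of_mem hyc⟩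
    · exact ⟨insert y (core s Y), mem_star.2 ⟨y, mem_sdiff.2 ⟨hy, hyc⟩, rfl⟩,
        mem_insert_self _ _⟩

lemma star_nonempty {s : ℕ} {Y : Finset α} (h : s + 1 ≤ Y.card) : (star s Y).Nonempty := by
  have hc := core_spec (show s ≤ Y.card by omega)
  have hne : (Y \ core s Y).Nonempty := by
    rw [← card_pos, card_sdiff_of_subset hc.1, hc.2]
    omega
  unfold star
  exact hne.image _

/-- all windows of a family -/
noncomputable def wnd (s : ℕ) (𝓨 : Finset (Finset α)) : Finset (Finset α) := 𝓨.biUnion (star s)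

/-- pairwise intersections have at most `k-2` elements -/
def Sep (k : ℕ) (𝓨 : Finset (Finset α)) : Prop :=
  ∀ Y ∈ 𝓨, ∀ Y' ∈ 𝓨, Y ≠ Y' → (Y ∩ Y').card + 2 ≤ k

lemma wnd_recover {k s : ℕ} (hs : k ≤ s + 1) {𝓨 : Finset (Finset α)} (h𝓨 : Sep k 𝓨)
    (hc : ∀ Y ∈ 𝓨, s + 1 ≤ Y.card) :
    𝓨 = (wnd s 𝓨).image
      (fun W₀ => ((wnd s 𝓨).filter (fun W => k ≤ (W ∩ W₀).card + 1)).biUnion id) := by
  have key : ∀ Y ∈ 𝓨, ∀ W₀ ∈ star s Y,
      ((wnd s 𝓨).filter (fun W => k ≤ (W ∩ W₀).card + 1)).biUnion id = Y := by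
    intro Y hY W₀ hW₀
    have hYc := hc Y hY
    have h0 := star_sub (by omega) hW₀
    have : (wnd s 𝓨).filter (fun W => k ≤ (W ∩ W₀).card + 1) = star s Y := by
      ext W
      rw [mem_filter]
      unfold wnd
      rw [mem_biUnion]
      constructor
      · rintro ⟨⟨Y', hY', hW⟩, hk⟩
        have h1 := star_sub (by have := hc Y' hY'; omega) hW
        by_cases he : Y' = Y
        · rwa [he] at hW
        · exfalso
          have := h𝓨 Y' hY' Y hY he
          have h2 : (W ∩ W₀).card ≤ (Y' ∩ Y).card := card_le_card (inter_subset_inter h1.1 h0.1)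
          omega
      · intro hW
        refine ⟨⟨Y, hY, hW⟩, ?_⟩
        have h1 := star_sub (by omega) hW
        have h2 : core s Y ⊆ W ∩ W₀ := subset_inter h1.2.2 h0.2.2
        have h3 := card_le_card h2
        rw [(core_spec (show s ≤ Y.card by omega)).2] at h3
        omega
    rw [this, star_union hYc]
  ext Y
  rw [mem_image]
  constructor
  · intro hY
    obtain ⟨W₀, hW₀⟩ := star_nonempty (hc Y hY)
    exact ⟨W₀, mem_biUnion.2 ⟨Y, hY, hW₀⟩, key Y hY W₀ hW₀⟩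
  · rintro ⟨W₀, hW₀, rfl⟩
    unfold wnd at hW₀
    rw [mem_biUnion] at hW₀
    obtain ⟨Y, hY, hW⟩ := hW₀
    rw [key Y hY W₀ hW]
    exact hY

lemma wnd_inj {k s : ℕ} (hs : k ≤ s + 1) {𝓨₁ 𝓨₂ : Finset (Finset α)} (h₁ : Sep k 𝓨₁)
    (h₂ : Sep k 𝓨₂) (hc₁ : ∀ Y ∈ 𝓨₁, s + 1 ≤ Y.card) (hc₂ : ∀ Y ∈ 𝓨₂, s + 1 ≤ Y.card)
    (h : wnd s 𝓨₁ = wnd s 𝓨₂) : 𝓨₁ = 𝓨₂ := by
  rw [wnd_recover hs h₁ hc₁, wnd_recover hs h₂ hc₂, h]

/-- the `(k-1)`-shadows of a packing are disjoint -/
lemma shadow_sum {E : Finset α} {k : ℕ} (hk : 1 ≤ k) {𝓨 : Finset (Finset α)}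
    (h𝓨 : Sep k 𝓨) (hE : ∀ Y ∈ 𝓨, Y ⊆ E) :
    ∑ Y ∈ 𝓨, Y.card.choose (k - 1) ≤ E.card.choose (k - 1) := by
  have h1 : (𝓨.biUnion (fun Y => Y.powersetCard (k - 1))).card =
      ∑ Y ∈ 𝓨, (Y.powersetCard (k - 1)).card := by
    apply card_biUnion
    intro Y hY Y' hY' hne
    rw [Function.onFun, disjoint_left]
    intro I hI hI'
    rw [mem_powersetCard] at hI hI'
    have h2 := card_le_card (subset_inter hI.1 hI'.1)
    have h3 := h𝓨 Y hY Y' hY' hne
    rw [hI.2] at h2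
    omega
  simp only [card_powersetCard] at h1
  rw [← h1, ← card_powersetCard]
  apply card_le_card
  rw [biUnion_subset]
  intro Y hY I hI
  rw [mem_powersetCard] at hI ⊢
  exact ⟨hI.1.trans (hE Y hY), hI.2⟩

lemma card_wnd_le {E : Finset α} {k s c : ℕ} (hk : 1 ≤ k) {𝓨 : Finset (Finset α)}
    (h𝓨 : Sep k 𝓨) (hE : ∀ Y ∈ 𝓨, Y ⊆ E) (hc : ∀ Y ∈ 𝓨, s + 1 ≤ Y.card)
    (hcc : ∀ j, 1 ≤ j → c * j ≤ (s + j).choose (k - 1)) :
    c * (wnd s 𝓨).card ≤ E.card.choose (k - 1) := by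
  calc c * (wnd s 𝓨).card ≤ c * ∑ Y ∈ 𝓨, (star s Y).card :=
        Nat.mul_le_mul_left _ card_biUnion_le
    _ = ∑ Y ∈ 𝓨, c * (star s Y).card := by rw [mul_sum]
    _ ≤ ∑ Y ∈ 𝓨, Y.card.choose (k - 1) := by
        apply sum_le_sum
        intro Y hY
        have h1 := star_card (show s ≤ Y.card by have := hc Y hY; omega)
        have h2 := hcc (Y.card - s) (by have := hc Y hY; omega)
        have h3 : s + (Y.card - s) = Y.card := by have := hc Y hY; omega
        rw [h3] at h2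
        exact (Nat.mul_le_mul_left _ h1).trans h2
    _ ≤ E.card.choose (k - 1) := shadow_sum hk h𝓨 hE

lemma wnd_sub {E : Finset α} {s : ℕ} {𝓨 : Finset (Finset α)} (hE : ∀ Y ∈ 𝓨, Y ⊆ E)
    (hc : ∀ Y ∈ 𝓨, s + 1 ≤ Y.card) : wnd s 𝓨 ⊆ E.powersetCard (s + 1) := by
  unfold wnd
  rw [biUnion_subset]
  intro Y hY W hW
  have := star_sub (by have := hc Y hY; omega) hW
  rw [mem_powersetCard]
  exact ⟨this.1.trans (hE Y hY), this.2.1⟩

/-- subsets of `U` with at most `N` elements -/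
def few {β : Type*} (U : Finset β) (N : ℕ) : Finset (Finset β) :=
  U.powerset.filter (fun S => S.card ≤ N)

lemma card_few {β : Type*} [DecidableEq β] (U : Finset β) (N : ℕ) :
    (few U N).card = ∑ j ∈ range (N + 1), U.card.choose j := by
  have : few U N = (range (N + 1)).biUnion (fun j => U.powersetCard j) := by
    ext S
    unfold few
    rw [mem_filter, mem_powerset, mem_biUnion]
    constructor
    · rintro ⟨h1, h2⟩
      exact ⟨S.card, mem_range.2 (by omega), mem_powersetCard.2 ⟨h1, rfl⟩⟩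
    · rintro ⟨j, hj, h⟩
      rw [mem_powersetCard] at h
      rw [mem_range] at hj
      exact ⟨h.1, by omega⟩
  rw [this, card_biUnion]
  · simp only [card_powersetCard]
  · intro i _ j _ hij
    rw [Function.onFun, disjoint_left]
    intro S hS hS'
    rw [mem_powersetCard] at hS hS'
    exact hij (hS.2.symm.trans hS'.2)

/-- stable sets of the Johnson graph -/
def Stab (E : Finset α) (k : ℕ) : Finset (Finset (Finset α)) :=
  (E.powersetCard k).powerset.filter (fun 𝓢 => ∀ X ∈ 𝓢, ∀ Y ∈ 𝓢, X ≠ Y → (X ∩ Y).card + 2 ≤ k)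

/-- Fine bound for packings. -/
theorem card_Pack_le (E : Finset α) {k c N : ℕ} (hk : 1 ≤ k)
    (hcc : ∀ j, 1 ≤ j → c * j ≤ (k + j).choose (k - 1))
    (hN : ∀ x, c * x ≤ E.card.choose (k - 1) → x ≤ N) :
    (Pack E k).card ≤ (Stab E k).card * (few (E.powersetCard (k + 1)) N).card := by
  rw [← card_product]
  apply card_le_card_of_injOn
    (fun 𝓨 : Finset (Finset α) =>
      (𝓨.filter (fun Y => Y.card = k), wnd k (𝓨.filter (fun Y => k < Y.card))))
  · intro 𝓨 h𝓨
    rw [mem_coe] at h𝓨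
    unfold Pack at h𝓨
    rw [mem_filter, mem_powerset] at h𝓨
    obtain ⟨h1, h2, h3⟩ := h𝓨
    simp only [coe_product, Set.mem_prod, mem_coe]
    have hE : ∀ Y ∈ 𝓨.filter (fun Y => k < Y.card), Y ⊆ E := fun Y hY =>
      mem_powerset.1 (h1 (mem_filter.1 hY).1)
    have hc : ∀ Y ∈ 𝓨.filter (fun Y => k < Y.card), k + 1 ≤ Y.card := fun Y hY =>
      (mem_filter.1 hY).2
    have hs : Sep k (𝓨.filter (fun Y => k < Y.card)) := fun Y hY Y' hY' hne =>
      h3 Y (mem_filter.1 hY).1 Y' (mem_filter.1 hY').1 hne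
    constructor
    · unfold Stab
      rw [mem_filter, mem_powerset]
      refine ⟨?_, ?_⟩
      · intro X hX
        rw [mem_filter] at hX
        rw [mem_powersetCard]
        exact ⟨mem_powerset.1 (h1 hX.1), hX.2⟩
      · intro X hX Y hY hne
        exact h3 X (mem_filter.1 hX).1 Y (mem_filter.1 hY).1 hne
    · unfold few
      rw [mem_filter, mem_powerset]
      exact ⟨wnd_sub hE hc, hN _ (card_wnd_le hk hs hE hc hcc)⟩
  · intro 𝓨₁ h₁ 𝓨₂ h₂ heq
    rw [mem_coe] at h₁ h₂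
    unfold Pack at h₁ h₂
    rw [mem_filter, mem_powerset] at h₁ h₂
    simp only [Prod.mk.injEq] at heq
    obtain ⟨e1, e2⟩ := heq
    have e3 : 𝓨₁.filter (fun Y => k < Y.card) = 𝓨₂.filter (fun Y => k < Y.card) := by
      apply wnd_inj (k := k) (s := k) (by omega) _ _ _ _ e2
      · intro Y hY Y' hY' hne
        exact h₁.2.2 Y (mem_filter.1 hY).1 Y' (mem_filter.1 hY').1 hne
      · intro Y hY Y' hY' hne
        exact h₂.2.2 Y (mem_filter.1 hY).1 Y' (mem_filter.1 hY').1 hne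
      · intro Y hY; exact (mem_filter.1 hY).2
      · intro Y hY; exact (mem_filter.1 hY).2
    have key : ∀ (𝓨 𝓨' : Finset (Finset α)), (∀ Y ∈ 𝓨, k ≤ Y.card) →
        𝓨.filter (fun Y => Y.card = k) = 𝓨'.filter (fun Y => Y.card = k) →
        𝓨.filter (fun Y => k < Y.card) = 𝓨'.filter (fun Y => k < Y.card) → 𝓨 ⊆ 𝓨' := by
      intro 𝓨 𝓨' hk' f1 f2 Y hY
      rcases (hk' Y hY).eq_or_lt with h | h
      · have : Y ∈ 𝓨.filter (fun Y => Y.card = k) := mem_filter.2 ⟨hY, h.symm⟩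
        rw [f1] at this
        exact (mem_filter.1 this).1
      · have : Y ∈ 𝓨.filter (fun Y => k < Y.card) := mem_filter.2 ⟨hY, h⟩
        rw [f2] at this
        exact (mem_filter.1 this).1
    exact Subset.antisymm (key _ _ h₁.2.1 e1 e3) (key _ _ h₂.2.1 e1.symm e3.symm)

/-- Coarse bound for packings. -/
theorem card_Pack_le' (E : Finset α) {k : ℕ} (hk : 2 ≤ k) :
    (Pack E k).card ≤ (few (E.powersetCard k) (E.card.choose (k - 1))).card := by
  obtain ⟨s, rfl⟩ : ∃ s, k = s + 1 := ⟨k - 1, by omega⟩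
  apply card_le_card_of_injOn (fun 𝓨 : Finset (Finset α) => wnd s 𝓨)
  · intro 𝓨 h𝓨
    rw [mem_coe] at h𝓨
    unfold Pack at h𝓨
    rw [mem_filter, mem_powerset] at h𝓨
    obtain ⟨h1, h2, h3⟩ := h𝓨
    rw [mem_coe]
    unfold few
    rw [mem_filter, mem_powerset]
    have hE : ∀ Y ∈ 𝓨, Y ⊆ E := fun Y hY => mem_powerset.1 (h1 hY)
    refine ⟨wnd_sub hE h2, ?_⟩
    have := card_wnd_le (E := E) (k := s + 1) (s := s) (c := 1) (by omega) h3 hE h2 ?_
    · simpa using this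
    · intro j hj
      rw [one_mul, Nat.add_sub_cancel, Nat.choose_symm_add]
      obtain ⟨i, rfl⟩ : ∃ i, j = i + 1 := ⟨j - 1, by omega⟩
      obtain ⟨t, rfl⟩ : ∃ t, s = t + 1 := ⟨s - 1, by omega⟩
      calc i + 1 ≤ (1 + (i + 1)).choose (i + 1) := by
            rw [← Nat.choose_symm_add, Nat.choose_one_right]; omega
        _ ≤ (t + 1 + (i + 1)).choose (i + 1) := Nat.choose_le_choose _ (by omega)
  · intro 𝓨₁ h₁ 𝓨₂ h₂ heq
    rw [mem_coe] at h₁ h₂
    unfold Pack at h₁ h₂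
    rw [mem_filter, mem_powerset] at h₁ h₂
    exact wnd_inj (k := s + 1) (s := s) (by omega) h₁.2.2 h₂.2.2 h₁.2.1 h₂.2.1 heq

end Pool.Agent.MatCount
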