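import Mathlib
import Pool.Agent.Lib.MP_e1cc60_co.Pack

set_option autoImplicit false
set_option linter.unusedSectionVars false

/-!
The Kleitman-Winston counting lemma and the number of stable sets of the Johnson graph.
-/

namespace Pool.Agent.MatCount

open Finset

section KW

variable {V : Type*} [DecidableEq V]

lemma sum_pascal (n q : ℕ) :
    ∑ j ∈ range (q + 1), (n + 1).choose j =
      ∑ j ∈ range (q + 1), n.choose j + ∑ j ∈ range q, n.choose j := by
  induction q with
  | zero => simp
  | succ q ih =>
    rw [sum_range_succ _ (q + 1), ih, sum_range_succ _ (q + 1), sum_range_succ _ q,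
      Nat.choose_succ_succ]
    ring

/-- independent subsets of `W` -/
def indSets (adj : V → V → Prop) [DecidableRel adj] (W : Finset V) : Finset (Finset V) :=
  W.powerset.filter (fun S => ∀ x ∈ S, ∀ y ∈ S, ¬ adj x y)

theorem kw (adj : V → V → Prop) [DecidableRel adj] (hirr : ∀ v, ¬ adj v v) (R : ℕ)
    (β : ℝ) (hβ0 : 0 ≤ β) (hβ1 : β ≤ 1) (U : Finset V)
    (hdeg : ∀ W ⊆ U, R < W.card → ∃ v ∈ W, β * W.card ≤ ((W.filter (adj v)).card : ℝ)) :
    ∀ n : ℕ, ∀ W ⊆ U, W.card = n → ∀ q : ℕ, (W.card : ℝ) * (1 - β) ^ q ≤ R →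
      (indSets adj W).card ≤ 2 ^ R * ∑ j ∈ range (q + 1), n.choose j := by
  intro n
  induction n using Nat.strong_induction_on with
  | _ n ih =>
    intro W hWU hWn q hq
    by_cases hR : W.card ≤ R
    · have h1 : (indSets adj W).card ≤ 2 ^ W.card := by
        unfold indSets
        refine (card_filter_le _ _).trans ?_
        rw [card_powerset]
      have h2 : 2 ^ W.card ≤ 2 ^ R := Nat.pow_le_pow_right (by norm_num) hR
      have h3 : 1 ≤ ∑ j ∈ range (q + 1), n.choose j := by
        rw [sum_range_succ']
        simp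
      calc (indSets adj W).card ≤ 2 ^ R * 1 := by rw [mul_one]; exact h1.trans h2
        _ ≤ _ := Nat.mul_le_mul_left _ h3
    · push Not at hR
      obtain ⟨v, hv, hd⟩ := hdeg W hWU hR
      obtain ⟨q', rfl⟩ : ∃ q', q = q' + 1 := by
        rcases q with _ | q'
        · exfalso
          rw [pow_zero, mul_one] at hq
          have : W.card ≤ R := by exact_mod_cast hq
          omega
        · exact ⟨q', rfl⟩
      have hcpos : 0 < W.card := card_pos.2 ⟨v, hv⟩
      obtain ⟨m, rfl⟩ : ∃ m, n = m + 1 := ⟨n - 1, by omega⟩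
      set W1 := W.erase v with hW1
      set W2 := W1.filter (fun w => ¬ adj v w) with hW2
      have hW1c : W1.card = m := by rw [hW1, card_erase_of_mem hv]; omega
      have hW2c : W2.card + (W.filter (adj v)).card = m := by
        rw [← hW1c, ← card_filter_add_card_filter_not (s := W1) (p := fun w => ¬ adj v w)]
        congr 1
        congr 1
        ext w
        simp only [hW1, mem_filter, mem_erase, not_not]
        constructor
        · rintro ⟨h1, h2⟩
          exact ⟨⟨by rintro rfl; exact hirr _ h2, h1⟩, h2⟩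
        · rintro ⟨⟨_, h1⟩, h2⟩
          exact ⟨h1, h2⟩
      have hb : (0 : ℝ) ≤ 1 - β := by linarith
      have i1 := ih m (by omega) W1 ((erase_subset _ _).trans hWU) hW1c (q' + 1) (by
        refine le_trans ?_ hq
        apply mul_le_mul_of_nonneg_right _ (pow_nonneg hb _)
        rw [hW1c, hWn]
        push_cast
        linarith)
      have i2 := ih W2.card (by omega) W2 ((filter_subset _ _).trans
        ((erase_subset _ _).trans hWU)) rfl q' (by
        refine le_trans ?_ hq
        have h1 : (W2.card : ℝ) ≤ (1 - β) * W.card := by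
          have h2 : (W2.card : ℝ) + ((W.filter (adj v)).card : ℝ) = m := by exact_mod_cast hW2c
          have h3 : (W.card : ℝ) = m + 1 := by exact_mod_cast hWn
          nlinarith
        calc (W2.card : ℝ) * (1 - β) ^ q' ≤ ((1 - β) * W.card) * (1 - β) ^ q' :=
              mul_le_mul_of_nonneg_right h1 (pow_nonneg hb _)
          _ = W.card * (1 - β) ^ (q' + 1) := by ring)
      have hsplit : (indSets adj W).card ≤ (indSets adj W1).card + (indSets adj W2).card := by
        rw [← card_filter_add_card_filter_not (s := indSets adj W) (p := fun S => v ∉ S)]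
        apply Nat.add_le_add
        · apply card_le_card
          intro S hS
          unfold indSets at hS ⊢
          rw [mem_filter, mem_filter, mem_powerset] at hS
          rw [mem_filter, mem_powerset]
          refine ⟨?_, hS.1.2⟩
          intro x hx
          rw [hW1, mem_erase]
          exact ⟨by rintro rfl; exact hS.2 hx, hS.1.1 hx⟩
        · apply card_le_card_of_injOn (fun S => S.erase v)
          · intro S hS
            rw [mem_coe] at hS ⊢
            unfold indSets at hS ⊢
            rw [mem_filter, mem_filter, mem_powerset, not_not] at hS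
            rw [mem_filter, mem_powerset]
            refine ⟨?_, ?_⟩
            · intro x hx
              rw [mem_erase] at hx
              rw [hW2, mem_filter, hW1, mem_erase]
              exact ⟨⟨hx.1, hS.1.1 hx.2⟩, hS.1.2 v hS.2 x hx.2⟩
            · intro x hx y hy
              exact hS.1.2 x (mem_of_mem_erase hx) y (mem_of_mem_erase hy)
          · intro S hS S' hS' h
            rw [mem_coe, mem_filter, not_not] at hS hS'
            simp only at h
            rw [← insert_erase hS.2, ← insert_erase hS'.2, h]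
      calc (indSets adj W).card ≤ (indSets adj W1).card + (indSets adj W2).card := hsplit
        _ ≤ 2 ^ R * ∑ j ∈ range (q' + 1 + 1), m.choose j +
            2 ^ R * ∑ j ∈ range (q' + 1), W2.card.choose j := Nat.add_le_add i1 i2
        _ ≤ 2 ^ R * ∑ j ∈ range (q' + 1 + 1), m.choose j +
            2 ^ R * ∑ j ∈ range (q' + 1), m.choose j := by
            apply Nat.add_le_add_left
            apply Nat.mul_le_mul_left
            apply sum_le_sum
            intro j _
            exact Nat.choose_le_choose _ (by omega)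
        _ = 2 ^ R * ∑ j ∈ range (q' + 1 + 1), (m + 1).choose j := by
            rw [sum_pascal m (q' + 1)]
            ring

end KW

variable {α : Type*} [DecidableEq α]

/-- adjacency of the Johnson graph -/
def adjJ (k : ℕ) (X Y : Finset α) : Prop := X ≠ Y ∧ k ≤ (X ∩ Y).card + 1

instance (k : ℕ) : DecidableRel (adjJ (α := α) k) := fun X Y => by
  unfold adjJ; infer_instance

/-- Some vertex has large degree. -/
theorem johnson_deg (E : Finset α) {k : ℕ} (hk : 1 ≤ k) (W : Finset (Finset α))
    (hW : W ⊆ E.powersetCard k) (hne : W.Nonempty) :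
    ∃ X ∈ W, k ^ 2 * W.card ≤
      E.card.choose (k - 1) * (k + (W.filter (adjJ k X)).card) := by
  by_contra hcon
  push Not at hcon
  set 𝓩 := E.powersetCard (k - 1) with h𝓩
  set C := E.card.choose (k - 1) with hC
  let d : Finset α → ℕ := fun Z => (W.filter (fun X => Z ⊆ X)).card
  have hsub : ∀ X ∈ W, X ⊆ E ∧ X.card = k := fun X hX => mem_powersetCard.1 (hW hX)
  have e1 : ∑ Z ∈ 𝓩, d Z = k * W.card := by
    have : ∑ Z ∈ 𝓩, d Z = ∑ X ∈ W, (𝓩.filter (fun Z => Z ⊆ X)).card := by
      simp only [d, card_filter]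
      rw [sum_comm]
    rw [this]
    have h2 : ∀ X ∈ W, (𝓩.filter (fun Z => Z ⊆ X)).card = k := by
      intro X hX
      have : 𝓩.filter (fun Z => Z ⊆ X) = X.powersetCard (k - 1) := by
        ext Z
        rw [mem_filter, h𝓩, mem_powersetCard, mem_powersetCard]
        constructor
        · rintro ⟨⟨_, h2⟩, h3⟩; exact ⟨h3, h2⟩
        · rintro ⟨h3, h2⟩; exact ⟨⟨h3.trans (hsub X hX).1, h2⟩, h3⟩
      rw [this, card_powersetCard, (hsub X hX).2]
      obtain ⟨j, rfl⟩ : ∃ j, k = j + 1 := ⟨k - 1, by omega⟩
      simp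
    rw [sum_congr rfl h2, sum_const, smul_eq_mul, mul_comm]
  have e2 : ∑ Z ∈ 𝓩, d Z ^ 2 ≤ ∑ X ∈ W, (k + (W.filter (adjJ k X)).card) := by
    have : ∑ Z ∈ 𝓩, d Z ^ 2 =
        ∑ X ∈ W, ∑ Y ∈ W, (𝓩.filter (fun Z => Z ⊆ X ∧ Z ⊆ Y)).card := by
      have : ∀ Z ∈ 𝓩, d Z ^ 2 = ∑ X ∈ W, ∑ Y ∈ W, if Z ⊆ X ∧ Z ⊆ Y then 1 else 0 := by
        intro Z _
        simp only [d]
        rw [sq, card_filter, sum_mul_sum]
        apply sum_congr rfl
        intro X _
        apply sum_congr rfl
        intro Y _
        by_cases h1 : Z ⊆ X <;> by_cases h2 : Z ⊆ Y <;> simp [h1, h2]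
      rw [sum_congr rfl this]
      simp only [card_filter]
      rw [sum_comm]
      apply sum_congr rfl
      intro X _
      rw [sum_comm]
    rw [this]
    apply sum_le_sum
    intro X hX
    have h3 : ∀ Y ∈ W, (𝓩.filter (fun Z => Z ⊆ X ∧ Z ⊆ Y)).card ≤
        (if Y = X then k else 0) + (if adjJ k X Y then 1 else 0) := by
      intro Y hY
      have hle : (𝓩.filter (fun Z => Z ⊆ X ∧ Z ⊆ Y)).card ≤ (X ∩ Y).card.choose (k - 1) := by
        rw [← card_powersetCard]
        apply card_le_card
        intro Z hZ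
        rw [mem_filter, h𝓩, mem_powersetCard] at hZ
        rw [mem_powersetCard]
        exact ⟨subset_inter hZ.2.1 hZ.2.2, hZ.1.2⟩
      refine hle.trans ?_
      obtain ⟨j, rfl⟩ : ∃ j, k = j + 1 := ⟨k - 1, by omega⟩
      by_cases hYX : Y = X
      · subst hYX
        rw [inter_self, (hsub Y hY).2, if_pos rfl]
        simp
      · rw [if_neg hYX, zero_add]
        have hlt : (X ∩ Y).card < j + 1 := by
          by_contra hge
          push Not at hge
          have h4 : X ∩ Y = X := eq_of_subset_of_card_le inter_subset_left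
            (by rw [(hsub X hX).2]; exact hge)
          have h5 : X ∩ Y = Y := eq_of_subset_of_card_le inter_subset_right
            (by rw [(hsub Y hY).2]; exact hge)
          exact hYX (h5.symm.trans h4)
        by_cases hadj : adjJ (j + 1) X Y
        · rw [if_pos hadj]
          have : (X ∩ Y).card = j := by
            have := hadj.2
            omega
          rw [this]
          simp
        · rw [if_neg hadj]
          have : (X ∩ Y).card < j := by
            by_contra hge
            apply hadj
            exact ⟨fun h => hYX h.symm, by omega⟩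
          rw [Nat.add_sub_cancel, Nat.choose_eq_zero_of_lt this]
    refine (sum_le_sum h3).trans ?_
    rw [sum_add_distrib, ← card_filter, sum_ite_eq' W X (fun _ => k), if_pos hX]
  have e3 := sq_sum_le_card_mul_sum_sq (s := 𝓩) (f := d)
  rw [e1, h𝓩, card_powersetCard, ← hC, ← h𝓩] at e3
  have e4 : C * ∑ X ∈ W, (k + (W.filter (adjJ k X)).card) < ∑ _X ∈ W, k ^ 2 * W.card := by
    rw [mul_sum]
    exact sum_lt_sum_of_nonempty hne hcon
  rw [sum_const, smul_eq_mul] at e4
  have e5 : (k * W.card) ^ 2 ≤ C * ∑ X ∈ W, (k + (W.filter (adjJ k X)).card) :=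
    e3.trans (Nat.mul_le_mul_left _ e2)
  have e6 : (k * W.card) ^ 2 = W.card * (k ^ 2 * W.card) := by ring
  omega

/-- Number of stable sets of the Johnson graph. -/
theorem card_Stab_le (E : Finset α) {k : ℕ} (hk : 1 ≤ k) (a ε : ℝ) (hε : 0 < ε) (ha : 0 < a)
    (hka : (E.card.choose (k - 1) : ℝ) = k * a) (hβ : ε * k ≤ (1 + ε) * a) (R q : ℕ)
    (hR : (1 + ε) * a ≤ R)
    (hq : (E.card.choose k : ℝ) * (1 - ε * k / ((1 + ε) * a)) ^ q ≤ R) :
    (Stab E k).card ≤ 2 ^ R * ∑ j ∈ range (q + 1), (E.card.choose k).choose j := by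
  have hk0 : (0 : ℝ) < k := by exact_mod_cast hk
  have hden : 0 < (1 + ε) * a := by positivity
  have e : Stab E k = indSets (adjJ k) (E.powersetCard k) := by
    unfold Stab indSets
    apply filter_congr
    intro 𝓢 _
    unfold adjJ
    constructor
    · rintro h X hX Y hY ⟨hne, hle⟩
      have := h X hX Y hY hne
      omega
    · intro h X hX Y hY hne
      by_contra hlt
      exact h X hX Y hY ⟨hne, by omega⟩
  rw [e]
  refine kw (adjJ k) (fun v h => h.1 rfl) R (ε * k / ((1 + ε) * a)) (by positivity)
    ((div_le_one hden).2 hβ) (E.powersetCard k) ?_ _ _ subset_rfl (by rw [card_powersetCard]) q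
    (by rw [card_powersetCard]; exact hq)
  intro W hW hRW
  obtain ⟨X, hX, hdeg⟩ := johnson_deg E hk W hW (card_pos.1 (by omega))
  refine ⟨X, hX, ?_⟩
  have h1 : (k : ℝ) ^ 2 * W.card ≤ (k * a) * (k + ((W.filter (adjJ k X)).card : ℝ)) := by
    rw [← hka]
    exact_mod_cast hdeg
  have h2 : (1 + ε) * a ≤ W.card := hR.trans (by exact_mod_cast hRW.le)
  set D : ℝ := ((W.filter (adjJ k X)).card : ℝ) with hD
  -- divide by `k`
  have h3 : (k : ℝ) * W.card ≤ a * (k + D) := by
    have : (k : ℝ) * (k * W.card) ≤ k * (a * (k + D)) := by nlinarith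
    exact le_of_mul_le_mul_left this hk0
  rw [div_mul_eq_mul_div, div_le_iff₀ hden]
  have h4 : a * k * ε ≥ 0 := by positivity
  nlinarith [mul_le_mul_of_nonneg_left h2 hk0.le]

end Pool.Agent.MatCount
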