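import Mathlib
import Pool.Agent.Lib.MP_e1cc60_co.Johnson

set_option autoImplicit false
set_option linter.unusedSectionVars false

/-!
The lower bound: sparse paving matroids from the Graham-Sloane classes.
-/

namespace Pool.Agent.MatCount

open Finset

variable {α : Type*} [DecidableEq α]

lemma isBF_of_exchange (E : Finset α) (r : ℕ) (𝓑 : Finset (Finset α))
    (hsub : 𝓑 ⊆ E.powersetCard r) (hne : 𝓑.Nonempty)
    (hex : ∀ B₁ ∈ 𝓑, ∀ B₂ ∈ 𝓑, ∀ a ∈ B₁, a ∉ B₂ → ∃ b ∈ B₂, b ∉ B₁ ∧
      insert b (B₁.erase a) ∈ 𝓑) : IsBF E r 𝓑 := by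
  let P : Set α → Prop := fun S => ∃ I ∈ 𝓑, (↑I : Set α) = S
  have hexch : Matroid.ExchangeProperty P := by
    rintro X Y ⟨I, hI, rfl⟩ ⟨J, hJ, rfl⟩ a ha
    have haI : a ∈ I := by exact_mod_cast ha.1
    have haJ : a ∉ J := fun h => ha.2 (by exact_mod_cast h)
    obtain ⟨b, hb, hbI, hbB⟩ := hex I hI J hJ a haI haJ
    refine ⟨b, ⟨by exact_mod_cast hb, by exact_mod_cast hbI⟩, _, hbB, ?_⟩
    push_cast
    rfl
  have hsub' : ∀ B, P B → B ⊆ (↑E : Set α) := by
    rintro B ⟨I, hI, rfl⟩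
    exact_mod_cast (mem_powersetCard.1 (hsub hI)).1
  refine ⟨Matroid.ofExistsFiniteIsBase (↑E : Set α) P ?_ hexch hsub', rfl, ?_, ?_⟩
  · obtain ⟨B, hB⟩ := hne
    exact ⟨↑B, ⟨B, hB, rfl⟩, B.finite_toSet⟩
  · intro B
    rw [Matroid.ofExistsFiniteIsBase_isBase]
    constructor
    · intro h; exact ⟨B, h, rfl⟩
    · rintro ⟨I, hI, h⟩
      rw [coe_inj] at h
      rwa [← h]
  · intro B hB
    exact (mem_powersetCard.1 (hsub hB)).2

/-- sparse paving matroids -/
lemma sparse_isBF (E : Finset α) {r : ℕ} (hr : 1 ≤ r) (hrn : r < E.card)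
    (𝓢 : Finset (Finset α)) (hsep : Sep r 𝓢) :
    IsBF E r (E.powersetCard r \ 𝓢) := by
  apply isBF_of_exchange
  · exact sdiff_subset
  · -- two adjacent `r`-sets
    obtain ⟨Z, hZ, hZc⟩ := exists_subset_card_eq (show r - 1 ≤ E.card by omega)
    have h2 : 2 ≤ (E \ Z).card := by rw [card_sdiff_of_subset hZ]; omega
    obtain ⟨x, hx, y, hy, hxy⟩ := one_lt_card.1 (show 1 < (E \ Z).card by omega)
    rw [mem_sdiff] at hx hy
    have hX : insert x Z ∈ E.powersetCard r := by
      rw [mem_powersetCard]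
      exact ⟨insert_subset hx.1 hZ, by rw [card_insert_of_notMem hx.2]; omega⟩
    have hY : insert y Z ∈ E.powersetCard r := by
      rw [mem_powersetCard]
      exact ⟨insert_subset hy.1 hZ, by rw [card_insert_of_notMem hy.2]; omega⟩
    by_cases hXS : insert x Z ∈ 𝓢
    · refine ⟨insert y Z, mem_sdiff.2 ⟨hY, fun hYS => ?_⟩⟩
      have hne : insert x Z ≠ insert y Z := by
        intro h
        have : x ∈ insert y Z := h ▸ mem_insert_self x Z
        rw [mem_insert] at this
        rcases this with h | h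
        · exact hxy h
        · exact hx.2 h
      have := hsep _ hXS _ hYS hne
      have h3 : Z.card ≤ (insert x Z ∩ insert y Z).card :=
        card_le_card (subset_inter (subset_insert _ _) (subset_insert _ _))
      omega
    · exact ⟨insert x Z, mem_sdiff.2 ⟨hX, hXS⟩⟩
  · intro B₁ h₁ B₂ h₂ a ha hna
    rw [mem_sdiff, mem_powersetCard] at h₁ h₂
    have hcard : (B₂ \ B₁).card = (B₁ \ B₂).card := by
      have e1 := card_sdiff_add_card_inter B₁ B₂
      have e2 := card_sdiff_add_card_inter B₂ B₁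
      rw [inter_comm] at e2
      omega
    have hmem : ∀ b ∈ B₂ \ B₁, insert b (B₁.erase a) ∈ E.powersetCard r := by
      intro b hb
      rw [mem_sdiff] at hb
      rw [mem_powersetCard]
      refine ⟨insert_subset (h₂.1.1 hb.1) ((erase_subset _ _).trans h₁.1.1), ?_⟩
      rw [card_insert_of_notMem (fun h => hb.2 (mem_of_mem_erase h)), card_erase_of_mem ha]
      omega
    have hpos : 0 < (B₁ \ B₂).card := card_pos.2 ⟨a, mem_sdiff.2 ⟨ha, hna⟩⟩
    by_cases h1 : (B₁ \ B₂).card = 1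
    · -- the exchange gives `B₂`
      obtain ⟨b, hb⟩ := card_eq_one.1 (hcard.trans h1)
      obtain ⟨a', ha'⟩ := card_eq_one.1 h1
      have haa : a = a' := by
        have : a ∈ B₁ \ B₂ := mem_sdiff.2 ⟨ha, hna⟩
        rw [ha', mem_singleton] at this
        exact this
      have hb' : b ∈ B₂ \ B₁ := by rw [hb]; exact mem_singleton_self b
      have hb'' := mem_sdiff.1 hb'
      refine ⟨b, hb''.1, hb''.2, ?_⟩
      have : insert b (B₁.erase a) = B₂ := by
        apply eq_of_subset_of_card_le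
        · refine insert_subset hb''.1 ?_
          intro x hx
          rw [mem_erase] at hx
          by_contra hx2
          have : x ∈ B₁ \ B₂ := mem_sdiff.2 ⟨hx.2, hx2⟩
          rw [ha', mem_singleton] at this
          exact hx.1 (this.trans haa.symm)
        · rw [(mem_powersetCard.1 (hmem b hb')).2, h₂.1.2]
      rw [this, mem_sdiff, mem_powersetCard]
      exact h₂
    · obtain ⟨b, hb, c, hc, hbc⟩ := one_lt_card.1 (show 1 < (B₂ \ B₁).card by omega)
      have hb' := mem_sdiff.1 hb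
      have hc' := mem_sdiff.1 hc
      by_cases hbS : insert b (B₁.erase a) ∈ 𝓢
      · refine ⟨c, hc'.1, hc'.2, mem_sdiff.2 ⟨hmem c hc, fun hcS => ?_⟩⟩
        have hne : insert b (B₁.erase a) ≠ insert c (B₁.erase a) := by
          intro h
          have : b ∈ insert c (B₁.erase a) := h ▸ mem_insert_self b _
          rw [mem_insert] at this
          rcases this with h | h
          · exact hbc h
          · exact hb'.2 (mem_of_mem_erase h)
        have := hsep _ hbS _ hcS hne
        have h3 : (B₁.erase a).card ≤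
            (insert b (B₁.erase a) ∩ insert c (B₁.erase a)).card :=
          card_le_card (subset_inter (subset_insert _ _) (subset_insert _ _))
        rw [card_erase_of_mem ha] at h3
        omega
      · exact ⟨b, hb'.1, hb'.2, mem_sdiff.2 ⟨hmem b hb, hbS⟩⟩

/-- a class of `r`-subsets with equal sum modulo `n` is separated -/
lemma gs_sep (n r a : ℕ) :
    Sep r (((univ : Finset (Fin n)).powersetCard r).filter
      (fun X : Finset (Fin n) => (∑ x ∈ X, (x : ℕ)) % n = a)) := by
  intro X hX Y hY hne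
  rw [mem_filter, mem_powersetCard] at hX hY
  by_contra hlt
  have hc1 : (X ∩ Y).card < r := by
    by_contra hge
    push Not at hge
    have h4 : X ∩ Y = X := eq_of_subset_of_card_le inter_subset_left
      (by rw [hX.1.2]; exact hge)
    have h5 : X ∩ Y = Y := eq_of_subset_of_card_le inter_subset_right
      (by rw [hY.1.2]; exact hge)
    exact hne (h4.symm.trans h5)
  have e1 := card_sdiff_add_card_inter X Y
  have e2 := card_sdiff_add_card_inter Y X
  rw [inter_comm Y X] at e2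
  obtain ⟨x, hx⟩ := card_eq_one.1 (show (X \ Y).card = 1 by omega)
  obtain ⟨y, hy⟩ := card_eq_one.1 (show (Y \ X).card = 1 by omega)
  have s1 : ∑ z ∈ X, (z : ℕ) = (x : ℕ) + ∑ z ∈ X ∩ Y, (z : ℕ) := by
    rw [← sum_inter_add_sum_sdiff X Y, hx, sum_singleton]
    ring
  have s2 : ∑ z ∈ Y, (z : ℕ) = (y : ℕ) + ∑ z ∈ X ∩ Y, (z : ℕ) := by
    rw [← sum_inter_add_sum_sdiff Y X, hy, sum_singleton, inter_comm Y X]
    ring
  have h3 : ((x : ℕ) + ∑ z ∈ X ∩ Y, (z : ℕ)) % n = ((y : ℕ) + ∑ z ∈ X ∩ Y, (z : ℕ)) % n := by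
    rw [← s1, ← s2, hX.2, hY.2]
  have h4 : (x : ℕ) ≡ (y : ℕ) [MOD n] := Nat.ModEq.add_right_cancel' _ h3
  have h5 : (x : ℕ) = y := Nat.ModEq.eq_of_lt_of_lt h4 x.2 y.2
  have h6 : x = y := Fin.ext h5
  have hx' : x ∈ X \ Y := by rw [hx]; exact mem_singleton_self x
  have hy' : y ∈ Y \ X := by rw [hy]; exact mem_singleton_self y
  rw [mem_sdiff] at hx' hy'
  exact hx'.2 (h6 ▸ hy'.1)

theorem lower_bound {n r : ℕ} (hr : 1 ≤ r) (hrn : r < n) :
    ∃ c : ℕ, n.choose r ≤ n * c ∧ 2 ^ c ≤ (BFon (univ : Finset (Fin n)) r).card := by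
  classical
  have hn : 0 < n := by omega
  let S : ℕ → Finset (Finset (Fin n)) := fun a =>
    ((univ : Finset (Fin n)).powersetCard r).filter
      (fun X : Finset (Fin n) => (∑ x ∈ X, (x : ℕ)) % n = a)
  obtain ⟨a, ha, hmax⟩ := exists_max_image (range n) (fun a => (S a).card)
    ⟨0, mem_range.2 hn⟩
  refine ⟨(S a).card, ?_, ?_⟩
  · have h1 : ((univ : Finset (Fin n)).powersetCard r).card = ∑ b ∈ range n, (S b).card :=
      card_eq_sum_card_fiberwise (fun X _ => mem_coe.2 (mem_range.2 (Nat.mod_lt _ hn)))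
    rw [card_powersetCard, card_univ, Fintype.card_fin] at h1
    rw [h1]
    calc ∑ b ∈ range n, (S b).card ≤ ∑ _b ∈ range n, (S a).card := sum_le_sum hmax
      _ = n * (S a).card := by rw [sum_const, card_range, smul_eq_mul]
  · rw [← card_powerset]
    apply card_le_card_of_injOn
      (fun 𝓢 : Finset (Finset (Fin n)) => (univ : Finset (Fin n)).powersetCard r \ 𝓢)
    · intro 𝓢 h𝓢
      rw [mem_coe, mem_powerset] at h𝓢
      rw [mem_coe, mem_BFon]
      apply sparse_isBF _ hr (by rw [card_univ, Fintype.card_fin]; exact hrn)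
      intro X hX Y hY hne
      exact gs_sep n r a X (h𝓢 hX) Y (h𝓢 hY) hne
    · intro 𝓢 h𝓢 𝓢' h𝓢' h
      rw [mem_coe, mem_powerset] at h𝓢 h𝓢'
      have h1 : 𝓢 ⊆ (univ : Finset (Fin n)).powersetCard r := h𝓢.trans (filter_subset _ _)
      have h2 : 𝓢' ⊆ (univ : Finset (Fin n)).powersetCard r := h𝓢'.trans (filter_subset _ _)
      have h3 : (univ : Finset (Fin n)).powersetCard r \ 𝓢 =
          (univ : Finset (Fin n)).powersetCard r \ 𝓢' := h
      rw [← Finset.sdiff_sdiff_eq_self h1, ← Finset.sdiff_sdiff_eq_self h2, h3]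

end Pool.Agent.MatCount
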