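import Mathlib
import Pool.Agent.Lib.MP_e1cc60_co.Lower

set_option autoImplicit false
set_option linter.unusedSectionVars false

/-!
Numerical estimates for the counting bounds.
-/

namespace Pool.Agent.MatCount

open Finset

lemma sum_choose_le (N q : ℕ) (X : ℝ) (hX : 0 < X) (hXN : X ≤ N) (hq : (q : ℝ) ≤ X) :
    ((∑ j ∈ range (q + 1), N.choose j : ℕ) : ℝ) ≤ Real.exp (X * (1 + Real.log (N / X))) := by
  have hN : (0 : ℝ) < N := lt_of_lt_of_le hX hXN
  set x : ℝ := X / N with hx
  have hx0 : 0 < x := by positivity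
  have hx1 : x ≤ 1 := (div_le_one hN).2 hXN
  have h1 : x ^ q * ((∑ j ∈ range (q + 1), N.choose j : ℕ) : ℝ) ≤ (1 + x) ^ N := by
    have hqN : q ≤ N := by exact_mod_cast hq.trans hXN
    have h2 : (1 + x) ^ N = ∑ j ∈ range (N + 1), x ^ j * (N.choose j : ℝ) := by
      rw [add_comm, add_pow]
      apply sum_congr rfl
      intro j _
      rw [one_pow, mul_one]
    rw [h2]
    push_cast
    rw [mul_sum]
    calc ∑ j ∈ range (q + 1), x ^ q * (N.choose j : ℝ)
        ≤ ∑ j ∈ range (q + 1), x ^ j * (N.choose j : ℝ) := by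
          apply sum_le_sum
          intro j hj
          rw [mem_range] at hj
          apply mul_le_mul_of_nonneg_right _ (by positivity)
          exact pow_le_pow_of_le_one hx0.le hx1 (by omega)
      _ ≤ ∑ j ∈ range (N + 1), x ^ j * (N.choose j : ℝ) := by
          apply sum_le_sum_of_subset_of_nonneg
          · exact range_subset_range.2 (by omega)
          · intro j _ _
            positivity
  have h3 : (1 + x) ^ N ≤ Real.exp X := by
    have h4 : (1 + x) ≤ Real.exp x := by
      have := Real.add_one_le_exp x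
      linarith
    calc (1 + x) ^ N ≤ (Real.exp x) ^ N := pow_le_pow_left₀ (by positivity) h4 N
      _ = Real.exp (N * x) := by rw [Real.exp_nat_mul]
      _ = Real.exp X := by rw [hx]; congr 1; field_simp
  have h5 : x ^ q ≥ Real.exp (-(X * Real.log (N / X))) := by
    have h6 : Real.log (N / X) = - Real.log x := by
      rw [hx, ← Real.log_inv, inv_div]
    rw [h6, mul_neg, neg_neg]
    have h7 : x ^ q = Real.exp (q * Real.log x) := by
      rw [mul_comm, Real.exp_mul, Real.exp_log hx0, Real.rpow_natCast]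
    rw [h7, ge_iff_le, Real.exp_le_exp]
    have h8 : Real.log x ≤ 0 := Real.log_nonpos hx0.le hx1
    nlinarith
  have h9 : 0 < Real.exp (-(X * Real.log (N / X))) := Real.exp_pos _
  have h10 : (0 : ℝ) ≤ ((∑ j ∈ range (q + 1), N.choose j : ℕ) : ℝ) := by positivity
  have h11 : Real.exp (-(X * Real.log (N / X))) * ((∑ j ∈ range (q + 1), N.choose j : ℕ) : ℝ) ≤
      Real.exp X := (mul_le_mul_of_nonneg_right h5 h10).trans (h1.trans h3)
  rw [Real.exp_neg, inv_mul_le_iff₀ (Real.exp_pos _), ← Real.exp_add] at h11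
  refine h11.trans (le_of_eq ?_)
  congr 1
  ring

variable {α : Type*} [DecidableEq α]

/-- the number of rank two matroids -/
lemma rank_two (E : Finset α) (hE : 3 ≤ E.card) :
    ((BFon E 2).card : ℝ) ≤ Real.exp (E.card * (1 + Real.log E.card)) := by
  have h1 := card_BFon_le E (k := 2) (by norm_num)
  have h2 : (BFon E 1).card ≤ 2 ^ E.card := by
    classical
    unfold BFon
    refine (card_filter_le _ _).trans ?_
    rw [card_powerset, card_powersetCard, Nat.choose_one_right]
  have h3 := card_Pack_le' E (k := 2) (by norm_num)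
  rw [card_few, card_powersetCard] at h3
  norm_num at h1 h3
  have hN : (E.card : ℝ) ≤ (E.card.choose 2 : ℕ) := by
    have : E.card ≤ E.card.choose 2 := by
      rw [Nat.choose_two_right]
      rw [Nat.le_div_iff_mul_le (by norm_num)]
      exact Nat.mul_le_mul_left _ (by omega)
    exact_mod_cast this
  have hpos : (0 : ℝ) < E.card := by
    have : 0 < E.card := by omega
    exact_mod_cast this
  have h4 := sum_choose_le (E.card.choose 2) E.card E.card hpos hN le_rfl
  have h5 : Real.log ((E.card.choose 2 : ℕ) / (E.card : ℝ)) ≤ Real.log E.card - Real.log 2 := by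
    rw [← Real.log_div hpos.ne' (by norm_num)]
    apply Real.log_le_log (div_pos (lt_of_lt_of_le hpos hN) hpos)
    have h6 : ((E.card.choose 2 : ℕ) : ℝ) = E.card * (E.card - 1) / 2 := Nat.cast_choose_two ℝ _
    rw [h6, div_le_iff₀ hpos]
    nlinarith
  have h7 : ((BFon E 2).card : ℝ) ≤ 2 ^ E.card *
      Real.exp (E.card * (1 + Real.log ((E.card.choose 2 : ℕ) / (E.card : ℝ)))) := by
    calc ((BFon E 2).card : ℝ) ≤ (((BFon E 1).card * (Pack E 2).card : ℕ) : ℝ) := by
          exact_mod_cast h1
      _ ≤ ((2 ^ E.card * ∑ j ∈ range (E.card + 1), (E.card.choose 2).choose j : ℕ) : ℝ) := by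
          exact_mod_cast Nat.mul_le_mul h2 h3
      _ ≤ _ := by
          rw [Nat.cast_mul, Nat.cast_pow, Nat.cast_ofNat]
          exact mul_le_mul_of_nonneg_left h4 (by positivity)
  refine h7.trans ?_
  have h8 : (2 : ℝ) ^ E.card = Real.exp (E.card * Real.log 2) := by
    rw [mul_comm, Real.exp_mul, Real.exp_log (by norm_num), Real.rpow_natCast]
  rw [h8, ← Real.exp_add, Real.exp_le_exp]
  have h9 := mul_le_mul_of_nonneg_left h5 hpos.le
  nlinarith

/-- logarithmic form of Shearer's bound -/
lemma shearer_log (E : Finset α) {r k : ℕ} (hkr : k ≤ r) (hrE : r ≤ E.card) (Q : ℝ) (hQ0 : 0 ≤ Q)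
    (hQ : ∀ T ∈ E.powersetCard (r - k), ((BFon (E \ T) k).card : ℝ) + 1 ≤ Real.exp Q) :
    Real.log (BFon E r).card ≤
      (E.card.choose r : ℝ) / ((E.card - (r - k)).choose k : ℝ) * Q := by
  set t := r - k with ht
  have h1 := shearer_bound E r t (by omega) ⌊Real.exp Q⌋₊ (fun T hT => by
    have h := hQ T hT
    have e : r - t = k := by omega
    rw [e]
    apply Nat.le_floor
    push_cast
    exact h)
  have hrt : 0 < r.choose t := Nat.choose_pos (by omega)
  have hc : 0 < (E.card - t).choose k := Nat.choose_pos (by omega)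
  have hid : E.card.choose r * r.choose t = E.card.choose t * (E.card - t).choose (r - t) :=
    Nat.choose_mul (by omega)
  have e : r - t = k := by omega
  rw [e] at hid
  by_cases h0 : (BFon E r).card = 0
  · rw [h0]
    simp only [Nat.cast_zero, Real.log_zero]
    positivity
  have hpos : (0 : ℝ) < (BFon E r).card := by exact_mod_cast Nat.pos_of_ne_zero h0
  have h2 : (r.choose t : ℝ) * Real.log (BFon E r).card ≤ (E.card.choose t : ℝ) * Q := by
    have h3 : (((BFon E r).card : ℝ)) ^ (r.choose t) ≤ (Real.exp Q) ^ (E.card.choose t) := by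
      calc (((BFon E r).card : ℝ)) ^ (r.choose t) ≤ (⌊Real.exp Q⌋₊ : ℝ) ^ (E.card.choose t) := by
            exact_mod_cast h1
        _ ≤ _ := pow_le_pow_left₀ (by positivity) (Nat.floor_le (Real.exp_pos _).le) _
    have h4 := Real.log_le_log (by positivity) h3
    rwa [Real.log_pow, Real.log_pow, Real.log_exp] at h4
  have hrt' : (0 : ℝ) < r.choose t := by exact_mod_cast hrt
  have hc' : (0 : ℝ) < ((E.card - t).choose k : ℕ) := by exact_mod_cast hc
  have hid' : (E.card.choose r : ℝ) * (r.choose t : ℝ) =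
      (E.card.choose t : ℝ) * ((E.card - t).choose k : ℕ) := by exact_mod_cast hid
  rw [div_mul_eq_mul_div, le_div_iff₀ hc']
  have h5 : (r.choose t : ℝ) * (Real.log (BFon E r).card * ((E.card - t).choose k : ℕ)) ≤
      (r.choose t : ℝ) * ((E.card.choose r : ℝ) * Q) := by
    calc (r.choose t : ℝ) * (Real.log (BFon E r).card * ((E.card - t).choose k : ℕ))
        = ((r.choose t : ℝ) * Real.log (BFon E r).card) * ((E.card - t).choose k : ℕ) := by ring
      _ ≤ ((E.card.choose t : ℝ) * Q) * ((E.card - t).choose k : ℕ) :=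
          mul_le_mul_of_nonneg_right h2 hc'.le
      _ = ((E.card.choose t : ℝ) * ((E.card - t).choose k : ℕ)) * Q := by ring
      _ = ((E.card.choose r : ℝ) * (r.choose t : ℝ)) * Q := by rw [hid']
      _ = _ := by ring
  exact le_of_mul_le_mul_left h5 hrt'

/-- crude bound -/
lemma crude (E : Finset α) {r m : ℕ} (hr : 2 ≤ r) (hE : E.card = m + r) (hm : 1 ≤ m) :
    Real.log (BFon E r).card ≤
      (E.card.choose r : ℝ) * (2 * (2 + Real.log (m + 2)) / (m + 1)) := by
  have hm' : (1 : ℝ) ≤ m := by exact_mod_cast hm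
  have hlog : 0 ≤ Real.log ((m : ℝ) + 2) := Real.log_nonneg (by linarith)
  have h := shearer_log E (k := 2) hr (by omega) (((m : ℝ) + 2) * (2 + Real.log (m + 2)))
    (by positivity) (fun T hT => by
      have hTc := mem_powersetCard.1 hT
      have hc : (E \ T).card = m + 2 := by rw [card_sdiff_of_subset hTc.1, hTc.2, hE]; omega
      have h2 := rank_two (E \ T) (by omega)
      rw [hc] at h2
      push_cast at h2
      have h3 : (1 : ℝ) ≤ Real.exp (((m : ℝ) + 2) * (1 + Real.log (m + 2))) :=
        Real.one_le_exp (by positivity)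
      calc ((BFon (E \ T) 2).card : ℝ) + 1
          ≤ Real.exp (((m : ℝ) + 2) * (1 + Real.log (m + 2))) * 2 := by linarith
        _ ≤ Real.exp (((m : ℝ) + 2) * (1 + Real.log (m + 2))) * Real.exp ((m : ℝ) + 2) := by
            apply mul_le_mul_of_nonneg_left _ (Real.exp_pos _).le
            have := Real.add_one_le_exp ((m : ℝ) + 2)
            linarith
        _ = _ := by rw [← Real.exp_add]; congr 1; ring)
  refine h.trans (le_of_eq ?_)
  have e : E.card - (r - 2) = m + 2 := by omega
  rw [e]
  have h6 : (((m + 2).choose 2 : ℕ) : ℝ) = ((m : ℝ) + 2) * (m + 1) / 2 := by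
    rw [Nat.cast_choose_two]
    push_cast
    ring
  rw [h6]
  have h7 : (m : ℝ) + 2 ≠ 0 := by positivity
  have h8 : (m : ℝ) + 1 ≠ 0 := by positivity
  field_simp

end Pool.Agent.MatCount
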