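import Mathlib
import Pool.Agent.Lib.MP_e1cc60_co.Binom

set_option autoImplicit false
set_option linter.unusedSectionVars false

/-!
The upper bound for the number of matroids of moderately large rank.
-/

namespace Pool.Agent.MatCount

open Finset

variable {α : Type*} [DecidableEq α]

lemma choose_pred_eq {m k : ℕ} (hk : 1 ≤ k) {a : ℝ}
    (ha : a = ((m + k).choose k : ℝ) / (m + 1)) : (((m + k).choose (k - 1) : ℕ) : ℝ) = k * a := by
  obtain ⟨j, rfl⟩ : ∃ j, k = j + 1 := ⟨k - 1, by omega⟩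
  have h := Nat.choose_succ_right_eq (m + (j + 1)) j
  have e : m + (j + 1) - j = m + 1 := by omega
  rw [e] at h
  have h' : (((m + (j + 1)).choose (j + 1) : ℕ) : ℝ) * (j + 1) =
      (((m + (j + 1)).choose j : ℕ) : ℝ) * (m + 1) := by exact_mod_cast h
  have hm : (m : ℝ) + 1 ≠ 0 := by positivity
  rw [Nat.add_sub_cancel, ha]
  push_cast
  field_simp
  linarith

lemma choose_succ_eq {m k : ℕ} {a : ℝ} (ha : a = ((m + k).choose k : ℝ) / (m + 1)) :
    (((m + k).choose (k + 1) : ℕ) : ℝ) = a * (m + 1) * m / (k + 1) := by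
  have h := Nat.choose_succ_right_eq (m + k) k
  have e : m + k - k = m := by omega
  rw [e] at h
  have h' : (((m + k).choose (k + 1) : ℕ) : ℝ) * (k + 1) =
      (((m + k).choose k : ℕ) : ℝ) * m := by exact_mod_cast h
  have hm : (m : ℝ) + 1 ≠ 0 := by positivity
  have hk : (k : ℝ) + 1 ≠ 0 := by positivity
  rw [ha]
  field_simp
  linarith

lemma stab_log (E : Finset α) {m k : ℕ} (hE : E.card = m + k) (hk : 1 ≤ k) (hm : 1 ≤ m)
    {ε ℓ a : ℝ} (hε : 0 < ε) (hε1 : ε ≤ 1) (ha : a = ((m + k).choose k : ℝ) / (m + 1))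
    (hka : (k : ℝ) ≤ a) (hℓ1 : 1 ≤ ℓ) (hℓ : Real.log ((m : ℝ) + k + 3) ≤ ℓ)
    (hbig : 2 * ℓ ≤ ε * k) :
    Real.log (Stab E k).card ≤ ((1 + ε) * a + 1) * Real.log 2 +
      (ℓ * (1 + ε) * a / (ε * k) + 1) * (1 + 2 * ℓ) := by
  have hk0 : (1 : ℝ) ≤ k := by exact_mod_cast hk
  have hm0 : (1 : ℝ) ≤ m := by exact_mod_cast hm
  have ha0 : 0 < a := by linarith
  have hkey := choose_pred_eq (m := m) hk ha
  have hC : (((m + k).choose k : ℕ) : ℝ) = a * (m + 1) := by
    rw [ha]; field_simp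
  set β : ℝ := ε * k / ((1 + ε) * a) with hβ
  have hβ0 : 0 < β := by positivity
  have hβ1 : β ≤ 1 := by
    rw [hβ, div_le_one (by positivity)]
    nlinarith
  set R : ℕ := ⌈(1 + ε) * a⌉₊ with hR
  set q : ℕ := ⌈ℓ / β⌉₊ with hq
  have hR1 : (1 + ε) * a ≤ R := Nat.le_ceil _
  have hR2 : (R : ℝ) ≤ (1 + ε) * a + 1 := (Nat.ceil_lt_add_one (by positivity)).le
  have hq1 : ℓ / β ≤ q := Nat.le_ceil _
  have hq2 : (q : ℝ) ≤ ℓ / β + 1 := (Nat.ceil_lt_add_one (by positivity)).le
  have hlogm : (m : ℝ) + 1 ≤ Real.exp ℓ := by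
    have h1 : Real.exp (Real.log ((m : ℝ) + k + 3)) ≤ Real.exp ℓ := Real.exp_le_exp.2 hℓ
    rw [Real.exp_log (by positivity)] at h1
    linarith
  have hlogk : (k : ℝ) ≤ Real.exp ℓ := by
    have h1 : Real.exp (Real.log ((m : ℝ) + k + 3)) ≤ Real.exp ℓ := Real.exp_le_exp.2 hℓ
    rw [Real.exp_log (by positivity)] at h1
    linarith
  have hpow : (1 - β) ^ q ≤ Real.exp (-ℓ) := by
    have h1 : 1 - β ≤ Real.exp (-β) := by
      have := Real.add_one_le_exp (-β)
      linarith
    calc (1 - β) ^ q ≤ (Real.exp (-β)) ^ q := pow_le_pow_left₀ (by linarith) h1 q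
      _ = Real.exp (q * (-β)) := by rw [Real.exp_nat_mul]
      _ ≤ Real.exp (-ℓ) := by
          rw [Real.exp_le_exp]
          rw [div_le_iff₀ hβ0] at hq1
          linarith
  have hstab := card_Stab_le E hk a ε hε ha0 (by rw [hE]; exact hkey)
    (by nlinarith) R q hR1 (by
      rw [hE, hC]
      have h2 : 0 < Real.exp (-ℓ) := Real.exp_pos _
      have h3 : ((m : ℝ) + 1) * Real.exp (-ℓ) ≤ 1 := by
        calc ((m : ℝ) + 1) * Real.exp (-ℓ) ≤ Real.exp ℓ * Real.exp (-ℓ) :=
              mul_le_mul_of_nonneg_right hlogm h2.le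
          _ = 1 := by rw [← Real.exp_add]; simp
      calc a * (m + 1) * (1 - β) ^ q ≤ a * (m + 1) * Real.exp (-ℓ) :=
            mul_le_mul_of_nonneg_left hpow (by positivity)
        _ = a * ((m + 1) * Real.exp (-ℓ)) := by ring
        _ ≤ a * 1 := mul_le_mul_of_nonneg_left h3 ha0.le
        _ ≤ R := by nlinarith)
  have hβinv : ℓ / β = ℓ * (1 + ε) * a / (ε * k) := by
    rw [hβ]; field_simp
  set X : ℝ := ℓ * (1 + ε) * a / (ε * k) + 1 with hX
  have hX0 : 0 < X := by positivity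
  have hXa : X ≤ a + 1 := by
    rw [hX]
    have : ℓ * (1 + ε) * a / (ε * k) ≤ a := by
      rw [div_le_iff₀ (by positivity)]
      have h1 : ℓ * (1 + ε) ≤ ε * k := by nlinarith
      calc ℓ * (1 + ε) * a ≤ (ε * k) * a := mul_le_mul_of_nonneg_right h1 ha0.le
        _ = a * (ε * k) := by ring
    linarith
  have hXC : X ≤ (((m + k).choose k : ℕ) : ℝ) := by
    rw [hC]
    nlinarith
  have hqX : (q : ℝ) ≤ X := by rw [hX, ← hβinv]; exact hq2
  have hsum := sum_choose_le ((m + k).choose k) q X hX0 hXC hqX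
  have hlog : Real.log ((((m + k).choose k : ℕ) : ℝ) / X) ≤ 2 * ℓ := by
    have h1 : (((m + k).choose k : ℕ) : ℝ) / X ≤ Real.exp (2 * ℓ) := by
      rw [div_le_iff₀ hX0, hC]
      have h2 : a ≤ k * X := by
        rw [hX]
        have : k * (ℓ * (1 + ε) * a / (ε * k)) = ℓ * (1 + ε) * a / ε := by field_simp
        rw [mul_add, this]
        have h3 : a ≤ ℓ * (1 + ε) * a / ε := by
          rw [le_div_iff₀ hε]
          nlinarith
        nlinarith
      calc a * ((m : ℝ) + 1) ≤ (k * X) * (m + 1) :=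
            mul_le_mul_of_nonneg_right h2 (by positivity)
        _ ≤ (Real.exp ℓ * X) * Real.exp ℓ := by
            apply mul_le_mul (mul_le_mul_of_nonneg_right hlogk hX0.le) hlogm (by positivity)
              (by positivity)
        _ = Real.exp (2 * ℓ) * X := by
            rw [show (2 : ℝ) * ℓ = ℓ + ℓ by ring, Real.exp_add]; ring
    have h4 : 0 < (((m + k).choose k : ℕ) : ℝ) / X := by
      apply div_pos _ hX0
      rw [hC]; positivity
    calc Real.log _ ≤ Real.log (Real.exp (2 * ℓ)) := Real.log_le_log h4 h1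
      _ = 2 * ℓ := Real.log_exp _
  have hfin : ((Stab E k).card : ℝ) ≤
      Real.exp (((1 + ε) * a + 1) * Real.log 2 + X * (1 + 2 * ℓ)) := by
    rw [hE] at hstab
    calc ((Stab E k).card : ℝ)
        ≤ ((2 ^ R * ∑ j ∈ range (q + 1), ((m + k).choose k).choose j : ℕ) : ℝ) := by
          exact_mod_cast hstab
      _ = (2 : ℝ) ^ R * ((∑ j ∈ range (q + 1), ((m + k).choose k).choose j : ℕ) : ℝ) := by
          push_cast; ring
      _ ≤ Real.exp (((1 + ε) * a + 1) * Real.log 2) * Real.exp (X * (1 + 2 * ℓ)) := by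
          apply mul_le_mul
          · have : (2 : ℝ) ^ R = Real.exp (R * Real.log 2) := by
              rw [mul_comm, Real.exp_mul, Real.exp_log (by norm_num), Real.rpow_natCast]
            rw [this, Real.exp_le_exp]
            exact mul_le_mul_of_nonneg_right hR2 (Real.log_nonneg (by norm_num))
          · refine hsum.trans ?_
            rw [Real.exp_le_exp]
            apply mul_le_mul_of_nonneg_left _ hX0.le
            linarith
          · positivity
          · positivity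
      _ = _ := by rw [Real.exp_add]
  have hpos : (0 : ℝ) < (Stab E k).card := by
    have : ∅ ∈ Stab E k := by
      unfold Stab
      rw [mem_filter, mem_powerset]
      exact ⟨empty_subset _, by simp⟩
    exact_mod_cast card_pos.2 ⟨_, this⟩
  calc Real.log (Stab E k).card ≤ Real.log (Real.exp _) := Real.log_le_log hpos hfin
    _ = _ := Real.log_exp _

lemma nest {k : ℕ} (hk : 4 ≤ k) : ∀ j, 1 ≤ j → (k + 1).choose 2 * j ≤ (k + j).choose (k - 1) := by
  intro j hj
  obtain ⟨t, rfl⟩ : ∃ t, k = t + 4 := ⟨k - 4, by omega⟩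
  induction j, hj using Nat.le_induction with
  | base =>
    rw [mul_one]
    apply le_of_eq
    rw [← Nat.choose_symm (show t + 4 - 1 ≤ t + 4 + 1 by omega)]
    congr 1
    omega
  | succ j hj ih =>
    have h1 : (t + 4 + (j + 1)).choose (t + 4 - 1) =
        (t + 4 + j).choose (t + 2) + (t + 4 + j).choose (t + 3) := by
      rw [show t + 4 + (j + 1) = (t + 4 + j) + 1 by ring, show t + 4 - 1 = (t + 2) + 1 by omega,
        Nat.choose_succ_succ]
    have h2 : (t + 4 + 1).choose 2 ≤ (t + 4 + j).choose (t + 2) := by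
      have h3 : (t + 4 + 1).choose 3 ≤ (t + 4 + j).choose (t + 2) := by
        calc (t + 4 + 1).choose 3 = (t + 4 + 1).choose (t + 2) := by
              rw [← Nat.choose_symm (show 3 ≤ t + 4 + 1 by omega)]
              congr 1
          _ ≤ _ := Nat.choose_le_choose _ (by omega)
      refine le_trans ?_ h3
      have h4 : (t + 4 + 1).choose 3 * 3 = (t + 4 + 1).choose 2 * (t + 4 + 1 - 2) :=
        Nat.choose_succ_right_eq (t + 4 + 1) 2
      have h5 : t + 4 + 1 - 2 = t + 3 := by omega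
      rw [h5] at h4
      have h6 : (t + 4 + 1).choose 2 * 3 ≤ (t + 4 + 1).choose 2 * (t + 3) :=
        Nat.mul_le_mul_left _ (by omega)
      omega
    rw [h1, Nat.mul_succ]
    have e : t + 4 - 1 = t + 3 := by omega
    rw [e] at ih
    omega

lemma numeric {ε ℓ a k m L : ℝ} (hε : 0 < ε) (hε1 : ε ≤ 1) (hk0 : 4 ≤ k) (hm0 : 1 ≤ m)
    (hka : k ≤ a) (hℓ1 : 1 ≤ ℓ) (hL0 : 0 < L) (hL1 : L ≤ 1) (hkm : k ^ 2 ≤ 2 * m)
    (hbig : 29 * ℓ ^ 2 ≤ ε ^ 2 * k * L) (hek : 29 * ℓ ^ 2 ≤ ε * k) :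
    L + (k * a * (2 * (2 + ℓ) / (m + 2)) +
      ((((1 + ε) * a + 1) * L + (ℓ * (1 + ε) * a / (ε * k) + 1) * (1 + 2 * ℓ)) +
        (2 * a / (k + 1)) * (1 + 2 * ℓ))) ≤ (1 + 2 * ε) * L * a := by
  have ha0 : 0 < a := by linarith
  have hk' : 0 < k := by linarith
  have hℓ0 : 0 < ℓ := by linarith
  set u : ℝ := ℓ ^ 2 * a / (ε * k) with hu
  have hu0 : 0 < u := by positivity
  have hℓ2 : ℓ ≤ ℓ ^ 2 := by nlinarith
  have h3ℓ : 1 + 2 * ℓ ≤ 3 * ℓ := by linarith
  have hak : 1 ≤ a / (ε * k) := by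
    rw [le_div_iff₀ (by positivity), one_mul]
    calc ε * k ≤ 1 * k := mul_le_mul_of_nonneg_right hε1 hk'.le
      _ ≤ a := by linarith
  have hue : u = ℓ ^ 2 * (a / (ε * k)) := by rw [hu]; ring
  have t1 : ℓ * (1 + ε) * a / (ε * k) * (1 + 2 * ℓ) ≤ 6 * u := by
    rw [hu, div_mul_eq_mul_div, mul_div_assoc']
    apply div_le_div_of_nonneg_right _ (by positivity)
    calc ℓ * (1 + ε) * a * (1 + 2 * ℓ) ≤ ℓ * 2 * a * (3 * ℓ) := by
          apply mul_le_mul _ h3ℓ (by positivity) (by positivity)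
          apply mul_le_mul_of_nonneg_right _ ha0.le
          exact mul_le_mul_of_nonneg_left (by linarith) hℓ0.le
      _ = 6 * (ℓ ^ 2 * a) := by ring
  have hℓu : ℓ ≤ u := by
    rw [hue]
    calc ℓ ≤ ℓ ^ 2 := hℓ2
      _ = ℓ ^ 2 * 1 := by ring
      _ ≤ ℓ ^ 2 * (a / (ε * k)) := mul_le_mul_of_nonneg_left hak (by positivity)
  have t2 : 1 * (1 + 2 * ℓ) ≤ 3 * u := by linarith
  have t3 : (2 * a / (k + 1)) * (1 + 2 * ℓ) ≤ 6 * u := by
    rw [hu, div_mul_eq_mul_div, mul_div_assoc', div_le_div_iff₀ (by positivity) (by positivity)]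
    have h9 : 2 * (1 + 2 * ℓ) ≤ 6 * ℓ ^ 2 := by linarith
    have h10 : ε * k ≤ k + 1 := by
      calc ε * k ≤ 1 * k := mul_le_mul_of_nonneg_right hε1 hk'.le
        _ ≤ k + 1 := by linarith
    calc 2 * a * (1 + 2 * ℓ) * (ε * k) = (a * (ε * k)) * (2 * (1 + 2 * ℓ)) := by ring
      _ ≤ (a * (k + 1)) * (6 * ℓ ^ 2) := by
          apply mul_le_mul (mul_le_mul_of_nonneg_left h10 ha0.le) h9 (by positivity)
            (by positivity)
      _ = 6 * (ℓ ^ 2 * a) * (k + 1) := by ring
  have t4 : k * a * (2 * (2 + ℓ) / (m + 2)) ≤ 12 * u := by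
    rw [hu, mul_div_assoc', mul_div_assoc', div_le_div_iff₀ (by positivity) (by positivity)]
    have h9 : 2 * (2 + ℓ) ≤ 6 * ℓ ^ 2 := by linarith
    have h10 : k * (ε * k) ≤ 2 * (m + 2) := by
      calc k * (ε * k) = ε * k ^ 2 := by ring
        _ ≤ 1 * k ^ 2 := mul_le_mul_of_nonneg_right hε1 (by positivity)
        _ ≤ 2 * (m + 2) := by linarith
    calc k * a * (2 * (2 + ℓ)) * (ε * k) = (k * (ε * k)) * (a * (2 * (2 + ℓ))) := by ring
      _ ≤ (2 * (m + 2)) * (a * (6 * ℓ ^ 2)) := by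
          apply mul_le_mul h10 (mul_le_mul_of_nonneg_left h9 ha0.le) (by positivity)
            (by positivity)
      _ = 12 * (ℓ ^ 2 * a) * (m + 2) := by ring
  have t5 : 2 * L ≤ 2 * u := by linarith
  have t6 : 29 * u ≤ ε * L * a := by
    rw [hu, mul_div_assoc', div_le_iff₀ (by positivity)]
    calc 29 * (ℓ ^ 2 * a) = (29 * ℓ ^ 2) * a := by ring
      _ ≤ (ε ^ 2 * k * L) * a := mul_le_mul_of_nonneg_right hbig ha0.le
      _ = _ := by ring
  have e : (ℓ * (1 + ε) * a / (ε * k) + 1) * (1 + 2 * ℓ) =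
      ℓ * (1 + ε) * a / (ε * k) * (1 + 2 * ℓ) + 1 * (1 + 2 * ℓ) := by ring
  rw [e]
  linarith

/-- The core bound. -/
theorem core_bound (E : Finset α) {m k : ℕ} (hE : E.card = m + k) (hk : 4 ≤ k) (hm : 1 ≤ m)
    {ε ℓ a : ℝ} (hε : 0 < ε) (hε1 : ε ≤ 1) (ha : a = ((m + k).choose k : ℝ) / (m + 1))
    (hka : (k : ℝ) ≤ a) (hℓ1 : 1 ≤ ℓ) (hℓ : Real.log ((m : ℝ) + k + 3) ≤ ℓ)
    (hkm : (k : ℝ) ^ 2 ≤ 2 * m) (hbig : 29 * ℓ ^ 2 ≤ ε ^ 2 * k * Real.log 2) :
    ((BFon E k).card : ℝ) + 1 ≤ Real.exp ((1 + 2 * ε) * Real.log 2 * a) := by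
  have hk0 : (4 : ℝ) ≤ k := by exact_mod_cast hk
  have hm0 : (1 : ℝ) ≤ m := by exact_mod_cast hm
  have ha0 : 0 < a := by linarith
  have hL0 : 0 < Real.log 2 := Real.log_pos (by norm_num)
  have hL1 : Real.log 2 ≤ 1 := by
    have := Real.log_two_lt_d9
    linarith
  have hek : 29 * ℓ ^ 2 ≤ ε * k := by
    calc 29 * ℓ ^ 2 ≤ ε ^ 2 * k * Real.log 2 := hbig
      _ ≤ ε ^ 2 * k * 1 := mul_le_mul_of_nonneg_left hL1 (by positivity)
      _ ≤ ε * k := by nlinarith [mul_nonneg hε.le (by linarith : (0:ℝ) ≤ k)]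
  have hlog3 : Real.log ((m : ℝ) + 3) ≤ ℓ :=
    (Real.log_le_log (by positivity) (by linarith)).trans hℓ
  -- the stable sets
  have h1 := stab_log E hE (by omega) hm hε hε1 ha hka hℓ1 hℓ (by nlinarith)
  -- the windows
  have hfew : Real.log (few (E.powersetCard (k + 1))
      ((m + k).choose (k - 1) / (k + 1).choose 2)).card ≤ (2 * a / (k + 1)) * (1 + 2 * ℓ) := by
    rw [card_few, card_powersetCard, hE]
    have hX0 : 0 < 2 * a / (k + 1) := by positivity
    have hC2 := choose_succ_eq (m := m) (k := k) ha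
    have hXC : 2 * a / (k + 1) ≤ (((m + k).choose (k + 1) : ℕ) : ℝ) := by
      rw [hC2]
      apply div_le_div_of_nonneg_right _ (by positivity)
      have h2m : 2 ≤ ((m : ℝ) + 1) * m := by nlinarith
      calc 2 * a = a * 2 := by ring
        _ ≤ a * ((m + 1) * m) := mul_le_mul_of_nonneg_left h2m ha0.le
        _ = a * (m + 1) * m := by ring
    have hNX : (((m + k).choose (k - 1) / (k + 1).choose 2 : ℕ) : ℝ) ≤ 2 * a / (k + 1) := by
      have h3 : (((k + 1).choose 2 : ℕ) : ℝ) = ((k : ℝ) + 1) * k / 2 := by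
        rw [Nat.cast_choose_two]
        push_cast
        ring
      calc (((m + k).choose (k - 1) / (k + 1).choose 2 : ℕ) : ℝ)
          ≤ (((m + k).choose (k - 1) : ℕ) : ℝ) / (((k + 1).choose 2 : ℕ) : ℝ) := Nat.cast_div_le
        _ = 2 * a / (k + 1) := by
          rw [choose_pred_eq (by omega) ha, h3]
          have : (k : ℝ) ≠ 0 := by positivity
          field_simp
    have h4 := sum_choose_le ((m + k).choose (k + 1)) _ (2 * a / (k + 1)) hX0 hXC hNX
    have h5 : (0 : ℝ) < ((∑ j ∈ range ((m + k).choose (k - 1) / (k + 1).choose 2 + 1),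
        ((m + k).choose (k + 1)).choose j : ℕ) : ℝ) := by
      have : 0 < ∑ j ∈ range ((m + k).choose (k - 1) / (k + 1).choose 2 + 1),
          ((m + k).choose (k + 1)).choose j := by
        rw [sum_range_succ']
        simp
      exact_mod_cast this
    calc Real.log _ ≤ Real.log (Real.exp _) := Real.log_le_log h5 h4
      _ = 2 * a / (k + 1) * (1 + Real.log ((((m + k).choose (k + 1) : ℕ) : ℝ) /
            (2 * a / (k + 1)))) := Real.log_exp _
      _ ≤ _ := by
          apply mul_le_mul_of_nonneg_left _ hX0.le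
          have h6 : (((m + k).choose (k + 1) : ℕ) : ℝ) / (2 * a / (k + 1)) = (m + 1) * m / 2 := by
            rw [hC2]
            have : (k : ℝ) + 1 ≠ 0 := by positivity
            field_simp
          rw [h6]
          have h7 : Real.log (((m : ℝ) + 1) * m / 2) ≤ 2 * ℓ := by
            calc Real.log (((m : ℝ) + 1) * m / 2) ≤ Real.log (((m : ℝ) + 3) ^ 2) := by
                  apply Real.log_le_log (by positivity)
                  nlinarith
              _ = 2 * Real.log ((m : ℝ) + 3) := by rw [Real.log_pow]; norm_num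
              _ ≤ 2 * ℓ := by linarith
          linarith
  -- the truncation
  have h2 : Real.log (BFon E (k - 1)).card ≤ k * a * (2 * (2 + ℓ) / (m + 2)) := by
    have h3 := crude E (r := k - 1) (m := m + 1) (by omega) (by omega) (by omega)
    rw [hE, choose_pred_eq (by omega) ha] at h3
    refine h3.trans ?_
    apply mul_le_mul_of_nonneg_left _ (by positivity)
    push_cast
    have h4 : (m : ℝ) + 1 + 2 = m + 3 := by ring
    have h5 : (m : ℝ) + 1 + 1 = m + 2 := by ring
    rw [h4, h5]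
    apply div_le_div_of_nonneg_right _ (by positivity)
    linarith
  -- put together
  have hcomb : (BFon E k).card ≤ (BFon E (k - 1)).card * ((Stab E k).card *
      (few (E.powersetCard (k + 1)) ((m + k).choose (k - 1) / (k + 1).choose 2)).card) := by
    refine (card_BFon_le E (by omega)).trans (Nat.mul_le_mul_left _ ?_)
    apply card_Pack_le E (by omega) (nest hk)
    intro x hx
    rw [hE] at hx
    rw [Nat.le_div_iff_mul_le (Nat.choose_pos (by omega)), mul_comm]
    exact hx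
  by_cases h0 : (BFon E k).card = 0
  · rw [h0]
    have : (0 : ℝ) ≤ (1 + 2 * ε) * Real.log 2 * a := by positivity
    have := Real.one_le_exp this
    push_cast
    linarith
  have hb : 0 < (BFon E k).card := Nat.pos_of_ne_zero h0
  have hprod : 0 < (BFon E (k - 1)).card * ((Stab E k).card *
      (few (E.powersetCard (k + 1)) ((m + k).choose (k - 1) / (k + 1).choose 2)).card) :=
    lt_of_lt_of_le hb hcomb
  have hp1 : (0 : ℝ) < (BFon E (k - 1)).card := by
    exact_mod_cast Nat.pos_of_mul_pos_right hprod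
  have hp23 := Nat.pos_of_mul_pos_left hprod
  have hp2 : (0 : ℝ) < (Stab E k).card := by exact_mod_cast Nat.pos_of_mul_pos_right hp23
  have hp3 : (0 : ℝ) < (few (E.powersetCard (k + 1))
      ((m + k).choose (k - 1) / (k + 1).choose 2)).card := by
    exact_mod_cast Nat.pos_of_mul_pos_left hp23
  have hlogsum : Real.log (BFon E k).card ≤ k * a * (2 * (2 + ℓ) / (m + 2)) +
      ((((1 + ε) * a + 1) * Real.log 2 + (ℓ * (1 + ε) * a / (ε * k) + 1) * (1 + 2 * ℓ)) +
        (2 * a / (k + 1)) * (1 + 2 * ℓ)) := by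
    calc Real.log (BFon E k).card ≤ Real.log (((BFon E (k - 1)).card : ℝ) *
          (((Stab E k).card : ℝ) * ((few (E.powersetCard (k + 1))
            ((m + k).choose (k - 1) / (k + 1).choose 2)).card : ℝ))) := by
          apply Real.log_le_log (by exact_mod_cast hb)
          exact_mod_cast hcomb
      _ = Real.log (BFon E (k - 1)).card + (Real.log (Stab E k).card +
          Real.log (few (E.powersetCard (k + 1))
            ((m + k).choose (k - 1) / (k + 1).choose 2)).card) := by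
          rw [Real.log_mul hp1.ne' (by positivity), Real.log_mul hp2.ne' hp3.ne']
      _ ≤ _ := add_le_add h2 (add_le_add h1 hfew)
  -- numerical estimates
  have hfin : Real.log 2 + Real.log (BFon E k).card ≤ (1 + 2 * ε) * Real.log 2 * a := by
    have := numeric hε hε1 hk0 hm0 hka hℓ1 hL0 hL1 hkm hbig hek
    linarith
  have hb' : (1 : ℝ) ≤ (BFon E k).card := by exact_mod_cast hb
  calc ((BFon E k).card : ℝ) + 1 ≤ 2 * (BFon E k).card := by linarith
    _ = Real.exp (Real.log 2 + Real.log (BFon E k).card) := by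
        rw [Real.exp_add, Real.exp_log (by norm_num), Real.exp_log (by linarith)]
    _ ≤ _ := Real.exp_le_exp.2 hfin

end Pool.Agent.MatCount
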