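import Mathlib
import Pool.Agent.Lib.MP_e1cc60_co.Upper

set_option autoImplicit false
set_option linter.unusedSectionVars false

/-!
Comparison of the number of labelled matroids of rank `r` and of rank `r + 1`.
-/

namespace Pool.Agent.MatCount

open Finset Filter

lemma log_sq_ev {c : ℝ} (hc : 0 < c) :
    ∀ᶠ n : ℕ in atTop, (Real.log ((n : ℝ) + 3)) ^ 2 ≤ c * (Nat.sqrt n : ℝ) := by
  have h1 : Tendsto (fun n : ℕ => Real.sqrt ((n : ℝ) + 3)) atTop atTop :=
    Real.tendsto_sqrt_atTop.comp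
      (tendsto_atTop_add_const_right _ _ tendsto_natCast_atTop_atTop)
  have h2 := (Real.isLittleO_pow_log_id_atTop (n := 2)).bound (show (0 : ℝ) < c / 16 by positivity)
  have h3 := h1.eventually h2
  filter_upwards [h3, eventually_ge_atTop 1] with n hn hn1
  set y := Real.sqrt ((n : ℝ) + 3) with hy
  have hn0 : (0 : ℝ) ≤ n := by positivity
  have hy0 : 0 < y := Real.sqrt_pos.2 (by linarith)
  have hysq : y ^ 2 = (n : ℝ) + 3 := Real.sq_sqrt (by linarith)
  have hlog : Real.log ((n : ℝ) + 3) = 2 * Real.log y := by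
    rw [← hysq, Real.log_pow]; norm_num
  simp only [id] at hn
  rw [Real.norm_of_nonneg (by positivity), Real.norm_of_nonneg hy0.le] at hn
  have hs : y ≤ 4 * (Nat.sqrt n : ℝ) := by
    rw [hy]
    apply Real.sqrt_le_iff.2
    refine ⟨by positivity, ?_⟩
    have h4 := Nat.lt_succ_sqrt n
    have h5 : 1 ≤ Nat.sqrt n := by
      rw [Nat.one_le_iff_ne_zero, Ne, Nat.sqrt_eq_zero]
      omega
    have h6 : n + 3 ≤ (4 * Nat.sqrt n) ^ 2 := by
      simp only [Nat.succ_eq_add_one] at h4
      nlinarith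
    exact_mod_cast h6
  rw [hlog]
  nlinarith

lemma choose_mono_half {n i j : ℕ} (hij : i ≤ j) (hj : 2 * j ≤ n) : n.choose i ≤ n.choose j := by
  induction j, hij using Nat.le_induction with
  | base => exact le_rfl
  | succ j hij ih =>
    exact (ih (by omega)).trans (Nat.choose_le_succ_of_lt_half_left (by omega))

/-- lower bound for `a` -/
lemma a_large {m k : ℕ} (hk : 4 ≤ k) (hkm : k ^ 2 ≤ 2 * m) :
    (k : ℝ) ≤ ((m + k).choose k : ℝ) / (m + 1) := by
  have hm : 8 ≤ m := by nlinarith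
  have h1 : (m + 3).choose 3 ≤ (m + k).choose k := by
    rw [← Nat.choose_symm (show 3 ≤ m + 3 by omega), ← Nat.choose_symm (show k ≤ m + k by omega)]
    simp only [Nat.add_sub_cancel]
    exact Nat.choose_le_choose _ (by omega)
  have h2 : (m + 3).choose 3 * 6 = (m + 3) * (m + 2) * (m + 1) := by
    have a3 : (m + 3).choose 3 * 3 = (m + 3).choose 2 * (m + 1) :=
      Nat.choose_succ_right_eq (m + 3) 2
    have a2 : (m + 3).choose 2 * 2 = (m + 3) * (m + 2) := by
      have := Nat.choose_succ_right_eq (m + 3) 1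
      simpa using this
    calc (m + 3).choose 3 * 6 = ((m + 3).choose 3 * 3) * 2 := by ring
      _ = ((m + 3).choose 2 * 2) * (m + 1) := by rw [a3]; ring
      _ = _ := by rw [a2]
  rw [le_div_iff₀ (by positivity)]
  have h3 : k * (m + 1) ≤ (m + k).choose k := by
    refine le_trans ?_ h1
    have h4 : k * 6 ≤ (m + 3) * (m + 2) := by nlinarith
    have h5 : k * (m + 1) * 6 ≤ (m + 3).choose 3 * 6 := by
      rw [h2]
      calc k * (m + 1) * 6 = (k * 6) * (m + 1) := by ring
        _ ≤ _ := Nat.mul_le_mul_right _ h4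
    omega
  exact_mod_cast h3

/-- The upper bound for ranks at least `√n`. -/
theorem upper_large {ε : ℝ} (hε : 0 < ε) (hε1 : ε ≤ 1) {n r : ℕ} (hs4 : 4 ≤ Nat.sqrt n)
    (hr : Nat.sqrt n ≤ r) (h2r : 2 * r ≤ n)
    (hbig : 29 * (Real.log ((n : ℝ) + 3)) ^ 2 ≤ ε ^ 2 * (Nat.sqrt n : ℝ) * Real.log 2) :
    Real.log (BFon (univ : Finset (Fin n)) r).card ≤
      (n.choose r : ℝ) * ((1 + 2 * ε) * Real.log 2 / ((n - r : ℕ) + 1)) := by
  set k := Nat.sqrt n with hk
  set m := n - r with hm
  have hk2 : k ^ 2 ≤ n := Nat.sqrt_le' n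
  have hkm : k ^ 2 ≤ 2 * m := by omega
  have hm8 : 8 ≤ m := by nlinarith
  set a : ℝ := ((m + k).choose k : ℝ) / (m + 1) with ha
  have hka : (k : ℝ) ≤ a := a_large hs4 hkm
  have hL0 : 0 < Real.log 2 := Real.log_pos (by norm_num)
  have hcard : (univ : Finset (Fin n)).card = n := by rw [card_univ, Fintype.card_fin]
  have h := shearer_log (univ : Finset (Fin n)) (k := k) hr (by rw [hcard]; omega)
    ((1 + 2 * ε) * Real.log 2 * a) (by positivity) (fun T hT => by
      have hTc := mem_powersetCard.1 hT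
      have hc : (univ \ T).card = m + k := by
        rw [card_sdiff_of_subset hTc.1, hTc.2, hcard]; omega
      refine core_bound (univ \ T) hc hs4 (by omega) hε hε1 ha hka ?_ (ℓ := Real.log ((n : ℝ) + 3))
        ?_ ?_ hbig
      · rw [Real.le_log_iff_exp_le (by positivity)]
        have := Real.exp_one_lt_d9
        have hn0 : (0 : ℝ) ≤ n := by positivity
        linarith
      · apply Real.log_le_log (by positivity)
        have : m + k ≤ n := by omega
        have : ((m + k : ℕ) : ℝ) ≤ n := by exact_mod_cast this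
        push_cast at this
        linarith
      · exact_mod_cast hkm)
  rw [hcard] at h
  refine h.trans (le_of_eq ?_)
  have e : n - (r - k) = m + k := by omega
  rw [e, ha]
  have h1 : (((m + k).choose k : ℕ) : ℝ) ≠ 0 := by
    have : 0 < (m + k).choose k := Nat.choose_pos (by omega)
    positivity
  have h2 : (m : ℝ) + 1 ≠ 0 := by positivity
  field_simp

/-- The range of ranks: `(3 - √5)/2 - δ` times `n`. -/
lemma quad_gap {δ ε x N : ℝ} (hδ : 0 < δ) (hεδ : ε ≤ δ / 4) (hε0 : 0 ≤ ε) (hN : 2 ≤ δ * N)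
    (hN0 : 0 < N) (hx0 : 0 ≤ x) (hxN : x + 1 ≤ N) (hx : x ≤ ((3 - Real.sqrt 5) / 2 - δ) * N) :
    δ * N ^ 2 ≤ (N - x) * (N - x + 1) - (1 + 2 * ε) * (x + 1) * N := by
  have h5 : Real.sqrt 5 ^ 2 = 5 := Real.sq_sqrt (by norm_num)
  have h5' : 2 ≤ Real.sqrt 5 := by
    apply Real.le_sqrt_of_sq_le
    norm_num
  have e : (N - x) ^ 2 - x * N =
      ((3 - Real.sqrt 5) / 2 * N - x) * ((3 + Real.sqrt 5) / 2 * N - x) := by
    have : ((3 - Real.sqrt 5) / 2 * N - x) * ((3 + Real.sqrt 5) / 2 * N - x) =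
        (9 - Real.sqrt 5 ^ 2) / 4 * N ^ 2 - 3 * N * x + x ^ 2 := by ring
    rw [this, h5]
    ring
  have h1 : δ * N ≤ (3 - Real.sqrt 5) / 2 * N - x := by linarith
  have h2 : 2 * N ≤ (3 + Real.sqrt 5) / 2 * N - x := by nlinarith
  have h3 : (δ * N) * (2 * N) ≤ (N - x) ^ 2 - x * N := by
    rw [e]
    exact mul_le_mul h1 h2 (by positivity) (by nlinarith)
  have h4 : 2 * ε * ((x + 1) * N) ≤ (δ / 2) * (N * N) := by
    apply mul_le_mul (by linarith) _ (by positivity) (by positivity)
    exact mul_le_mul_of_nonneg_right hxN hN0.le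
  have h6 : N ≤ (δ / 2) * (N * N) := by nlinarith
  nlinarith

theorem compare_large {δ ε : ℝ} (hδ : 0 < δ) (hε : 0 < ε) (hε1 : ε ≤ 1) (hεδ : ε ≤ δ / 4)
    {n r : ℕ} (hs4 : 4 ≤ Nat.sqrt n) (hr : Nat.sqrt n ≤ r) (h2r : 2 * r + 2 ≤ n)
    (hrδ : (r : ℝ) ≤ ((3 - Real.sqrt 5) / 2 - δ) * n)
    (hbig : 29 * (Real.log ((n : ℝ) + 3)) ^ 2 ≤ ε ^ 2 * (Nat.sqrt n : ℝ) * Real.log 2)
    (hδn : 2 ≤ δ * n) (hδ2 : 12 * Real.log n ≤ Real.log 2 * δ * n) :
    Real.log (BFon (univ : Finset (Fin n)) r).card + n * Real.log n ≤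
      Real.log 2 * ((n.choose (r + 1) : ℝ) / n) := by
  have h1 := upper_large hε hε1 hs4 hr (by omega) hbig
  have hn16 : 16 ≤ n := by
    have := Nat.sqrt_le' n
    nlinarith
  have hn0 : (0 : ℝ) < n := by
    have : 0 < n := by omega
    exact_mod_cast this
  have hL0 : 0 < Real.log 2 := Real.log_pos (by norm_num)
  have hcast : ((n - r : ℕ) : ℝ) = n - r := by
    rw [Nat.cast_sub (by omega)]
  rw [hcast] at h1
  set G : ℝ := (n.choose r : ℝ) with hG
  have hG1 : (n : ℝ) ^ 3 ≤ 12 * G := by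
    have h2 : n.choose 3 ≤ n.choose r := choose_mono_half (by omega) (by omega)
    have a3 : n.choose 3 * 3 = n.choose 2 * (n - 2) := Nat.choose_succ_right_eq n 2
    have a2 : n.choose 2 * 2 = n * (n - 1) := by
      have := Nat.choose_succ_right_eq n 1
      simpa using this
    have a4 : n.choose 3 * 6 = n * (n - 1) * (n - 2) := by
      calc n.choose 3 * 6 = (n.choose 3 * 3) * 2 := by ring
        _ = (n.choose 2 * 2) * (n - 2) := by rw [a3]; ring
        _ = _ := by rw [a2]
    have a5 : n ^ 3 ≤ 2 * (n * (n - 1) * (n - 2)) := by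
      obtain ⟨t, rfl⟩ : ∃ t, n = t + 2 := ⟨n - 2, by omega⟩
      have e1 : t + 2 - 1 = t + 1 := by omega
      have e2 : t + 2 - 2 = t := by omega
      rw [e1, e2]
      have ht : 14 ≤ t := by omega
      have h7 : (t + 2) ^ 2 ≤ 2 * ((t + 1) * t) := by nlinarith
      calc (t + 2) ^ 3 = (t + 2) * (t + 2) ^ 2 := by ring
        _ ≤ (t + 2) * (2 * ((t + 1) * t)) := Nat.mul_le_mul_left _ h7
        _ = _ := by ring
    have a6 : n ^ 3 ≤ 12 * n.choose r := by omega
    rw [hG]
    exact_mod_cast a6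
  have hG0 : 0 < G := by
    have : (0 : ℝ) < (n : ℝ) ^ 3 := by positivity
    linarith
  have hr0 : (0 : ℝ) ≤ r := by positivity
  have hrn : (r : ℝ) + 1 ≤ n := by
    have : r + 1 ≤ n := by omega
    exact_mod_cast this
  have hgap := quad_gap (x := r) (N := n) hδ hεδ hε.le hδn hn0 hr0 hrn hrδ
  have hsucc : (n.choose (r + 1) : ℝ) = G * (n - r) / (r + 1) := by
    have h3 := Nat.choose_succ_right_eq n r
    have h4 : (n.choose (r + 1) : ℝ) * (r + 1) = G * ((n - r : ℕ) : ℝ) := by
      rw [hG]; exact_mod_cast h3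
    rw [hcast] at h4
    rw [eq_div_iff (by positivity), h4]
  rw [hsucc]
  have hm1 : (0 : ℝ) < (n : ℝ) - r + 1 := by linarith
  have hm2 : (n : ℝ) - r + 1 ≤ n := by
    have : 1 ≤ r := by omega
    have : (1 : ℝ) ≤ r := by exact_mod_cast this
    linarith
  have hr1 : (0 : ℝ) < (r : ℝ) + 1 := by positivity
  -- the difference
  have hdiff : Real.log 2 * (G * (n - r) / (r + 1) / n) -
      G * ((1 + 2 * ε) * Real.log 2 / (n - r + 1)) =
      Real.log 2 * G * (((n : ℝ) - r) * (n - r + 1) - (1 + 2 * ε) * (r + 1) * n) /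
        ((r + 1) * n * (n - r + 1)) := by
    field_simp
  have hlow : n * Real.log n ≤
      Real.log 2 * G * (((n : ℝ) - r) * (n - r + 1) - (1 + 2 * ε) * (r + 1) * n) /
        ((r + 1) * n * (n - r + 1)) := by
    rw [le_div_iff₀ (by positivity)]
    have hlogn : 0 ≤ Real.log n := Real.log_nonneg (by linarith)
    calc n * Real.log n * ((r + 1) * n * (n - r + 1))
        = (n ^ 2 * Real.log n) * ((r + 1) * (n - r + 1)) := by ring
      _ ≤ (n ^ 2 * Real.log n) * (n * n) := by
          apply mul_le_mul_of_nonneg_left _ (by positivity)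
          exact mul_le_mul hrn hm2 hm1.le hn0.le
      _ = (n ^ 3 * (12 * Real.log n)) * n / 12 := by ring
      _ ≤ (n ^ 3 * (Real.log 2 * δ * n)) * n / 12 := by
          apply div_le_div_of_nonneg_right _ (by norm_num)
          apply mul_le_mul_of_nonneg_right _ hn0.le
          exact mul_le_mul_of_nonneg_left hδ2 (by positivity)
      _ = n ^ 3 * (Real.log 2 * (δ * n ^ 2)) / 12 := by ring
      _ ≤ (12 * G) * (Real.log 2 * (δ * n ^ 2)) / 12 := by
          apply div_le_div_of_nonneg_right _ (by norm_num)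
          exact mul_le_mul_of_nonneg_right hG1 (by positivity)
      _ = Real.log 2 * G * (δ * n ^ 2) := by ring
      _ ≤ _ := mul_le_mul_of_nonneg_left hgap (by positivity)
  linarith

theorem compare_small {n r : ℕ} (hs4 : 4 ≤ Nat.sqrt n) (hr2 : 2 ≤ r) (hr : r < Nat.sqrt n)
    (hbig : 48 * Real.log ((n : ℝ) + 3) ≤ Real.log 2 * (Nat.sqrt n : ℝ)) :
    Real.log (BFon (univ : Finset (Fin n)) r).card + n * Real.log n ≤
      Real.log 2 * ((n.choose (r + 1) : ℝ) / n) := by
  set s := Nat.sqrt n with hs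
  have hsn : s ^ 2 ≤ n := Nat.sqrt_le' n
  have hn16 : 16 ≤ n := by nlinarith
  have hrn2 : 2 * r ≤ n := by nlinarith
  have hn0 : (0 : ℝ) < n := by
    have : 0 < n := by omega
    exact_mod_cast this
  have hcard : (univ : Finset (Fin n)).card = n := by rw [card_univ, Fintype.card_fin]
  have h1 := crude (univ : Finset (Fin n)) (r := r) (m := n - r) hr2 (by rw [hcard]; omega)
    (by omega)
  rw [hcard] at h1
  have hL0 : 0 < Real.log 2 := Real.log_pos (by norm_num)
  have hcast : ((n - r : ℕ) : ℝ) = n - r := by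
    rw [Nat.cast_sub (by omega)]
  rw [hcast] at h1
  set ℓ := Real.log ((n : ℝ) + 3) with hℓ
  have hℓ1 : 1 ≤ ℓ := by
    rw [hℓ, Real.le_log_iff_exp_le (by positivity)]
    have := Real.exp_one_lt_d9
    linarith
  set G : ℝ := (n.choose r : ℝ) with hG
  have hG1 : (n : ℝ) ^ 2 ≤ 4 * G := by
    have h2 : n.choose 2 ≤ n.choose r := choose_mono_half (by omega) (by omega)
    have a2 : n.choose 2 * 2 = n * (n - 1) := by
      have := Nat.choose_succ_right_eq n 1
      simpa using this
    have a5 : n ^ 2 ≤ 2 * (n * (n - 1)) := by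
      obtain ⟨t, rfl⟩ : ∃ t, n = t + 2 := ⟨n - 2, by omega⟩
      have e1 : t + 2 - 1 = t + 1 := by omega
      rw [e1]
      nlinarith
    have a6 : n ^ 2 ≤ 4 * n.choose r := by omega
    rw [hG]
    exact_mod_cast a6
  have hG0 : 0 < G := by
    have : (0 : ℝ) < (n : ℝ) ^ 2 := by positivity
    linarith
  have hr0 : (0 : ℝ) ≤ r := by positivity
  have hrn' : 2 * (r : ℝ) ≤ n := by exact_mod_cast hrn2
  have hrs : (r : ℝ) + 1 ≤ s := by exact_mod_cast hr
  have hs0 : (4 : ℝ) ≤ s := by exact_mod_cast hs4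
  have hsn' : (s : ℝ) ^ 2 ≤ n := by exact_mod_cast hsn
  have hsucc : (n.choose (r + 1) : ℝ) = G * (n - r) / (r + 1) := by
    have h3 := Nat.choose_succ_right_eq n r
    have h4 : (n.choose (r + 1) : ℝ) * (r + 1) = G * ((n - r : ℕ) : ℝ) := by
      rw [hG]; exact_mod_cast h3
    rw [hcast] at h4
    rw [eq_div_iff (by positivity), h4]
  rw [hsucc]
  -- the right hand side is at least `L G / (2 s)`
  have hrhs : Real.log 2 * G / (2 * s) ≤ Real.log 2 * (G * (n - r) / (r + 1) / n) := by
    rw [mul_div_assoc]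
    apply mul_le_mul_of_nonneg_left _ hL0.le
    rw [div_div, div_le_div_iff₀ (by positivity) (by positivity)]
    have h5 : ((r : ℝ) + 1) * n ≤ (n - r) * (2 * s) := by
      have h6 : (n : ℝ) ≤ 2 * (n - r) := by linarith
      calc ((r : ℝ) + 1) * n ≤ s * (2 * (n - r)) :=
            mul_le_mul hrs h6 hn0.le (by linarith)
        _ = _ := by ring
    calc G * (((r : ℝ) + 1) * n) ≤ G * ((n - r) * (2 * s)) :=
          mul_le_mul_of_nonneg_left h5 hG0.le
      _ = _ := by ring
  have hkey : 48 * ℓ * s ≤ Real.log 2 * n := by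
    calc 48 * ℓ * s ≤ (Real.log 2 * s) * s := mul_le_mul_of_nonneg_right hbig (by linarith)
      _ = Real.log 2 * s ^ 2 := by ring
      _ ≤ _ := mul_le_mul_of_nonneg_left hsn' hL0.le
  have hA : G * (2 * (2 + Real.log ((n : ℝ) - r + 2)) / (n - r + 1)) ≤
      Real.log 2 * G / (4 * s) := by
    have h7 : Real.log ((n : ℝ) - r + 2) ≤ ℓ :=
      Real.log_le_log (by linarith) (by linarith)
    have h8 : 2 * (2 + Real.log ((n : ℝ) - r + 2)) / (n - r + 1) ≤ Real.log 2 / (4 * s) := by
      rw [div_le_div_iff₀ (by linarith) (by positivity)]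
      have h9 : (n : ℝ) ≤ 2 * (n - r + 1) := by linarith
      calc 2 * (2 + Real.log ((n : ℝ) - r + 2)) * (4 * s) ≤ 2 * (3 * ℓ) * (4 * s) := by
            apply mul_le_mul_of_nonneg_right _ (by positivity)
            linarith
        _ = (48 * ℓ * s) / 2 := by ring
        _ ≤ (Real.log 2 * n) / 2 := by linarith
        _ ≤ (Real.log 2 * (2 * (n - r + 1))) / 2 := by
            apply div_le_div_of_nonneg_right _ (by norm_num)
            exact mul_le_mul_of_nonneg_left h9 hL0.le
        _ = Real.log 2 * (n - r + 1) := by ring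
    calc G * (2 * (2 + Real.log ((n : ℝ) - r + 2)) / (n - r + 1))
        ≤ G * (Real.log 2 / (4 * s)) := mul_le_mul_of_nonneg_left h8 hG0.le
      _ = _ := by ring
  have hB : n * Real.log n ≤ Real.log 2 * G / (4 * s) := by
    rw [le_div_iff₀ (by positivity)]
    have h10 : Real.log n ≤ ℓ := Real.log_le_log hn0 (by linarith)
    calc n * Real.log n * (4 * s) ≤ n * ℓ * (4 * s) := by
          apply mul_le_mul_of_nonneg_right _ (by positivity)
          exact mul_le_mul_of_nonneg_left h10 hn0.le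
      _ = n * (48 * ℓ * s) / 12 := by ring
      _ ≤ n * (Real.log 2 * n) / 12 := by
          apply div_le_div_of_nonneg_right _ (by norm_num)
          exact mul_le_mul_of_nonneg_left hkey hn0.le
      _ = Real.log 2 * n ^ 2 / 12 := by ring
      _ ≤ Real.log 2 * (4 * G) / 12 := by
          apply div_le_div_of_nonneg_right _ (by norm_num)
          exact mul_le_mul_of_nonneg_left hG1 hL0.le
      _ ≤ Real.log 2 * G := by
          have : 0 < Real.log 2 * G := by positivity
          linarith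
  have hsum : Real.log 2 * G / (4 * s) + Real.log 2 * G / (4 * s) = Real.log 2 * G / (2 * s) := by
    have : (s : ℝ) ≠ 0 := by linarith
    field_simp
    ring
  linarith

/-- cubic lower bound for binomial coefficients -/
lemma cube_le {n r : ℕ} (hn16 : 16 ≤ n) (hr : 3 ≤ r) (h2r : 2 * r ≤ n) :
    (n : ℝ) ^ 3 ≤ 12 * (n.choose r : ℝ) := by
  have h2 : n.choose 3 ≤ n.choose r := choose_mono_half (by omega) (by omega)
  have a3 : n.choose 3 * 3 = n.choose 2 * (n - 2) := Nat.choose_succ_right_eq n 2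
  have a2 : n.choose 2 * 2 = n * (n - 1) := by
    have := Nat.choose_succ_right_eq n 1
    simpa using this
  have a4 : n.choose 3 * 6 = n * (n - 1) * (n - 2) := by
    calc n.choose 3 * 6 = (n.choose 3 * 3) * 2 := by ring
      _ = (n.choose 2 * 2) * (n - 2) := by rw [a3]; ring
      _ = _ := by rw [a2]
  have a5 : n ^ 3 ≤ 2 * (n * (n - 1) * (n - 2)) := by
    obtain ⟨t, rfl⟩ : ∃ t, n = t + 2 := ⟨n - 2, by omega⟩
    have e1 : t + 2 - 1 = t + 1 := by omega
    have e2 : t + 2 - 2 = t := by omega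
    rw [e1, e2]
    have ht : 14 ≤ t := by omega
    have h7 : (t + 2) ^ 2 ≤ 2 * ((t + 1) * t) := by nlinarith
    calc (t + 2) ^ 3 = (t + 2) * (t + 2) ^ 2 := by ring
      _ ≤ (t + 2) * (2 * ((t + 1) * t)) := Nat.mul_le_mul_left _ h7
      _ = _ := by ring
  have a6 : n ^ 3 ≤ 12 * n.choose r := by omega
  exact_mod_cast a6

/-- comparison under a hypothesis on the binomial coefficients -/
theorem compare_binom {δ ε : ℝ} (hδ : 0 < δ) (hε : 0 < ε) (hε1 : ε ≤ 1) (hεδ : ε ≤ δ / 4)
    {n r j : ℕ} (hs4 : 4 ≤ Nat.sqrt n) (hr : Nat.sqrt n ≤ r) (h2r : 2 * r ≤ n)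
    (hrj : (1 + δ) * n * (n.choose r : ℝ) ≤ (n - r) * (n.choose j : ℝ))
    (hbig : 29 * (Real.log ((n : ℝ) + 3)) ^ 2 ≤ ε ^ 2 * (Nat.sqrt n : ℝ) * Real.log 2)
    (hδ2 : 24 * Real.log n ≤ Real.log 2 * δ * n) :
    Real.log (BFon (univ : Finset (Fin n)) r).card + n * Real.log n ≤
      Real.log 2 * ((n.choose j : ℝ) / n) := by
  have h1 := upper_large hε hε1 hs4 hr (by omega) hbig
  have hn16 : 16 ≤ n := by
    have := Nat.sqrt_le' n
    nlinarith
  have hn0 : (0 : ℝ) < n := by
    have : 0 < n := by omega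
    exact_mod_cast this
  have hL0 : 0 < Real.log 2 := Real.log_pos (by norm_num)
  have hcast : ((n - r : ℕ) : ℝ) = n - r := by
    rw [Nat.cast_sub (by omega)]
  rw [hcast] at h1
  have hG1 := cube_le (r := r) hn16 (by omega) h2r
  set G : ℝ := (n.choose r : ℝ) with hG
  set G' : ℝ := (n.choose j : ℝ) with hG'
  have hG0 : 0 < G := by
    have : (0 : ℝ) < (n : ℝ) ^ 3 := by positivity
    linarith
  have hrn2 : 2 * (r : ℝ) ≤ n := by exact_mod_cast h2r
  have hm0 : (0 : ℝ) < (n : ℝ) - r := by linarith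
  have hr1 : (1 : ℝ) ≤ r := by
    have : 1 ≤ r := by omega
    exact_mod_cast this
  have hrhs : Real.log 2 * ((1 + δ) * G / (n - r + 1)) ≤ Real.log 2 * (G' / n) := by
    apply mul_le_mul_of_nonneg_left _ hL0.le
    calc (1 + δ) * G / (n - r + 1) ≤ (1 + δ) * G / (n - r) := by
          apply div_le_div_of_nonneg_left (by positivity) hm0 (by linarith)
      _ ≤ G' / n := by
          rw [div_le_div_iff₀ hm0 hn0]
          calc (1 + δ) * G * n = (1 + δ) * n * G := by ring
            _ ≤ (n - r) * G' := hrj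
            _ = G' * (n - r) := by ring
  have hlow : n * Real.log n ≤ (δ / 2) * Real.log 2 * G / (n - r + 1) := by
    rw [le_div_iff₀ (by linarith)]
    have hlogn : 0 ≤ Real.log n := Real.log_nonneg (by linarith)
    calc n * Real.log n * (n - r + 1) ≤ n * Real.log n * n := by
          apply mul_le_mul_of_nonneg_left (by linarith) (by positivity)
      _ = n ^ 2 * (24 * Real.log n) / 24 := by ring
      _ ≤ n ^ 2 * (Real.log 2 * δ * n) / 24 := by
          apply div_le_div_of_nonneg_right _ (by norm_num)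
          exact mul_le_mul_of_nonneg_left hδ2 (by positivity)
      _ = (δ / 2) * Real.log 2 * (n ^ 3 / 12) := by ring
      _ ≤ (δ / 2) * Real.log 2 * G := by
          apply mul_le_mul_of_nonneg_left (by linarith) (by positivity)
  have hsum : G * ((1 + 2 * ε) * Real.log 2 / (n - r + 1)) +
      (δ / 2) * Real.log 2 * G / (n - r + 1) ≤ Real.log 2 * ((1 + δ) * G / (n - r + 1)) := by
    have hm1 : (0 : ℝ) < (n : ℝ) - r + 1 := by linarith
    rw [mul_div_assoc', mul_div_assoc', ← add_div]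
    apply div_le_div_of_nonneg_right _ hm1.le
    have : 2 * ε + δ / 2 ≤ δ := by linarith
    have h9 : (2 * ε + δ / 2) * (Real.log 2 * G) ≤ δ * (Real.log 2 * G) :=
      mul_le_mul_of_nonneg_right this (by positivity)
    nlinarith
  linarith

/-- Labelled matroids of rank `i`, times `n!`, are not more numerous than those of rank `j`. -/
theorem labelled_compare {δ : ℝ} (hδ : 0 < δ) :
    ∀ᶠ n : ℕ in atTop, ∀ i j : ℕ, 2 ≤ i → i < j → 2 * j ≤ n →
      ((i : ℝ) ≤ ((3 - Real.sqrt 5) / 2 - δ) * n ∨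
        (1 + δ) * n * (n.choose i : ℝ) ≤ (n - i) * (n.choose j : ℝ)) →
      (BFon (univ : Finset (Fin n)) i).card * n.factorial ≤
        (BFon (univ : Finset (Fin n)) j).card := by
  set ε : ℝ := min 1 (δ / 4) with hε
  have hε0 : 0 < ε := lt_min one_pos (by positivity)
  have hL0 : 0 < Real.log 2 := Real.log_pos (by norm_num)
  have ev1 := log_sq_ev (c := ε ^ 2 * Real.log 2 / 29) (by positivity)
  have ev2 := log_sq_ev (c := Real.log 2 / 48) (by positivity)
  have ev3 : ∀ᶠ n : ℕ in atTop, 4 ≤ Nat.sqrt n := by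
    filter_upwards [eventually_ge_atTop 16] with n hn
    rw [Nat.le_sqrt']
    exact hn
  have ev4 : ∀ᶠ n : ℕ in atTop, 2 / δ ≤ (n : ℝ) :=
    tendsto_natCast_atTop_atTop.eventually_ge_atTop _
  have ev5 : ∀ᶠ n : ℕ in atTop, 24 * Real.log n ≤ Real.log 2 * δ * n := by
    have h := (Real.isLittleO_log_id_atTop).bound
      (show (0 : ℝ) < Real.log 2 * δ / 24 by positivity)
    filter_upwards [tendsto_natCast_atTop_atTop.eventually h, eventually_ge_atTop 1] with n hn hn1
    have hn1' : (1 : ℝ) ≤ n := by exact_mod_cast hn1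
    simp only [id] at hn
    rw [Real.norm_of_nonneg (Real.log_nonneg hn1'), Real.norm_of_nonneg (by linarith)] at hn
    linarith
  filter_upwards [ev1, ev2, ev3, ev4, ev5] with n h1 h2 h3 h4 h5
  intro r j hr2 hrj h2j hcond
  have hn16 : 16 ≤ n := by
    have := Nat.sqrt_le' n
    nlinarith
  have hn0 : (0 : ℝ) < n := by
    have : 0 < n := by omega
    exact_mod_cast this
  have hn1 : (1 : ℝ) ≤ n := by
    have : 1 ≤ n := by omega
    exact_mod_cast this
  have hstep : Real.log 2 * ((n.choose (r + 1) : ℝ) / n) ≤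
      Real.log 2 * ((n.choose j : ℝ) / n) := by
    apply mul_le_mul_of_nonneg_left _ hL0.le
    apply div_le_div_of_nonneg_right _ hn0.le
    exact_mod_cast choose_mono_half (by omega) h2j
  have hmain : Real.log (BFon (univ : Finset (Fin n)) r).card + n * Real.log n ≤
      Real.log 2 * ((n.choose j : ℝ) / n) := by
    rcases lt_or_ge r (Nat.sqrt n) with hlt | hge
    · refine (compare_small h3 hr2 hlt ?_).trans hstep
      have hℓ1 : 1 ≤ Real.log ((n : ℝ) + 3) := by
        rw [Real.le_log_iff_exp_le (by positivity)]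
        have := Real.exp_one_lt_d9
        linarith
      nlinarith
    · rcases hcond with hrδ | hbin
      · refine (compare_large hδ hε0 (min_le_left _ _) (min_le_right _ _) h3 hge (by omega)
          hrδ ?_ ?_ ?_).trans hstep
        · linarith
        · rw [div_le_iff₀ hδ] at h4
          linarith
        · have : 0 ≤ Real.log n := Real.log_nonneg hn1
          linarith
      · exact compare_binom hδ hε0 (min_le_left _ _) (min_le_right _ _) h3 hge (by omega)
          hbin (by linarith) h5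
  obtain ⟨c, hc1, hc2⟩ := lower_bound (n := n) (r := j) (by omega) (by omega)
  have hcR : (n.choose j : ℝ) / n ≤ c := by
    rw [div_le_iff₀ hn0]
    have : ((n.choose j : ℕ) : ℝ) ≤ ((n * c : ℕ) : ℝ) := by exact_mod_cast hc1
    push_cast at this
    linarith
  refine le_trans ?_ hc2
  by_cases h0 : (BFon (univ : Finset (Fin n)) r).card = 0
  · rw [h0, zero_mul]; exact Nat.zero_le _
  have hpos : (0 : ℝ) < (BFon (univ : Finset (Fin n)) r).card := by
    exact_mod_cast Nat.pos_of_ne_zero h0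
  have hfac : (n.factorial : ℝ) ≤ (n : ℝ) ^ n := by exact_mod_cast Nat.factorial_le_pow n
  have hR : (((BFon (univ : Finset (Fin n)) r).card * n.factorial : ℕ) : ℝ) ≤ (2 : ℝ) ^ c := by
    push_cast
    calc ((BFon (univ : Finset (Fin n)) r).card : ℝ) * (n.factorial : ℝ)
        ≤ ((BFon (univ : Finset (Fin n)) r).card : ℝ) * (n : ℝ) ^ n :=
          mul_le_mul_of_nonneg_left hfac hpos.le
      _ = Real.exp (Real.log (BFon (univ : Finset (Fin n)) r).card + n * Real.log n) := by
          rw [Real.exp_add, Real.exp_log hpos, mul_comm (n : ℝ) (Real.log n), Real.exp_mul,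
            Real.exp_log hn0, Real.rpow_natCast]
      _ ≤ Real.exp (Real.log 2 * c) := by
          rw [Real.exp_le_exp]
          exact hmain.trans (mul_le_mul_of_nonneg_left hcR hL0.le)
      _ = (2 : ℝ) ^ c := by
          rw [Real.exp_mul, Real.exp_log (by norm_num), Real.rpow_natCast]
  exact_mod_cast hR

end Pool.Agent.MatCount
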