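import Mathlib
import Pool.Agent.Lib.MP_e1cc60_co.Asym

set_option autoImplicit false
set_option linter.unusedSectionVars false

/-!
Isomorphism classes of matroids on `Fin n`.
-/

namespace Pool.Agent.MatCount

open Finset

/-- the matroids of rank `r` with ground set `Fin n` -/
def Mat (n r : ℕ) : Set (Matroid (Fin n)) :=
  {M | M.E = Set.univ ∧ ∃ B : Set (Fin n), M.IsBase B ∧ B.ncard = r}

/-- the isomorphism class of `M` among the rank `r` matroids on `Fin n` -/
def isoClass (n r : ℕ) (M : Matroid (Fin n)) : Set (Matroid (Fin n)) :=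
  {N : Matroid (Fin n) | N.E = Set.univ ∧
    (∃ B : Set (Fin n), N.IsBase B ∧ B.ncard = r) ∧
    ∃ e : Equiv.Perm (Fin n), ∀ B : Set (Fin n), M.IsBase B ↔ N.IsBase (e '' B)}

/-- the set of isomorphism classes -/
def classSet (n r : ℕ) : Set (Set (Matroid (Fin n))) :=
  {C | ∃ M ∈ Mat n r, C = isoClass n r M}

/-- The number of isomorphism classes of rank `r` matroids on an `n`-element set. -/
noncomputable def numClasses (n r : ℕ) : ℕ := (classSet n r).ncard

variable {n r : ℕ}

open Classical in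
/-- the base family -/
noncomputable def fam (M : Matroid (Fin n)) : Finset (Finset (Fin n)) :=
  univ.filter (fun B => M.IsBase ↑B)

lemma mem_fam {M : Matroid (Fin n)} {B : Finset (Fin n)} : B ∈ fam M ↔ M.IsBase ↑B := by
  classical
  unfold fam
  simp

lemma Mat.ncard {M : Matroid (Fin n)} (h : M ∈ Mat n r) {B : Set (Fin n)} (hB : M.IsBase B) :
    B.ncard = r := by
  obtain ⟨_, B', hB', hc⟩ := h
  rw [← hc]
  exact hB.ncard_eq_ncard_of_isBase hB'

lemma fam_mem {M : Matroid (Fin n)} (h : M ∈ Mat n r) : fam M ∈ BFon univ r := by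
  rw [mem_BFon]
  refine ⟨M, by rw [h.1]; simp, fun B => mem_fam, fun B hB => ?_⟩
  have := Mat.ncard h (mem_fam.1 hB)
  rwa [Set.ncard_coe_finset] at this

lemma fam_inj {M N : Matroid (Fin n)} (hM : M.E = Set.univ) (hN : N.E = Set.univ)
    (h : fam M = fam N) : M = N := by
  classical
  apply Matroid.ext_isBase (by rw [hM, hN])
  intro B _
  have hB : B = ↑(B.toFinset) := by simp
  rw [hB, ← mem_fam, ← mem_fam, h]

lemma Mat_finite (n r : ℕ) : (Mat n r).Finite := by
  apply Set.Finite.of_finite_image (f := fam) (Set.toFinite _)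
  intro M hM N hN h
  exact fam_inj hM.1 hN.1 h

lemma Mat_ncard_le : (Mat n r).ncard ≤ (BFon (univ : Finset (Fin n)) r).card := by
  rw [← Set.ncard_coe_finset]
  apply Set.ncard_le_ncard_of_injOn fam
  · intro M hM
    exact fam_mem hM
  · intro M hM N hN h
    exact fam_inj hM.1 hN.1 h

lemma mt_mem {𝓑 : Finset (Finset (Fin n))} (h : IsBF univ r 𝓑) : mt univ r 𝓑 ∈ Mat n r := by
  obtain ⟨h1, h2, h3⟩ := mt_spec h
  obtain ⟨B, hB⟩ := h.nonempty
  refine ⟨by rw [h1]; simp, ↑B, (h2 B).1 hB, ?_⟩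
  rw [Set.ncard_coe_finset]
  exact h3 B hB

lemma fam_mt {𝓑 : Finset (Finset (Fin n))} (h : IsBF univ r 𝓑) : fam (mt univ r 𝓑) = 𝓑 := by
  ext B
  rw [mem_fam, (mt_spec h).2.1 B]

lemma le_Mat_ncard : (BFon (univ : Finset (Fin n)) r).card ≤ (Mat n r).ncard := by
  rw [← Set.ncard_coe_finset]
  apply Set.ncard_le_ncard_of_injOn (mt univ r) _ _ (Mat_finite n r)
  · intro 𝓑 h𝓑
    exact mt_mem (mem_BFon.1 (mem_coe.1 h𝓑))
  · intro 𝓑 h𝓑 𝓑' h𝓑' h
    have h1 := fam_mt (mem_BFon.1 (mem_coe.1 h𝓑))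
    have h2 := fam_mt (mem_BFon.1 (mem_coe.1 h𝓑'))
    rw [← h1, ← h2, h]

lemma classSet_eq_image : classSet n r = isoClass n r '' Mat n r := by
  ext C
  constructor
  · rintro ⟨M, hM, rfl⟩; exact ⟨M, hM, rfl⟩
  · rintro ⟨M, hM, rfl⟩; exact ⟨M, hM, rfl⟩

lemma classSet_finite (n r : ℕ) : (classSet n r).Finite := by
  rw [classSet_eq_image]
  exact (Mat_finite n r).image _

lemma numClasses_le : numClasses n r ≤ (BFon (univ : Finset (Fin n)) r).card := by
  unfold numClasses
  rw [classSet_eq_image]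
  exact (Set.ncard_image_le (Mat_finite n r)).trans Mat_ncard_le

lemma self_mem_isoClass {M : Matroid (Fin n)} (h : M ∈ Mat n r) : M ∈ isoClass n r M :=
  ⟨h.1, h.2, 1, fun B => by simp⟩

lemma isoClass_ncard_le (M : Matroid (Fin n)) : (isoClass n r M).ncard ≤ n.factorial := by
  classical
  -- choose the permutation
  have h : ∀ N ∈ isoClass n r M, ∃ e : Equiv.Perm (Fin n),
      ∀ B : Set (Fin n), M.IsBase B ↔ N.IsBase (e '' B) := fun N hN => hN.2.2
  have hcard : (Set.univ : Set (Equiv.Perm (Fin n))).ncard = n.factorial := by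
    rw [Set.ncard_univ, Nat.card_eq_fintype_card, Fintype.card_perm, Fintype.card_fin]
  rw [← hcard]
  let g : Matroid (Fin n) → Equiv.Perm (Fin n) := fun N =>
    if hN : N ∈ isoClass n r M then (h N hN).choose else 1
  apply Set.ncard_le_ncard_of_injOn g (fun _ _ => Set.mem_univ _) _ (Set.toFinite _)
  intro N hN N' hN' heq
  have e1 : g N = (h N hN).choose := dif_pos hN
  have e2 : g N' = (h N' hN').choose := dif_pos hN'
  have s1 := (h N hN).choose_spec
  have s2 := (h N' hN').choose_spec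
  rw [← e1] at s1
  rw [← e2, ← heq] at s2
  apply Matroid.ext_isBase (by rw [hN.1, hN'.1])
  intro B _
  have : B = (g N) '' ((g N).symm '' B) := by
    rw [← Set.image_comp]; simp
  rw [this, ← s1, ← s2]

lemma Mat_le_numClasses : (Mat n r).ncard ≤ n.factorial * numClasses n r := by
  classical
  have hfin := classSet_finite n r
  have h1 : Mat n r ⊆ ⋃ C ∈ classSet n r, C := by
    intro M hM
    rw [Set.mem_iUnion₂]
    exact ⟨isoClass n r M, ⟨M, hM, rfl⟩, self_mem_isoClass hM⟩
  have hsub : ∀ C ∈ classSet n r, C ⊆ Mat n r := by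
    rintro C ⟨M, hM, rfl⟩ N hN
    exact ⟨hN.1, hN.2.1⟩
  have hCfin : ∀ C ∈ classSet n r, C.Finite := fun C hC => (Mat_finite n r).subset (hsub C hC)
  -- use finsets
  set F : Finset (Set (Matroid (Fin n))) := hfin.toFinset with hF
  let T : Set (Matroid (Fin n)) → Finset (Matroid (Fin n)) := fun C =>
    if hC : C.Finite then hC.toFinset else ∅
  have h2 : (Mat_finite n r).toFinset ⊆ F.biUnion T := by
    intro M hM
    rw [Set.Finite.mem_toFinset] at hM
    rw [mem_biUnion]
    refine ⟨isoClass n r M, ?_, ?_⟩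
    · rw [hF, Set.Finite.mem_toFinset]
      exact ⟨M, hM, rfl⟩
    · have hf := hCfin (isoClass n r M) ⟨M, hM, rfl⟩
      simp only [T, dif_pos hf, Set.Finite.mem_toFinset]
      exact self_mem_isoClass hM
  have h3 := card_le_card h2
  rw [← Set.ncard_eq_toFinset_card _ (Mat_finite n r)] at h3
  refine h3.trans (card_biUnion_le.trans ?_)
  calc ∑ C ∈ F, (T C).card ≤ ∑ _C ∈ F, n.factorial := by
        apply sum_le_sum
        intro C hC
        rw [hF, Set.Finite.mem_toFinset] at hC
        have hf := hCfin C hC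
        simp only [T, dif_pos hf]
        rw [← Set.ncard_eq_toFinset_card _ hf]
        obtain ⟨M, hM, rfl⟩ := hC
        exact isoClass_ncard_le M
    _ = n.factorial * numClasses n r := by
        rw [sum_const, smul_eq_mul, mul_comm, hF, ← Set.ncard_eq_toFinset_card _ hfin]
        rfl

lemma BFon_le_numClasses :
    (BFon (univ : Finset (Fin n)) r).card ≤ n.factorial * numClasses n r :=
  le_Mat_ncard.trans Mat_le_numClasses

/-! ### Duality -/

lemma dual_mem {M : Matroid (Fin n)} (h : M ∈ Mat n r) : M✶ ∈ Mat n (n - r) := by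
  obtain ⟨hE, B, hB, hc⟩ := h
  refine ⟨by rw [Matroid.dual_ground, hE], M.E \ B, hB.compl_isBase_dual, ?_⟩
  rw [hE, Set.ncard_sdiff (Set.subset_univ B) (Set.toFinite _), hc, Set.ncard_univ,
    Nat.card_eq_fintype_card, Fintype.card_fin]

lemma rank_le {M : Matroid (Fin n)} (h : M ∈ Mat n r) : r ≤ n := by
  obtain ⟨hE, B, hB, hc⟩ := h
  rw [← hc]
  calc B.ncard ≤ (Set.univ : Set (Fin n)).ncard :=
        Set.ncard_le_ncard (Set.subset_univ B) (Set.toFinite _)
    _ = n := by rw [Set.ncard_univ, Nat.card_eq_fintype_card, Fintype.card_fin]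

lemma dual_iso {M N : Matroid (Fin n)} (hM : M.E = Set.univ) (hN : N.E = Set.univ)
    {e : Equiv.Perm (Fin n)} (h : ∀ B : Set (Fin n), M.IsBase B ↔ N.IsBase (e '' B)) :
    ∀ B : Set (Fin n), M✶.IsBase B ↔ N✶.IsBase (e '' B) := by
  intro B
  rw [Matroid.dual_isBase_iff (by rw [hM]; exact Set.subset_univ _),
    Matroid.dual_isBase_iff (by rw [hN]; exact Set.subset_univ _), hM, hN, h,
    Set.image_sdiff e.injective, Set.image_univ, e.surjective.range_eq]

lemma dual_isoClass {M : Matroid (Fin n)} (h : M ∈ Mat n r) :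
    Matroid.dual '' (isoClass n r M) = isoClass n (n - r) M✶ := by
  ext N
  constructor
  · rintro ⟨K, hK, rfl⟩
    have hd := dual_mem (n := n) (r := r) (M := K) ⟨hK.1, hK.2.1⟩
    obtain ⟨e, he⟩ := hK.2.2
    exact ⟨hd.1, hd.2, e, dual_iso h.1 hK.1 he⟩
  · intro hN
    refine ⟨N✶, ?_, Matroid.dual_dual N⟩
    have hd := dual_mem (n := n) (r := n - r) (M := N) ⟨hN.1, hN.2.1⟩
    have hr := rank_le h
    have e0 : n - (n - r) = r := by omega
    rw [e0] at hd
    obtain ⟨e, he⟩ := hN.2.2
    have h2 := dual_iso (dual_mem h).1 hN.1 he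
    rw [Matroid.dual_dual] at h2
    exact ⟨hd.1, hd.2, e, h2⟩

lemma numClasses_le_dual : numClasses n r ≤ numClasses n (n - r) := by
  unfold numClasses
  apply Set.ncard_le_ncard_of_injOn (fun C => Matroid.dual '' C) _ _ (classSet_finite n (n - r))
  · rintro C ⟨M, hM, rfl⟩
    refine ⟨M✶, dual_mem hM, ?_⟩
    exact dual_isoClass hM
  · intro C _ C' _ h
    have hinj : Function.Injective (Matroid.dual : Matroid (Fin n) → Matroid (Fin n)) :=
      Matroid.dual_involutive.injective
    exact hinj.image_injective h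

theorem numClasses_dual (h : r ≤ n) : numClasses n (n - r) = numClasses n r := by
  apply le_antisymm _ numClasses_le_dual
  have := numClasses_le_dual (n := n) (r := n - r)
  have e0 : n - (n - r) = r := by omega
  rwa [e0] at this

end Pool.Agent.MatCount
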