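import Mathlib
import Pool.Agent.Lib.MP_e1cc60_co.Classes

set_option autoImplicit false
set_option linter.unusedSectionVars false

/-!
The first inequality: rank one against rank two.
-/

namespace Pool.Agent.MatCount

open Finset

variable {n r : ℕ}

lemma fam_card_of_iso {M N : Matroid (Fin n)} (e : Equiv.Perm (Fin n))
    (h : ∀ B : Set (Fin n), M.IsBase B ↔ N.IsBase (e '' B)) : (fam M).card = (fam N).card := by
  apply card_bij (fun B _ => B.map e.toEmbedding)
  · intro B hB
    rw [mem_fam] at hB ⊢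
    rw [h] at hB
    simpa using hB
  · intro B _ B' _ hBB
    exact Finset.map_injective _ hBB
  · intro B hB
    refine ⟨B.map e.symm.toEmbedding, ?_, ?_⟩
    · rw [mem_fam] at hB ⊢
      rw [h]
      have : (e '' ↑(B.map e.symm.toEmbedding) : Set (Fin n)) = ↑B := by
        rw [coe_map, ← Set.image_comp]
        simp
      rw [this]
      exact hB
    · ext x
      simp

open Classical in
/-- number of bases of the members of a class -/
noncomputable def nb (C : Set (Matroid (Fin n))) : ℕ :=
  if h : C.Nonempty then (fam h.choose).card else 0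

lemma nb_isoClass {M : Matroid (Fin n)} (hM : M ∈ Mat n r) :
    nb (isoClass n r M) = (fam M).card := by
  have h : (isoClass n r M).Nonempty := ⟨M, self_mem_isoClass hM⟩
  unfold nb
  rw [dif_pos h]
  obtain ⟨e, he⟩ := h.choose_spec.2.2
  exact (fam_card_of_iso e he).symm

/-- rank one matroids with the same number of bases are isomorphic -/
lemma rank_one_iso {M N : Matroid (Fin n)} (hM : M ∈ Mat n 1) (hN : N ∈ Mat n 1)
    (h : (fam M).card = (fam N).card) : isoClass n 1 M = isoClass n 1 N := by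
  classical
  -- the sets of non-loops
  let A : Matroid (Fin n) → Finset (Fin n) := fun K => univ.filter (fun x => K.IsBase {x})
  have hA : ∀ K : Matroid (Fin n), K ∈ Mat n 1 → ∀ B : Set (Fin n),
      K.IsBase B ↔ ∃ x ∈ A K, B = {x} := by
    intro K hK B
    constructor
    · intro hB
      obtain ⟨x, hx⟩ := Set.ncard_eq_one.1 (Mat.ncard hK hB)
      exact ⟨x, by simp only [A, mem_filter, mem_univ, true_and]; rwa [← hx], hx⟩
    · rintro ⟨x, hx, rfl⟩
      simp only [A, mem_filter, mem_univ, true_and] at hx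
      exact hx
  have hcard : ∀ K : Matroid (Fin n), K ∈ Mat n 1 → (fam K).card = (A K).card := by
    intro K hK
    symm
    apply card_bij (fun x _ => ({x} : Finset (Fin n)))
    · intro x hx
      rw [mem_fam, hA K hK]
      exact ⟨x, hx, by simp⟩
    · intro x _ y _ hxy
      exact singleton_injective hxy
    · intro B hB
      rw [mem_fam, hA K hK] at hB
      obtain ⟨x, hx, hBx⟩ := hB
      refine ⟨x, hx, ?_⟩
      rw [← coe_inj, hBx]; simp
  rw [hcard M hM, hcard N hN] at h
  obtain ⟨e, he⟩ : ∃ e : Equiv.Perm (Fin n), ∀ x, x ∈ A M ↔ e x ∈ A N := by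
    have h1 : Fintype.card {x // x ∈ A M} = Fintype.card {x // x ∈ A N} := by
      simp only [Fintype.card_coe]
      exact h
    obtain ⟨e0⟩ := Fintype.card_eq.1 h1
    refine ⟨e0.extendSubtype, fun x => ?_⟩
    constructor
    · intro hx
      exact e0.extendSubtype_mem x hx
    · intro hx
      by_contra hxn
      exact e0.extendSubtype_not_mem x hxn hx
  have hMN : ∀ B : Set (Fin n), M.IsBase B ↔ N.IsBase (e '' B) := by
    intro B
    rw [hA M hM, hA N hN]
    constructor
    · rintro ⟨x, hx, rfl⟩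
      exact ⟨e x, (he x).1 hx, by simp⟩
    · rintro ⟨y, hy, hBy⟩
      refine ⟨e.symm y, ?_, ?_⟩
      · rw [he]; simpa using hy
      · have : B = e.symm '' (e '' B) := by rw [← Set.image_comp]; simp
        rw [this, hBy]; simp
  ext K
  constructor
  · rintro ⟨h1, h2, f, hf⟩
    refine ⟨h1, h2, e.symm.trans f, fun B => ?_⟩
    have : N.IsBase B ↔ M.IsBase (e.symm '' B) := by
      rw [hMN, ← Set.image_comp]; simp
    rw [this, hf, ← Set.image_comp]
    rfl
  · rintro ⟨h1, h2, f, hf⟩
    refine ⟨h1, h2, e.trans f, fun B => ?_⟩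
    rw [hMN, hf, ← Set.image_comp]
    rfl

lemma fam_nonempty {M : Matroid (Fin n)} (hM : M ∈ Mat n r) : (fam M).Nonempty :=
  (mem_BFon.1 (fam_mem hM)).nonempty

lemma numClasses_one_le : numClasses n 1 ≤ n := by
  unfold numClasses
  have h : (classSet n 1).ncard ≤ (↑(Icc 1 n) : Set ℕ).ncard := by
    apply Set.ncard_le_ncard_of_injOn nb
    · rintro C ⟨M, hM, rfl⟩
      rw [nb_isoClass hM, coe_Icc, Set.mem_Icc]
      refine ⟨(fam_nonempty hM).card_pos, ?_⟩
      have := card_le_card (mem_BFon.1 (fam_mem hM)).subset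
      rwa [card_powersetCard, card_univ, Fintype.card_fin, Nat.choose_one_right] at this
    · rintro C ⟨M, hM, rfl⟩ C' ⟨N, hN, rfl⟩ h
      rw [nb_isoClass hM, nb_isoClass hN] at h
      exact rank_one_iso hM hN h
  rwa [Set.ncard_coe_finset, Nat.card_Icc, Nat.add_sub_cancel] at h

lemma star_isBF (hn : 0 < n) {j : ℕ} (hj : 1 ≤ j) (hjn : j < n) :
    IsBF (univ : Finset (Fin n)) 2
      (((univ : Finset (Fin n)).filter (fun i : Fin n => 1 ≤ (i : ℕ) ∧ (i : ℕ) ≤ j)).image
        (fun i => ({⟨0, hn⟩, i} : Finset (Fin n)))) := by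
  have hne : ∀ i : Fin n, 1 ≤ (i : ℕ) → (⟨0, hn⟩ : Fin n) ≠ i := by
    rintro i hi h
    rw [← h] at hi
    simp at hi
  apply isBF_of_exchange
  · intro B hB
    rw [mem_image] at hB
    obtain ⟨i, hi, rfl⟩ := hB
    rw [mem_filter] at hi
    rw [mem_powersetCard]
    exact ⟨subset_univ _, card_pair (hne i hi.2.1)⟩
  · refine ⟨{⟨0, hn⟩, ⟨j, hjn⟩}, ?_⟩
    rw [mem_image]
    exact ⟨⟨j, hjn⟩, by rw [mem_filter]; exact ⟨mem_univ _, hj, le_rfl⟩, rfl⟩
  · intro B₁ h₁ B₂ h₂ a ha hna
    rw [mem_image] at h₁ h₂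
    obtain ⟨i, hi, rfl⟩ := h₁
    obtain ⟨i', hi', rfl⟩ := h₂
    rw [mem_filter] at hi hi'
    rw [mem_insert, mem_singleton, not_or] at hna
    rw [mem_insert, mem_singleton] at ha
    have hai : a = i := by
      rcases ha with h | h
      · exact absurd h hna.1
      · exact h
    subst hai
    refine ⟨i', by simp, ?_, ?_⟩
    · rw [mem_insert, mem_singleton, not_or]
      exact ⟨(hne i' hi'.2.1).symm, fun h => hna.2 h.symm⟩
    · rw [mem_image]
      refine ⟨i', by rw [mem_filter]; exact hi', ?_⟩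
      have : ({⟨0, hn⟩, a} : Finset (Fin n)).erase a = {⟨0, hn⟩} := by
        ext x
        simp only [mem_erase, mem_insert, mem_singleton]
        constructor
        · rintro ⟨h1, h2 | h2⟩
          · exact h2
          · exact absurd h2 h1
        · rintro rfl
          exact ⟨hne a hi.2.1, Or.inl rfl⟩
      rw [this, pair_comm]

lemma star_card' (hn : 0 < n) {j : ℕ} (hjn : j < n) :
    (((univ : Finset (Fin n)).filter (fun i : Fin n => 1 ≤ (i : ℕ) ∧ (i : ℕ) ≤ j)).image
        (fun i => ({⟨0, hn⟩, i} : Finset (Fin n)))).card = j := by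
  rw [card_image_of_injOn]
  · have : ((univ : Finset (Fin n)).filter (fun i : Fin n => 1 ≤ (i : ℕ) ∧ (i : ℕ) ≤ j)).map
        Fin.valEmbedding = Icc 1 j := by
      ext x
      simp only [mem_map, mem_filter, mem_univ, true_and, Fin.valEmbedding_apply, mem_Icc]
      constructor
      · rintro ⟨i, hi, rfl⟩; exact hi
      · intro hx
        exact ⟨⟨x, by omega⟩, hx, rfl⟩
    rw [← card_map Fin.valEmbedding, this, Nat.card_Icc, Nat.add_sub_cancel]
  · intro i hi i' hi' h
    rw [mem_coe, mem_filter] at hi hi'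
    simp only at h
    have : i ∈ ({⟨0, hn⟩, i'} : Finset (Fin n)) := by rw [← h]; simp
    rw [mem_insert, mem_singleton] at this
    rcases this with h1 | h1
    · rw [h1] at hi
      simp at hi
    · exact h1

lemma le_numClasses_two (hn : 4 ≤ n) : n ≤ numClasses n 2 := by
  unfold numClasses
  have hmem : ∀ 𝓑 : Finset (Finset (Fin n)), IsBF univ 2 𝓑 →
      𝓑.card ∈ nb '' (classSet n 2) := by
    intro 𝓑 h
    refine ⟨isoClass n 2 (mt univ 2 𝓑), ⟨_, mt_mem h, rfl⟩, ?_⟩
    rw [nb_isoClass (mt_mem h), fam_mt h]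
  have hchoose : n ≤ n.choose 2 := by
    rw [Nat.choose_two_right, Nat.le_div_iff_mul_le (by norm_num)]
    exact Nat.mul_le_mul_left _ (by omega)
  have hsub : (↑(insert (n.choose 2) (Icc 1 (n - 1))) : Set ℕ) ⊆ nb '' (classSet n 2) := by
    intro x hx
    rw [mem_coe, mem_insert, mem_Icc] at hx
    rcases hx with rfl | ⟨h1, h2⟩
    · have h := sparse_isBF (univ : Finset (Fin n)) (r := 2) (by norm_num)
        (by rw [card_univ, Fintype.card_fin]; omega) ∅ (fun X hX => by simp at hX)
      have h3 := hmem _ h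
      rwa [sdiff_empty, card_powersetCard, card_univ, Fintype.card_fin] at h3
    · have h3 := hmem _ (star_isBF (by omega) h1 (by omega : x < n))
      rwa [star_card' (by omega) (by omega)] at h3
  have hcard : (insert (n.choose 2) (Icc 1 (n - 1))).card = n := by
    rw [card_insert_of_notMem, Nat.card_Icc]
    · omega
    · rw [mem_Icc]; omega
  calc n = (↑(insert (n.choose 2) (Icc 1 (n - 1))) : Set ℕ).ncard := by
        rw [Set.ncard_coe_finset, hcard]
    _ ≤ (nb '' (classSet n 2)).ncard :=
        Set.ncard_le_ncard hsub ((classSet_finite n 2).image _)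
    _ ≤ (classSet n 2).ncard := Set.ncard_image_le (classSet_finite n 2)

lemma numClasses_zero_le : numClasses n 0 ≤ 1 := by
  refine numClasses_le.trans ?_
  rw [card_le_one]
  have h : ∀ 𝓑 ∈ BFon (univ : Finset (Fin n)) 0, 𝓑 = {∅} := by
    intro 𝓑 h𝓑
    have hb := mem_BFon.1 h𝓑
    have h1 := hb.subset
    rw [powersetCard_zero, subset_singleton_iff] at h1
    rcases h1 with h1 | h1
    · have := hb.nonempty
      rw [h1] at this
      simp at this
    · exact h1
  intro 𝓑 h𝓑 𝓑' h𝓑'
  rw [h 𝓑 h𝓑, h 𝓑' h𝓑']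

lemma one_le_numClasses_one (hn : 2 ≤ n) : 1 ≤ numClasses n 1 := by
  unfold numClasses
  have h := sparse_isBF (univ : Finset (Fin n)) (r := 1) (by norm_num)
    (by rw [card_univ, Fintype.card_fin]; omega) ∅ (fun X hX => by simp at hX)
  rw [Nat.one_le_iff_ne_zero, Ne, Set.ncard_eq_zero (classSet_finite n 1)]
  intro he
  have : isoClass n 1 (mt univ 1 _) ∈ classSet n 1 := ⟨_, mt_mem h, rfl⟩
  rw [he] at this
  exact this

/-- **Main theorem**, in terms of `numClasses`. -/
theorem main {δ : ℝ} (hδ : 0 < δ) :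
    ∃ n₀ : ℕ, ∀ n : ℕ, n₀ ≤ n → ∀ i j : ℕ, i ≤ j → 2 * j ≤ n →
      ((i : ℝ) ≤ ((3 - Real.sqrt 5) / 2 - δ) * n ∨
        (1 + δ) * n * (n.choose i : ℝ) ≤ (n - i) * (n.choose j : ℝ)) →
      numClasses n i ≤ numClasses n j := by
  -- shrink `δ`
  set η : ℝ := min δ (1 / 100) with hη
  have hη0 : 0 < η := lt_min hδ (by norm_num)
  have hηδ : η ≤ δ := min_le_left _ _
  have hη1 : η ≤ 1 / 100 := min_le_right _ _
  obtain ⟨n₁, h₁⟩ := Filter.eventually_atTop.1 (labelled_compare hη0)
  refine ⟨max n₁ 100, fun n hn i j hij h2j hcond => ?_⟩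
  have hn1 : n₁ ≤ n := (le_max_left _ _).trans hn
  have hn4 : 100 ≤ n := (le_max_right _ _).trans hn
  have hn0 : (100 : ℝ) ≤ n := by exact_mod_cast hn4
  have h5 : Real.sqrt 5 ≤ 2.3 := by
    apply Real.sqrt_le_iff.2
    norm_num
  -- the basic comparison
  have basic : ∀ r s : ℕ, 2 ≤ r → r < s → 2 * s ≤ n →
      ((r : ℝ) ≤ ((3 - Real.sqrt 5) / 2 - η) * n ∨
        (1 + η) * n * (n.choose r : ℝ) ≤ (n - r) * (n.choose s : ℝ)) →
      numClasses n r ≤ numClasses n s := by
    intro r s hr hrs h2s hc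
    have h2 := h₁ n hn1 r s hr hrs h2s hc
    have h3 := BFon_le_numClasses (n := n) (r := s)
    have h4 := numClasses_le (n := n) (r := r)
    have hf : 0 < n.factorial := Nat.factorial_pos n
    have h5 : n.factorial * numClasses n r ≤ n.factorial * numClasses n s := by
      calc n.factorial * numClasses n r
          ≤ n.factorial * (BFon (univ : Finset (Fin n)) r).card := Nat.mul_le_mul_left _ h4
        _ = (BFon (univ : Finset (Fin n)) r).card * n.factorial := mul_comm _ _
        _ ≤ (BFon (univ : Finset (Fin n)) s).card := h2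
        _ ≤ _ := h3
    exact Nat.le_of_mul_le_mul_left h5 hf
  rcases hij.eq_or_lt with heq | hlt
  · rw [heq]
  have two_le : ∀ s, 2 ≤ s → 2 * s ≤ n → numClasses n 2 ≤ numClasses n s := by
    intro s hs h2s
    rcases hs.eq_or_lt with h | h
    · rw [h]
    · apply basic 2 s le_rfl h h2s
      left
      push_cast
      nlinarith
  have one_le : ∀ s, 1 ≤ s → 2 * s ≤ n → numClasses n 1 ≤ numClasses n s := by
    intro s hs h2s
    rcases (show 1 = s ∨ 2 ≤ s by omega) with h | h
    · rw [h]
    · exact (numClasses_one_le.trans (le_numClasses_two (by omega))).trans (two_le s h h2s)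
  rcases (show i = 0 ∨ i = 1 ∨ 2 ≤ i by omega) with h | h | h
  · rw [h]
    exact (numClasses_zero_le.trans (one_le_numClasses_one (by omega))).trans
      (one_le j (by omega) h2j)
  · rw [h]
    exact one_le j (by omega) h2j
  · apply basic i j h hlt h2j
    rcases hcond with hc | hc
    · left
      refine hc.trans ?_
      apply mul_le_mul_of_nonneg_right _ (by linarith)
      linarith
    · right
      refine le_trans ?_ hc
      apply mul_le_mul_of_nonneg_right _ (by positivity)
      apply mul_le_mul_of_nonneg_right _ (by linarith)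
      linarith

end Pool.Agent.MatCount
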