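import Mathlib
import Pool.Agent.Lib.MP_e1cc60_co.RankOne

set_option autoImplicit false

/-!
Monotonicity of the normalised logarithm of the number of labelled matroids:
`b n r = log (1 + number of rank r matroids on n elements) / C(n, r)` satisfies
`b (n+1) (r+1) ≤ b n r` and `b (n+1) r ≤ b n r`.
-/

namespace Pool.Agent.MatCount

open Finset

section
variable {α β : Type*} [DecidableEq α] [DecidableEq β]

lemma IsBF.map {E : Finset α} {r : ℕ} {𝓑 : Finset (Finset α)} (h : IsBF E r 𝓑) (f : α → β)
    (hf : Set.InjOn f ↑E) : IsBF (E.image f) r (𝓑.image (fun B => B.image f)) := by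
  obtain ⟨M, hE, hB, hr⟩ := h
  have hf' : Set.InjOn f M.E := by rw [hE]; exact hf
  refine ⟨M.map f hf', ?_, ?_, ?_⟩
  · rw [Matroid.map_ground, hE, coe_image]
  · intro B
    rw [mem_image, Matroid.map_isBase_iff]
    constructor
    · rintro ⟨X, hX, rfl⟩
      exact ⟨↑X, (hB X).1 hX, by rw [coe_image]⟩
    · rintro ⟨Y, hY, hBY⟩
      have hYE : Y ⊆ ↑E := hE ▸ hY.subset_ground
      have hfin : Y.Finite := E.finite_toSet.subset hYE
      refine ⟨hfin.toFinset, (hB _).2 (by rwa [Set.Finite.coe_toFinset]), ?_⟩
      apply coe_injective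
      rw [coe_image, Set.Finite.coe_toFinset, hBY]
  · intro B hBm
    rw [mem_image] at hBm
    obtain ⟨X, hX, rfl⟩ := hBm
    have hXE : (X : Set α) ⊆ ↑E := hE ▸ ((hB X).1 hX).subset_ground
    rw [card_image_of_injOn (hf.mono hXE), hr X hX]

lemma BFon_card_le_of_card {E : Finset α} {E' : Finset β} (h : E.card = E'.card) (r : ℕ) :
    (BFon E r).card ≤ (BFon E' r).card := by
  classical
  by_cases hE : E.Nonempty
  · obtain ⟨x0, hx0⟩ := hE
    have hE' : E'.Nonempty := by
      rw [← card_pos, ← h, card_pos]; exact ⟨x0, hx0⟩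
    obtain ⟨y0, hy0⟩ := hE'
    let e : E ≃ E' := Finset.equivOfCardEq h
    let f : α → β := fun x => if hx : x ∈ E then (e ⟨x, hx⟩ : β) else y0
    have hfx : ∀ x (hx : x ∈ E), f x = (e ⟨x, hx⟩ : β) := fun x hx => by
      simp only [f, dif_pos hx]
    have hinj : Set.InjOn f ↑E := by
      intro x hx y hy hxy
      rw [mem_coe] at hx hy
      rw [hfx x hx, hfx y hy] at hxy
      have := e.injective (Subtype.ext hxy)
      exact congrArg Subtype.val this
    have himg : E.image f = E' := by
      ext y
      rw [mem_image]
      constructor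
      · rintro ⟨x, hx, rfl⟩
        rw [hfx x hx]
        exact (e ⟨x, hx⟩).2
      · intro hy
        refine ⟨(e.symm ⟨y, hy⟩ : α), (e.symm ⟨y, hy⟩).2, ?_⟩
        rw [hfx _ (e.symm ⟨y, hy⟩).2]
        simp
    apply card_le_card_of_injOn (fun 𝓑 => 𝓑.image (fun B => B.image f))
    · intro 𝓑 h𝓑
      have := (mem_BFon.1 (mem_coe.1 h𝓑)).map f hinj
      rw [himg] at this
      exact mem_coe.2 (mem_BFon.2 this)
    · intro 𝓑 h𝓑 𝓒 h𝓒 heq
      have hb := (mem_BFon.1 (mem_coe.1 h𝓑)).subset
      have hc := (mem_BFon.1 (mem_coe.1 h𝓒)).subset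
      have key : ∀ 𝓐 𝓓 : Finset (Finset α), 𝓐 ⊆ E.powersetCard r → 𝓓 ⊆ E.powersetCard r →
          𝓐.image (fun B => B.image f) = 𝓓.image (fun B => B.image f) → 𝓐 ⊆ 𝓓 := by
        intro 𝓐 𝓓 hA hD he X hX
        have : X.image f ∈ 𝓓.image (fun B => B.image f) := by
          rw [← he]; exact mem_image_of_mem _ hX
        obtain ⟨Y, hY, hYX⟩ := mem_image.1 this
        have hXE := (mem_powersetCard.1 (hA hX)).1
        have hYE := (mem_powersetCard.1 (hD hY)).1
        have : Y = X := by
          apply coe_injective
          have h2 : f '' (↑Y : Set α) = f '' (↑X : Set α) := by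
            rw [← coe_image, ← coe_image]; exact congrArg _ hYX
          exact (hinj.image_eq_image_iff (by exact_mod_cast hYE) (by exact_mod_cast hXE)).1 h2
        rw [← this]; exact hY
      exact Subset.antisymm (key _ _ hb hc heq) (key _ _ hc hb heq.symm)
  · rw [not_nonempty_iff_eq_empty] at hE
    subst hE
    have hE' : E' = ∅ := by rw [← card_eq_zero, ← h, card_empty]
    subst hE'
    rcases Nat.eq_zero_or_pos r with rfl | hr
    · -- both have exactly one
      have h1 : (BFon (∅ : Finset α) 0).card ≤ 1 := by
        rw [card_le_one]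
        intro a ha b hb
        have ha' := mem_BFon.1 ha
        have hb' := mem_BFon.1 hb
        have e1 : a = {∅} := by
          have hs := ha'.subset
          rw [powersetCard_zero] at hs
          exact (Finset.Nonempty.subset_singleton_iff ha'.nonempty).1 hs
        have e2 : b = {∅} := by
          have hs := hb'.subset
          rw [powersetCard_zero] at hs
          exact (Finset.Nonempty.subset_singleton_iff hb'.nonempty).1 hs
        rw [e1, e2]
      have h2 : 1 ≤ (BFon (∅ : Finset β) 0).card := by
        rw [Nat.one_le_iff_ne_zero, Ne, card_eq_zero, ← Ne, ← nonempty_iff_ne_empty]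
        refine ⟨{∅}, mem_BFon.2 ⟨Matroid.loopyOn ∅, by simp, ?_, by simp⟩⟩
        intro B
        simp
      omega
    · have : BFon (∅ : Finset α) r = ∅ := by
        rw [eq_empty_iff_forall_notMem]
        intro 𝓑 h𝓑
        have hb := mem_BFon.1 h𝓑
        obtain ⟨B, hB⟩ := hb.nonempty
        have := mem_powersetCard.1 (hb.subset hB)
        have h0 : B.card ≤ 0 := by
          have := card_le_card this.1
          simpa using this
        omega
      rw [this]
      simp

/-- number of labelled matroids of rank `r` on `n` elements -/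
noncomputable def lab (n r : ℕ) : ℕ := (BFon (univ : Finset (Fin n)) r).card

lemma BFon_card (E : Finset α) (r : ℕ) : (BFon E r).card = lab E.card r := by
  have h : E.card = (univ : Finset (Fin E.card)).card := by
    rw [card_univ, Fintype.card_fin]
  exact le_antisymm (BFon_card_le_of_card h r) (BFon_card_le_of_card h.symm r)

/-- Shearer for single contractions, with the empty family added. -/
theorem shearer_plus (E : Finset α) (r : ℕ) {n : ℕ} (hE : E.card = n + 1) :
    ((BFon E (r + 1)).card + 1) ^ (r + 1) ≤ (lab n r + 1) ^ (n + 1) := by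
  classical
  have hemp : ∅ ∉ BFon E (r + 1) := by
    intro h
    exact (mem_BFon.1 h).nonempty.ne_empty rfl
  have key := Pool.Agent.Lib.MP_cf191d_co.shearer E
    (fun x => (E.powersetCard (r + 1)).filter (fun X => x ∈ X)) (r + 1)
    (by omega) (E.powersetCard (r + 1)) (insert ∅ (BFon E (r + 1))) ?_ ?_
  · rw [card_insert_of_notMem hemp] at key
    refine key.trans ?_
    calc ∏ x ∈ E, ((insert ∅ (BFon E (r + 1))).image
          (fun A => A ∩ (E.powersetCard (r + 1)).filter (fun X => x ∈ X))).card
        ≤ ∏ _x ∈ E, (lab n r + 1) := by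
          apply Finset.prod_le_prod'
          intro x hx
          have hsub : (insert ∅ (BFon E (r + 1))).image
              (fun A => A ∩ (E.powersetCard (r + 1)).filter (fun X => x ∈ X)) ⊆
              insert ∅ ((BFon (E \ {x}) r).image (fun 𝓒 => 𝓒.image (fun X => X ∪ {x}))) := by
            intro 𝓐 h𝓐
            rw [mem_image] at h𝓐
            obtain ⟨𝓑, h𝓑, rfl⟩ := h𝓐
            rw [mem_insert] at h𝓑
            rcases h𝓑 with rfl | h𝓑
            · rw [mem_insert]
              left
              simp
            have hb := mem_BFon.1 h𝓑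
            have e1 : 𝓑 ∩ (E.powersetCard (r + 1)).filter (fun X => x ∈ X) =
                𝓑.filter (fun X => ({x} : Finset α) ⊆ X) := by
              ext X
              simp only [mem_inter, mem_filter, singleton_subset_iff]
              exact ⟨fun h => ⟨h.1, h.2.2⟩, fun h => ⟨h.1, hb.subset h.1, h.2⟩⟩
            rw [e1, mem_insert]
            by_cases hne : ∃ B ∈ 𝓑, ({x} : Finset α) ⊆ B
            · right
              rw [mem_image]
              refine ⟨(𝓑.filter (fun X => ({x} : Finset α) ⊆ X)).image (fun X => X \ {x}),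
                mem_BFon.2 ?_, ?_⟩
              · have := hb.contract hne
                rwa [card_singleton, Nat.add_sub_cancel] at this
              · rw [image_image]
                have : ∀ X ∈ 𝓑.filter (fun X => ({x} : Finset α) ⊆ X),
                    ((fun X => X ∪ {x}) ∘ fun X => X \ {x}) X = X := by
                  intro X hX
                  rw [mem_filter] at hX
                  simp only [Function.comp]
                  exact sdiff_union_of_subset hX.2
                ext X
                simp only [mem_image]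
                constructor
                · rintro ⟨Y, hY, rfl⟩
                  rw [this Y hY]
                  exact hY
                · intro hX
                  exact ⟨X, hX, this X hX⟩
            · left
              rw [filter_eq_empty_iff]
              intro X hX hTX
              exact hne ⟨X, hX, hTX⟩
          refine (card_le_card hsub).trans ?_
          refine (card_insert_le _ _).trans ?_
          have h1 := card_image_le (s := BFon (E \ {x}) r)
            (f := fun 𝓒 : Finset (Finset α) => 𝓒.image (fun X => X ∪ {x}))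
          have h2 : (BFon (E \ {x}) r).card = lab n r := by
            rw [BFon_card, card_sdiff_of_subset (singleton_subset_iff.2 hx), hE, card_singleton,
              Nat.add_sub_cancel]
          omega
      _ = (lab n r + 1) ^ (n + 1) := by
          rw [prod_const, hE]
  · intro A hA
    rw [mem_insert] at hA
    rcases hA with rfl | hA
    · exact empty_subset _
    · exact (mem_BFon.1 hA).subset
  · intro X hX
    rw [mem_powersetCard] at hX
    have : E.filter (fun x => X ∈ (E.powersetCard (r + 1)).filter (fun X => x ∈ X)) = X := by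
      ext x
      simp only [mem_filter, mem_powersetCard]
      constructor
      · rintro ⟨_, _, h⟩
        exact h
      · intro h
        exact ⟨hX.1 h, hX, h⟩
    rw [this, hX.2]

end

lemma lab_eq_ncard (n r : ℕ) : lab n r = (Mat n r).ncard :=
  le_antisymm le_Mat_ncard Mat_ncard_le

lemma lab_dual_le {n r : ℕ} : lab n r ≤ lab n (n - r) := by
  rw [lab_eq_ncard, lab_eq_ncard]
  apply Set.ncard_le_ncard_of_injOn (fun M => M✶) _ _ (Mat_finite n (n - r))
  · intro M hM
    exact dual_mem hM
  · intro M _ N _ h
    exact Matroid.dual_inj.1 h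

lemma lab_dual {n r : ℕ} (h : r ≤ n) : lab n (n - r) = lab n r := by
  apply le_antisymm _ lab_dual_le
  have := lab_dual_le (n := n) (r := n - r)
  have e : n - (n - r) = r := by omega
  rwa [e] at this

/-- normalised logarithm -/
noncomputable def bb (n r : ℕ) : ℝ := Real.log ((lab n r : ℝ) + 1) / (n.choose r : ℝ)

lemma bb_dual {n r : ℕ} (h : r ≤ n) : bb n (n - r) = bb n r := by
  unfold bb
  rw [lab_dual h, Nat.choose_symm h]

/-- contraction -/
theorem bb_contract {n r : ℕ} (h : r ≤ n) : bb (n + 1) (r + 1) ≤ bb n r := by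
  have h1 := shearer_plus (univ : Finset (Fin (n + 1))) r (n := n)
    (by rw [card_univ, Fintype.card_fin])
  change (lab (n + 1) (r + 1) + 1) ^ (r + 1) ≤ (lab n r + 1) ^ (n + 1) at h1
  have h2 : ((lab (n + 1) (r + 1) : ℝ) + 1) ^ (r + 1) ≤ ((lab n r : ℝ) + 1) ^ (n + 1) := by
    exact_mod_cast h1
  have h3 := Real.log_le_log (by positivity) h2
  rw [Real.log_pow, Real.log_pow] at h3
  have h4 : (((n + 1).choose (r + 1) : ℕ) : ℝ) * (r + 1) = (n + 1) * (n.choose r : ℝ) := by
    have := Nat.add_one_mul_choose_eq n r
    exact_mod_cast this.symm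
  have hc : (0 : ℝ) < (n.choose r : ℝ) := by exact_mod_cast Nat.choose_pos h
  have hc' : (0 : ℝ) < (((n + 1).choose (r + 1) : ℕ) : ℝ) := by
    exact_mod_cast Nat.choose_pos (by omega)
  unfold bb
  rw [div_le_div_iff₀ hc' hc]
  set A := Real.log ((lab (n + 1) (r + 1) : ℝ) + 1)
  set B := Real.log ((lab n r : ℝ) + 1)
  push_cast at h3
  have hr : (0 : ℝ) < (r : ℝ) + 1 := by positivity
  have h5 : (A * (n.choose r : ℝ)) * (r + 1) ≤
      (B * (((n + 1).choose (r + 1) : ℕ) : ℝ)) * (r + 1) := by
    calc (A * (n.choose r : ℝ)) * (r + 1) = ((r + 1) * A) * (n.choose r : ℝ) := by ring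
      _ ≤ ((n + 1) * B) * (n.choose r : ℝ) := mul_le_mul_of_nonneg_right h3 hc.le
      _ = B * ((n + 1) * (n.choose r : ℝ)) := by ring
      _ = B * ((((n + 1).choose (r + 1) : ℕ) : ℝ) * (r + 1)) := by rw [h4]
      _ = _ := by ring
  exact le_of_mul_le_mul_right h5 hr

/-- deletion -/
theorem bb_delete {n r : ℕ} (h : r ≤ n) : bb (n + 1) r ≤ bb n r := by
  rw [← bb_dual (show r ≤ n + 1 by omega), ← bb_dual h]
  have e : n + 1 - r = (n - r) + 1 := by omega
  rw [e]
  exact bb_contract (by omega)

end Pool.Agent.MatCount
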