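import Mathlib
import Pool.Agent.Lib.MP_e1cc60_co.Mono

set_option autoImplicit false

/-!
Bounds for `bb n r` and the drop of `bb` at a descent of the sequence of matroid counts.
-/

namespace Pool.Agent.MatCount

open Finset Filter

lemma choose_ge_self {n r : ℕ} (hr : 1 ≤ r) (hrn : 2 * r ≤ n) : n ≤ n.choose r := by
  have := choose_mono_half (n := n) hr hrn
  rwa [Nat.choose_one_right] at this

/-- lower bound -/
lemma bb_lower {n r : ℕ} (hr : 1 ≤ r) (hrn : r < n) : Real.log 2 / n ≤ bb n r := by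
  obtain ⟨c, h1, h2⟩ := lower_bound hr hrn
  have hn : (0 : ℝ) < n := by exact_mod_cast (by omega : 0 < n)
  have hc : (0 : ℝ) < (n.choose r : ℝ) := by exact_mod_cast Nat.choose_pos hrn.le
  unfold bb
  rw [div_le_div_iff₀ hn hc]
  have h3 : (2 : ℝ) ^ c ≤ (lab n r : ℝ) + 1 := by
    have : ((2 ^ c : ℕ) : ℝ) ≤ (lab n r : ℝ) := by exact_mod_cast h2
    push_cast at this
    linarith
  have h4 := Real.log_le_log (by positivity) h3
  rw [Real.log_pow] at h4
  have h5 : (n.choose r : ℝ) ≤ n * c := by exact_mod_cast h1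
  have hl : 0 ≤ Real.log 2 := Real.log_nonneg (by norm_num)
  calc Real.log 2 * (n.choose r : ℝ) ≤ Real.log 2 * (n * c) := mul_le_mul_of_nonneg_left h5 hl
    _ = (c * Real.log 2) * n := by ring
    _ ≤ Real.log ((lab n r : ℝ) + 1) * n := mul_le_mul_of_nonneg_right h4 hn.le

lemma bb_pos {n r : ℕ} (hr : 1 ≤ r) (hrn : r < n) : 0 < bb n r := by
  have hn : (0 : ℝ) < n := by exact_mod_cast (by omega : 0 < n)
  exact lt_of_lt_of_le (div_pos (Real.log_pos (by norm_num)) hn) (bb_lower hr hrn)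

/-- upper bound -/
lemma bb_upper : ∀ᶠ n : ℕ in atTop, ∀ r : ℕ, Nat.sqrt n ≤ r → 2 * r ≤ n →
    bb n r ≤ 7 * Real.log 2 / n := by
  have hl : 0 < Real.log 2 := Real.log_pos (by norm_num)
  have e1 := log_sq_ev (c := Real.log 2 / 29) (by positivity)
  filter_upwards [e1, eventually_ge_atTop 16] with n h1 h16 r hr h2r
  have hs4 : 4 ≤ Nat.sqrt n := by
    rw [Nat.le_sqrt]; omega
  have hbig : 29 * (Real.log ((n : ℝ) + 3)) ^ 2 ≤ (1 : ℝ) ^ 2 * (Nat.sqrt n : ℝ) * Real.log 2 := by
    have : 29 * (Real.log ((n : ℝ) + 3)) ^ 2 ≤ 29 * (Real.log 2 / 29 * (Nat.sqrt n : ℝ)) :=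
      mul_le_mul_of_nonneg_left h1 (by norm_num)
    calc _ ≤ _ := this
      _ = _ := by ring
  have h := upper_large (ε := 1) (by norm_num) le_rfl hs4 hr h2r hbig
  have hn : (0 : ℝ) < n := by exact_mod_cast (by omega : 0 < n)
  have hr1 : 1 ≤ r := by omega
  have hcN : n ≤ n.choose r := choose_ge_self hr1 h2r
  have hc : (n : ℝ) ≤ (n.choose r : ℝ) := by exact_mod_cast hcN
  have hc0 : (0 : ℝ) < (n.choose r : ℝ) := lt_of_lt_of_le hn hc
  change Real.log (lab n r) ≤ _ at h
  have hlab : 1 ≤ lab n r := by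
    obtain ⟨c, _, h2⟩ := lower_bound hr1 (show r < n by omega)
    exact le_trans Nat.one_le_two_pow h2
  have hlab' : (1 : ℝ) ≤ (lab n r : ℝ) := by exact_mod_cast hlab
  have h5 : Real.log ((lab n r : ℝ) + 1) ≤ Real.log 2 + Real.log (lab n r) := by
    rw [← Real.log_mul (by norm_num) (by positivity)]
    apply Real.log_le_log (by positivity)
    linarith
  unfold bb
  rw [div_le_div_iff₀ hc0 hn]
  have hnr : (n : ℝ) / 2 ≤ ((n - r : ℕ) : ℝ) + 1 := by
    have : n ≤ 2 * (n - r) := by omega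
    have : (n : ℝ) ≤ 2 * ((n - r : ℕ) : ℝ) := by exact_mod_cast this
    linarith
  have h6 : (n.choose r : ℝ) * ((1 + 2 * 1) * Real.log 2 / (((n - r : ℕ) : ℝ) + 1)) ≤
      (n.choose r : ℝ) * (6 * Real.log 2 / n) := by
    apply mul_le_mul_of_nonneg_left _ hc0.le
    rw [div_le_div_iff₀ (by positivity) hn]
    nlinarith
  have h7 : Real.log ((lab n r : ℝ) + 1) ≤
      Real.log 2 + (n.choose r : ℝ) * (6 * Real.log 2 / n) := h5.trans (by linarith)
  calc Real.log ((lab n r : ℝ) + 1) * n ≤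
        (Real.log 2 + (n.choose r : ℝ) * (6 * Real.log 2 / n)) * n :=
        mul_le_mul_of_nonneg_right h7 hn.le
    _ = Real.log 2 * n + 6 * Real.log 2 * (n.choose r : ℝ) := by
        field_simp
    _ ≤ Real.log 2 * (n.choose r : ℝ) + 6 * Real.log 2 * (n.choose r : ℝ) := by
        have := mul_le_mul_of_nonneg_left hc hl.le
        linarith
    _ = _ := by ring

lemma pow_bound : ∀ r : ℕ, 16 ≤ r → 648 * r ^ 5 ≤ 4 ^ r := by
  intro r hr
  induction r, hr using Nat.le_induction with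
  | base => norm_num
  | succ r hr ih =>
    have h1 : (r + 1) ^ 5 ≤ 4 * r ^ 5 := by
      have a1 : 16 * r ^ 4 ≤ r ^ 5 := by
        rw [pow_succ' r 4]; exact Nat.mul_le_mul_right _ hr
      have a2 : r ^ 3 ≤ r ^ 4 := Nat.pow_le_pow_right (by omega) (by norm_num)
      have a3 : r ^ 2 ≤ r ^ 4 := Nat.pow_le_pow_right (by omega) (by norm_num)
      have a4 : r ≤ r ^ 4 := by
        calc r = r ^ 1 := (pow_one r).symm
          _ ≤ r ^ 4 := Nat.pow_le_pow_right (by omega) (by norm_num)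
      have a5 : 1 ≤ r ^ 4 := Nat.one_le_pow _ _ (by omega)
      have e : (r + 1) ^ 5 = r ^ 5 + 5 * r ^ 4 + 10 * r ^ 3 + 10 * r ^ 2 + 5 * r + 1 := by ring
      rw [e]
      omega
    calc 648 * (r + 1) ^ 5 ≤ 648 * (4 * r ^ 5) := Nat.mul_le_mul_left _ h1
      _ = 4 * (648 * r ^ 5) := by ring
      _ ≤ 4 * 4 ^ r := Nat.mul_le_mul_left _ ih
      _ = 4 ^ (r + 1) := by rw [pow_succ]; ring

lemma choose_big {n r : ℕ} (hr : 16 ≤ r) (h2r : 2 * r ≤ n) (h3r : n ≤ 3 * r) :
    4 * n ^ 4 ≤ n.choose r := by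
  have h1 : 4 ^ r ≤ 2 * r * Nat.centralBinom r :=
    Nat.four_pow_le_two_mul_self_mul_centralBinom r (by omega)
  have h2 : Nat.centralBinom r ≤ n.choose r := by
    rw [Nat.centralBinom_eq_two_mul_choose]
    exact Nat.choose_le_choose r h2r
  have h3 := pow_bound r hr
  have h4 : 648 * r ^ 5 ≤ 2 * r * n.choose r :=
    h3.trans (h1.trans (Nat.mul_le_mul_left _ h2))
  have h5 : 324 * r ^ 4 ≤ n.choose r := by
    have e : 648 * r ^ 5 = 2 * r * (324 * r ^ 4) := by ring
    rw [e] at h4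
    exact Nat.le_of_mul_le_mul_left h4 (by omega)
  have h6 : n ^ 4 ≤ (3 * r) ^ 4 := Nat.pow_le_pow_left h3r 4
  calc 4 * n ^ 4 ≤ 4 * (3 * r) ^ 4 := Nat.mul_le_mul_left _ h6
    _ = 324 * r ^ 4 := by ring
    _ ≤ _ := h5

/-- a descent of the sequence of matroid counts -/
def Viol (n r : ℕ) : Prop := numClasses n (r + 1) < numClasses n r

/-- descents in the left half occur only for `n < 3 r` (for large `n`) -/
lemma viol_third : ∃ n₀ : ℕ, ∀ n : ℕ, n₀ ≤ n → ∀ r : ℕ, 2 * (r + 1) ≤ n → Viol n r →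
    n < 3 * r := by
  obtain ⟨n₀, h⟩ := main (δ := 1 / 25) (by norm_num)
  refine ⟨n₀, fun n hn r h2 hv => ?_⟩
  by_contra hlt
  push Not at hlt
  have := h n hn r (r + 1) (by omega) h2 (Or.inl ?_)
  · exact absurd this (not_le.2 hv)
  · have h5 : Real.sqrt 5 ≤ 2.237 := by
      rw [Real.sqrt_le_left (by norm_num)]
      norm_num
    have h3 : (3 : ℝ) * r ≤ n := by exact_mod_cast hlt
    have hn0 : (0 : ℝ) ≤ n := Nat.cast_nonneg n
    nlinarith

/-- the drop -/
lemma viol_drop {s r : ℕ} (hr : 16 ≤ r) (hs : 2 ≤ s) (hsr : s < r)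
    (hv : Viol (s + 2 * r) r) :
    (s : ℝ) / (8 * (r + 1)) ≤
      Real.log (bb (s + 2 * r - 1) r) - Real.log (bb (s + 2 * (r + 1) - 1) (r + 1)) := by
  set n := s + 2 * r with hn
  have en : s + 2 * (r + 1) - 1 = n + 1 := by omega
  rw [en]
  have hA : numClasses n r ≤ lab n r := numClasses_le
  have hB : lab n (r + 1) ≤ n.factorial * numClasses n (r + 1) := BFon_le_numClasses
  have hle : lab n (r + 1) + 1 ≤ n.factorial * (lab n r + 1) := by
    have h1 : n.factorial * numClasses n (r + 1) ≤ n.factorial * lab n r :=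
      Nat.mul_le_mul_left _ ((le_of_lt hv).trans hA)
    have h2 : 1 ≤ n.factorial := Nat.factorial_pos n
    calc lab n (r + 1) + 1 ≤ n.factorial * lab n r + n.factorial := by omega
      _ = n.factorial * (lab n r + 1) := by ring
  have hn1 : (1 : ℝ) ≤ n := by exact_mod_cast (by omega : 1 ≤ n)
  have hn0 : (0 : ℝ) < n := by linarith
  have hlogn : Real.log n ≤ n := (Real.log_le_sub_one_of_pos hn0).trans (by linarith)
  have hlogn0 : 0 ≤ Real.log n := Real.log_nonneg hn1
  have hlog : Real.log ((lab n (r + 1) : ℝ) + 1) ≤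
      n * Real.log n + Real.log ((lab n r : ℝ) + 1) := by
    have h1 : ((lab n (r + 1) : ℝ) + 1) ≤ (n.factorial : ℝ) * ((lab n r : ℝ) + 1) := by
      exact_mod_cast hle
    have h2 := Real.log_le_log (by positivity) h1
    rw [Real.log_mul (by positivity) (by positivity)] at h2
    have h3 : Real.log (n.factorial : ℝ) ≤ n * Real.log n := by
      rw [← Real.log_pow]
      apply Real.log_le_log (by positivity)
      exact_mod_cast Nat.factorial_le_pow n
    linarith
  have hl2 : 1 / 2 < Real.log 2 := by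
    have := Real.log_two_gt_d9
    linarith
  -- binomials
  set c : ℝ := (n.choose r : ℝ) with hc
  have hcpos : 0 < c := by
    rw [hc]; exact_mod_cast Nat.choose_pos (by omega)
  have hcbig : 4 * (n : ℝ) ^ 4 ≤ c := by
    rw [hc]
    exact_mod_cast choose_big hr (by omega) (by omega)
  have hch : ((n.choose (r + 1) : ℕ) : ℝ) * (r + 1) = c * (s + r) := by
    have h1 := Nat.choose_succ_right_eq n r
    have e : n - r = s + r := by omega
    rw [e] at h1
    rw [hc]
    exact_mod_cast h1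
  have hr1 : (0 : ℝ) < (r : ℝ) + 1 := by positivity
  set u := bb n (r + 1) with hu
  set w := bb n r with hw
  have hupos : Real.log 2 / n ≤ u := bb_lower (by omega) (by omega)
  have hu0 : 0 < u := bb_pos (by omega) (by omega)
  have hu1 : u * ((n.choose (r + 1) : ℕ) : ℝ) = Real.log ((lab n (r + 1) : ℝ) + 1) := by
    rw [hu]
    unfold bb
    rw [div_mul_cancel₀]
    have : 0 < n.choose (r + 1) := Nat.choose_pos (by omega)
    positivity
  have hw1 : w * c = Real.log ((lab n r : ℝ) + 1) := by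
    rw [hw]
    unfold bb
    rw [div_mul_cancel₀]
    exact hcpos.ne'
  have key : u * (c * (s + r)) ≤ (n * Real.log n + w * c) * (r + 1) := by
    rw [← hch, ← mul_assoc, hu1, hw1]
    exact mul_le_mul_of_nonneg_right hlog hr1.le
  have hs2 : (2 : ℝ) ≤ s := by exact_mod_cast hs
  have hrn : (r : ℝ) + 1 ≤ n := by exact_mod_cast (by omega : r + 1 ≤ n)
  -- the error term
  have herr : n * Real.log n * (r + 1) ≤ u * c * (s / 4) := by
    have h1 : n * Real.log n * (r + 1) ≤ n * n * n := by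
      apply mul_le_mul _ hrn hr1.le (by positivity)
      exact mul_le_mul_of_nonneg_left hlogn hn0.le
    have h2 : (1 / 2) / (n : ℝ) ≤ u := (div_le_div_of_nonneg_right hl2.le hn0.le).trans hupos
    have h3 : (1 / 2) / (n : ℝ) * (4 * (n : ℝ) ^ 4) ≤ u * c :=
      mul_le_mul h2 hcbig (by positivity) hu0.le
    have h4 : (1 / 2) / (n : ℝ) * (4 * (n : ℝ) ^ 4) = 2 * (n : ℝ) ^ 3 := by
      field_simp
      ring
    rw [h4] at h3
    have h5 : 2 * (n : ℝ) ^ 3 * (1 / 2) ≤ u * c * (s / 4) :=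
      mul_le_mul h3 (by linarith) (by norm_num) (by positivity)
    calc n * Real.log n * (r + 1) ≤ n * n * n := h1
      _ = 2 * (n : ℝ) ^ 3 * (1 / 2) := by ring
      _ ≤ _ := h5
  set x : ℝ := s / (4 * (r + 1)) with hx
  have hx0 : 0 < x := by rw [hx]; positivity
  have hx1 : x ≤ 1 := by
    rw [hx, div_le_one (by positivity)]
    have : (s : ℝ) ≤ r := by exact_mod_cast hsr.le
    linarith
  have hmain : (1 + x) * u ≤ w := by
    have h1 : u * c * (s + r) ≤ u * c * (s / 4) + w * c * (r + 1) := by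
      calc u * c * (s + r) = u * (c * (s + r)) := by ring
        _ ≤ (n * Real.log n + w * c) * (r + 1) := key
        _ = n * Real.log n * (r + 1) + w * c * (r + 1) := by ring
        _ ≤ _ := by linarith
    have h2 : u * (s + r - s / 4) ≤ w * (r + 1) := by
      have : c * (u * (s + r - s / 4)) ≤ c * (w * (r + 1)) := by nlinarith
      exact le_of_mul_le_mul_left this hcpos
    have h3 : ((r : ℝ) + 1) + s / 4 ≤ s + r - s / 4 := by linarith
    have h4 : u * (((r : ℝ) + 1) + s / 4) ≤ w * (r + 1) :=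
      (mul_le_mul_of_nonneg_left h3 hu0.le).trans h2
    have h5 : u * (((r : ℝ) + 1) + s / 4) = ((1 + x) * u) * (r + 1) := by
      rw [hx]
      field_simp
    rw [h5] at h4
    exact le_of_mul_le_mul_right h4 hr1
  have hup : w ≤ bb (n - 1) r := by
    have := bb_delete (n := n - 1) (r := r) (by omega)
    rwa [show n - 1 + 1 = n by omega] at this
  have hdown : bb (n + 1) (r + 1) ≤ u := bb_delete (by omega)
  have hd0 : 0 < bb (n + 1) (r + 1) := bb_pos (by omega) (by omega)
  have h1 : (1 + x) * bb (n + 1) (r + 1) ≤ bb (n - 1) r :=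
    (mul_le_mul_of_nonneg_left hdown (by positivity)).trans (hmain.trans hup)
  have h2 := Real.log_le_log (by positivity) h1
  rw [Real.log_mul (by positivity) hd0.ne'] at h2
  have h3 : x / 2 ≤ Real.log (1 + x) := by
    have h4 := Real.one_sub_inv_le_log_of_pos (show 0 < 1 + x by positivity)
    have h5 : x / 2 ≤ 1 - (1 + x)⁻¹ := by
      have : 1 - (1 + x)⁻¹ = x / (1 + x) := by
        field_simp
        ring
      rw [this, div_le_div_iff₀ (by norm_num) (by positivity)]
      nlinarith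
    linarith
  have h6 : (s : ℝ) / (8 * (r + 1)) = x / 2 := by
    rw [hx]
    field_simp
    ring
  rw [h6]
  linarith

end Pool.Agent.MatCount
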