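import Mathlib
import Pool.Agent.Lib.MP_e1cc60_co.Drop

set_option autoImplicit false

/-!
Counting the descents of the sequences of matroid counts in the left half.
-/

namespace Pool.Agent.MatCount

open Finset Filter

/-- the logarithm of `bb` on the line `n - 2 r = s` (shifted) -/
noncomputable def ll (s r : ℕ) : ℝ := Real.log (bb (s + 2 * r - 1) r)

lemma ll_succ_le {s r : ℕ} (hs : 2 ≤ s) (hr : 1 ≤ r) : ll s (r + 1) ≤ ll s r := by
  unfold ll
  apply Real.log_le_log (bb_pos (by omega) (by omega))
  have e : s + 2 * (r + 1) - 1 = (s + 2 * r - 1 + 1) + 1 := by omega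
  rw [e]
  exact (bb_contract (by omega)).trans (bb_delete (by omega))

open Classical in
/-- descents on the line `s` with `r` in the window -/
noncomputable def win (s a b : ℕ) : Finset ℕ :=
  (Ioc a b).filter (fun r => s < r ∧ Viol (s + 2 * r) r)

lemma sum_telescope (g : ℕ → ℝ) {a b : ℕ} (hab : a ≤ b) :
    ∑ r ∈ Ioc a b, (g r - g (r + 1)) = g (a + 1) - g (b + 1) := by
  induction b, hab using Nat.le_induction with
  | base => simp
  | succ b hab ih =>
    rw [← Finset.insert_Ioc_right_eq_Ioc_add_one hab, sum_insert (by simp), ih]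
    ring

lemma win_card : ∃ R₀ : ℕ, ∀ a b s : ℕ, R₀ ≤ a → b ≤ 2 * a + 1 → 2 ≤ s →
    ((win s a b).card : ℝ) * s ≤ 64 * b := by
  classical
  obtain ⟨n₁, h1⟩ := eventually_atTop.1 bb_upper
  refine ⟨max n₁ 16, fun a b s ha hb hs => ?_⟩
  have ha1 : n₁ ≤ a := (le_max_left _ _).trans ha
  have ha16 : 16 ≤ a := (le_max_right _ _).trans ha
  by_cases hne : (win s a b).Nonempty
  · obtain ⟨r₀, hr₀⟩ := hne
    unfold win at hr₀
    rw [mem_filter, mem_Ioc] at hr₀
    have hab : a ≤ b := by omega
    have hsb : s < b := by omega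
    have hs0 : (0 : ℝ) < s := by exact_mod_cast (by omega : 0 < s)
    have htel := sum_telescope (ll s) hab
    have hterm : ((win s a b).card : ℝ) * (s / (8 * (b + 1))) ≤
        ∑ r ∈ Ioc a b, (ll s r - ll s (r + 1)) := by
      calc ((win s a b).card : ℝ) * (s / (8 * (b + 1)))
          = ∑ _r ∈ win s a b, (s : ℝ) / (8 * (b + 1)) := by
            rw [sum_const, nsmul_eq_mul]
        _ ≤ ∑ r ∈ win s a b, (ll s r - ll s (r + 1)) := by
            apply sum_le_sum
            intro r hr
            unfold win at hr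
            rw [mem_filter, mem_Ioc] at hr
            have h2 := viol_drop (s := s) (r := r) (by omega) hs hr.2.1 hr.2.2
            refine le_trans ?_ h2
            have hrb : (r : ℝ) ≤ b := by exact_mod_cast hr.1.2
            exact div_le_div_of_nonneg_left hs0.le (by positivity) (by linarith)
        _ ≤ ∑ r ∈ Ioc a b, (ll s r - ll s (r + 1)) := by
            apply sum_le_sum_of_subset_of_nonneg
            · exact filter_subset _ _
            · intro r hr _
              rw [mem_Ioc] at hr
              have := ll_succ_le (s := s) (r := r) hs (by omega)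
              linarith
    rw [htel] at hterm
    -- bounds
    have hl2 : 0 < Real.log 2 := Real.log_pos (by norm_num)
    have hup : bb (s + 2 * (a + 1) - 1) (a + 1) ≤ 7 * Real.log 2 / ((s + 2 * (a + 1) - 1 : ℕ) : ℝ) := by
      apply h1 _ (by omega) _ _ (by omega)
      rw [← Nat.lt_succ_iff, Nat.sqrt_lt]
      have h4 : s + 2 * (a + 1) - 1 ≤ 4 * a + 1 := by omega
      refine lt_of_le_of_lt h4 ?_
      change 4 * a + 1 < (a + 1 + 1) * (a + 1 + 1)
      nlinarith
    have hlo : Real.log 2 / ((s + 2 * (b + 1) - 1 : ℕ) : ℝ) ≤ bb (s + 2 * (b + 1) - 1) (b + 1) :=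
      bb_lower (by omega) (by omega)
    have hA0 : (0 : ℝ) < ((s + 2 * (a + 1) - 1 : ℕ) : ℝ) := by
      exact_mod_cast (by omega : 0 < s + 2 * (a + 1) - 1)
    have hB0 : (0 : ℝ) < ((s + 2 * (b + 1) - 1 : ℕ) : ℝ) := by
      exact_mod_cast (by omega : 0 < s + 2 * (b + 1) - 1)
    have hAB : ((s + 2 * (b + 1) - 1 : ℕ) : ℝ) ≤ 3 * ((s + 2 * (a + 1) - 1 : ℕ) : ℝ) := by
      exact_mod_cast (by omega : s + 2 * (b + 1) - 1 ≤ 3 * (s + 2 * (a + 1) - 1))
    have hdiff : ll s (a + 1) - ll s (b + 1) ≤ 4 := by
      have hpa : 0 < bb (s + 2 * (a + 1) - 1) (a + 1) := bb_pos (by omega) (by omega)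
      have hpb : 0 < bb (s + 2 * (b + 1) - 1) (b + 1) := bb_pos (by omega) (by omega)
      have h2 : bb (s + 2 * (a + 1) - 1) (a + 1) ≤ 21 * bb (s + 2 * (b + 1) - 1) (b + 1) := by
        calc bb (s + 2 * (a + 1) - 1) (a + 1) ≤ 7 * Real.log 2 / ((s + 2 * (a + 1) - 1 : ℕ) : ℝ) := hup
          _ ≤ 21 * (Real.log 2 / ((s + 2 * (b + 1) - 1 : ℕ) : ℝ)) := by
              rw [← mul_div_assoc, div_le_div_iff₀ hA0 hB0]
              nlinarith
          _ ≤ _ := mul_le_mul_of_nonneg_left hlo (by norm_num)
      have h3 := Real.log_le_log hpa h2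
      rw [Real.log_mul (by norm_num) hpb.ne'] at h3
      have h4 : Real.log 21 ≤ 4 := by
        have h5 : Real.log 21 ≤ Real.log (2 ^ 5) :=
          Real.log_le_log (by norm_num) (by norm_num)
        rw [Real.log_pow] at h5
        have := Real.log_two_lt_d9
        push_cast at h5
        linarith
      unfold ll
      linarith
    have h5 : ((win s a b).card : ℝ) * (s / (8 * (b + 1))) ≤ 4 := hterm.trans hdiff
    have hb1 : (1 : ℝ) ≤ b := by exact_mod_cast (by omega : 1 ≤ b)
    have h6 : ((win s a b).card : ℝ) * s = (((win s a b).card : ℝ) * (s / (8 * (b + 1)))) * (8 * (b + 1)) := by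
      field_simp
    rw [h6]
    calc (((win s a b).card : ℝ) * (s / (8 * (b + 1)))) * (8 * (b + 1)) ≤ 4 * (8 * (b + 1)) :=
          mul_le_mul_of_nonneg_right h5 (by positivity)
      _ ≤ 64 * b := by linarith
  · rw [not_nonempty_iff_eq_empty] at hne
    rw [hne]
    simp

lemma harm {S : ℕ} (hS : 1 ≤ S) : ∀ b : ℕ, S ≤ b →
    ∑ s ∈ Icc S b, (1 : ℝ) / s ≤ 1 + Real.log (b / S) := by
  intro b hb
  induction b, hb using Nat.le_induction with
  | base =>
    have hS0 : (0 : ℝ) < S := by exact_mod_cast hS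
    rw [Icc_self, sum_singleton, div_self hS0.ne', Real.log_one, add_zero,
      div_le_one hS0]
    exact_mod_cast hS
  | succ b hb ih =>
    have hS0 : (0 : ℝ) < S := by exact_mod_cast hS
    have hb0 : (0 : ℝ) < b := by exact_mod_cast (by omega : 0 < b)
    rw [← Finset.insert_Icc_right_eq_Icc_add_one (by omega : S ≤ b + 1), sum_insert (by simp)]
    have h1 : (1 : ℝ) / ((b + 1 : ℕ) : ℝ) ≤ Real.log (((b + 1 : ℕ) : ℝ) / b) := by
      have h2 := Real.one_sub_inv_le_log_of_pos (show (0 : ℝ) < ((b + 1 : ℕ) : ℝ) / b by positivity)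
      refine le_trans (le_of_eq ?_) h2
      push_cast
      field_simp
      ring
    have h3 : Real.log (((b + 1 : ℕ) : ℝ) / S) =
        Real.log (((b + 1 : ℕ) : ℝ) / b) + Real.log (b / S) := by
      rw [← Real.log_mul (by positivity) (by positivity)]
      congr 1
      field_simp
    rw [h3]
    linarith

open Classical in
/-- descents with `S ≤ s < r ≤ R` -/
noncomputable def WW (S R : ℕ) : Finset (ℕ × ℕ) :=
  ((range (R + 1)) ×ˢ (range (R + 1))).filter
    (fun p => S ≤ p.1 ∧ 2 ≤ p.1 ∧ p.1 < p.2 ∧ Viol (p.1 + 2 * p.2) p.2)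

lemma WW_card_le_sq (S R : ℕ) : (WW S R).card ≤ (R + 1) ^ 2 := by
  classical
  unfold WW
  refine (card_filter_le _ _).trans ?_
  rw [card_product, card_range, sq]

lemma WW_card : ∃ A : ℝ, 0 < A ∧ ∀ S : ℕ, 1 ≤ S → ∀ R : ℕ, S ≤ R →
    ((WW S R).card : ℝ) ≤ A * R * (1 + Real.log (R / S)) := by
  classical
  obtain ⟨R₀, h0⟩ := win_card
  refine ⟨128 + 8 * (R₀ + 1), by positivity, fun S hS R => ?_⟩
  set A : ℝ := 128 + 8 * (R₀ + 1) with hA
  have hS0 : (0 : ℝ) < S := by exact_mod_cast hS
  induction R using Nat.strong_induction_on with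
  | _ R ih =>
  intro hSR
  have hR0 : (0 : ℝ) < R := by exact_mod_cast (by omega : 0 < R)
  have hRS : (1 : ℝ) ≤ R / S := by
    rw [le_div_iff₀ hS0, one_mul]; exact_mod_cast hSR
  have hlog : 0 ≤ Real.log (R / S) := Real.log_nonneg hRS
  by_cases hsmall : R < 2 * R₀ + 2
  · -- trivial bound
    have h1 : ((WW S R).card : ℝ) ≤ ((R : ℝ) + 1) ^ 2 := by exact_mod_cast WW_card_le_sq S R
    have h2 : (R : ℝ) + 1 ≤ 2 * R := by
      have : (1 : ℝ) ≤ R := by exact_mod_cast (by omega : 1 ≤ R)
      linarith
    have h3 : (R : ℝ) ≤ 2 * R₀ + 2 := by exact_mod_cast hsmall.le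
    calc ((WW S R).card : ℝ) ≤ ((R : ℝ) + 1) ^ 2 := h1
      _ ≤ (2 * R) ^ 2 := by gcongr
      _ = 4 * R * R := by ring
      _ ≤ 4 * (2 * R₀ + 2) * R := by gcongr
      _ ≤ A * R := by
          rw [hA]
          nlinarith
      _ ≤ A * R * (1 + Real.log (R / S)) := by
          apply le_mul_of_one_le_right (by positivity)
          linarith
  · push Not at hsmall
    set a := R / 2 with ha
    have ha1 : R₀ ≤ a := by omega
    have ha2 : R ≤ 2 * a + 1 := by omega
    have haR : a < R := by omega
    -- decomposition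
    have hsub : WW S R ⊆ WW S a ∪ (Icc (max S 2) R).biUnion
        (fun s => (win s a R).image (fun r => (s, r))) := by
      intro p hp
      unfold WW at hp
      rw [mem_filter, mem_product, mem_range, mem_range] at hp
      obtain ⟨⟨h1, h2⟩, h3, h4, h5, h6⟩ := hp
      rw [mem_union]
      by_cases hpa : p.2 ≤ a
      · left
        unfold WW
        rw [mem_filter, mem_product, mem_range, mem_range]
        exact ⟨⟨by omega, by omega⟩, h3, h4, h5, h6⟩
      · right
        rw [mem_biUnion]
        refine ⟨p.1, mem_Icc.2 ⟨max_le h3 h4, by omega⟩, ?_⟩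
        rw [mem_image]
        refine ⟨p.2, ?_, rfl⟩
        unfold win
        rw [mem_filter, mem_Ioc]
        exact ⟨⟨by omega, by omega⟩, h5, h6⟩
    have hcard : (WW S R).card ≤ (WW S a).card + ∑ s ∈ Icc (max S 2) R, (win s a R).card := by
      refine (card_le_card hsub).trans ((card_union_le _ _).trans ?_)
      apply Nat.add_le_add_left
      refine card_biUnion_le.trans ?_
      apply sum_le_sum
      intro s _
      exact card_image_le
    have hsum : (∑ s ∈ Icc (max S 2) R, ((win s a R).card : ℝ)) ≤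
        64 * R * (1 + Real.log (R / S)) := by
      calc (∑ s ∈ Icc (max S 2) R, ((win s a R).card : ℝ))
          ≤ ∑ s ∈ Icc (max S 2) R, (64 * R) * ((1 : ℝ) / s) := by
            apply sum_le_sum
            intro s hs
            rw [mem_Icc] at hs
            have hs2 : 2 ≤ s := (le_max_right _ _).trans hs.1
            have hs0 : (0 : ℝ) < s := by exact_mod_cast (by omega : 0 < s)
            rw [mul_one_div, le_div_iff₀ hs0]
            exact h0 a R s ha1 ha2 hs2
        _ ≤ ∑ s ∈ Icc S R, (64 * R) * ((1 : ℝ) / s) := by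
            apply sum_le_sum_of_subset_of_nonneg
            · exact Icc_subset_Icc_left (le_max_left _ _)
            · intro s _ _
              positivity
        _ = 64 * R * ∑ s ∈ Icc S R, (1 : ℝ) / s := by rw [mul_sum]
        _ ≤ _ := mul_le_mul_of_nonneg_left (harm hS R hSR) (by positivity)
    have hrec : ((WW S a).card : ℝ) ≤ A * (R / 2) * (1 + Real.log (R / S)) := by
      by_cases hSa : S ≤ a
      · refine (ih a haR hSa).trans ?_
        have h1 : (a : ℝ) ≤ R / 2 := by
          have : (2 : ℝ) * a ≤ R := by exact_mod_cast (by omega : 2 * a ≤ R)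
          linarith
        have ha0 : (0 : ℝ) < a := by exact_mod_cast (by omega : 0 < a)
        have h2 : Real.log (a / S) ≤ Real.log (R / S) := by
          apply Real.log_le_log (by positivity)
          apply div_le_div_of_nonneg_right _ hS0.le
          linarith
        have h3 : 0 ≤ Real.log (a / S) := by
          apply Real.log_nonneg
          rw [le_div_iff₀ hS0, one_mul]; exact_mod_cast hSa
        have hA0 : 0 < A := by rw [hA]; positivity
        apply mul_le_mul _ (by linarith) (by linarith) (by positivity)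
        exact mul_le_mul_of_nonneg_left h1 hA0.le
      · have : WW S a = ∅ := by
          rw [eq_empty_iff_forall_notMem]
          intro p hp
          unfold WW at hp
          rw [mem_filter, mem_product, mem_range, mem_range] at hp
          omega
        rw [this, card_empty, Nat.cast_zero]
        have hA0 : 0 < A := by rw [hA]; positivity
        positivity
    have hfin : ((WW S R).card : ℝ) ≤ ((WW S a).card : ℝ) +
        ∑ s ∈ Icc (max S 2) R, ((win s a R).card : ℝ) := by exact_mod_cast hcard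
    have hA64 : A * (R / 2) * (1 + Real.log (R / S)) + 64 * R * (1 + Real.log (R / S)) ≤
        A * R * (1 + Real.log (R / S)) := by
      have h1 : 0 ≤ (R : ℝ) * (1 + Real.log (R / S)) := by positivity
      have h2 : 128 ≤ A := by
        rw [hA]
        have : (0 : ℝ) ≤ R₀ := Nat.cast_nonneg _
        linarith
      nlinarith
    linarith

open Classical in
/-- descents in the left half at distance at least `S` from the middle, `n ≤ N` -/
noncomputable def LL (S N : ℕ) : Finset (ℕ × ℕ) :=
  ((range (N + 1)) ×ˢ (range (N + 1))).filter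
    (fun p => 2 * p.2 + 1 + S ≤ p.1 ∧ Viol p.1 p.2)

lemma LL_card : ∃ C : ℝ, 0 < C ∧ ∀ S : ℕ, 1 ≤ S → ∀ N : ℕ, S ≤ N →
    ((LL S N).card : ℝ) ≤ C * N * (1 + Real.log (N / S)) := by
  classical
  obtain ⟨A, hA0, hA⟩ := WW_card
  obtain ⟨n₀, h0⟩ := viol_third
  refine ⟨A + (n₀ : ℝ) ^ 2, by positivity, fun S hS N hSN => ?_⟩
  have hS0 : (0 : ℝ) < S := by exact_mod_cast hS
  have hN0 : (1 : ℝ) ≤ N := by exact_mod_cast (by omega : 1 ≤ N)
  have hlog : 0 ≤ Real.log (N / S) := by
    apply Real.log_nonneg
    rw [le_div_iff₀ hS0, one_mul]; exact_mod_cast hSN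
  have hsub : LL S N ⊆ ((range n₀) ×ˢ (range n₀)) ∪
      (WW S N).image (fun q => (q.1 + 2 * q.2, q.2)) := by
    intro p hp
    unfold LL at hp
    rw [mem_filter, mem_product, mem_range, mem_range] at hp
    obtain ⟨⟨h1, h2⟩, h3, h4⟩ := hp
    rw [mem_union]
    by_cases hpn : p.1 < n₀
    · left
      rw [mem_product, mem_range, mem_range]
      omega
    · right
      push Not at hpn
      have h5 := h0 p.1 hpn p.2 (by omega) h4
      rw [mem_image]
      refine ⟨(p.1 - 2 * p.2, p.2), ?_, ?_⟩
      · unfold WW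
        rw [mem_filter, mem_product, mem_range, mem_range]
        have e : p.1 - 2 * p.2 + 2 * p.2 = p.1 := by omega
        refine ⟨⟨by simp only; omega, by simp only; omega⟩, by simp only; omega,
          by simp only; omega, by simp only; omega, ?_⟩
        simp only
        rw [e]
        exact h4
      · apply Prod.ext
        · simp only
          omega
        · rfl
  have hcard : (LL S N).card ≤ n₀ ^ 2 + (WW S N).card := by
    refine (card_le_card hsub).trans ((card_union_le _ _).trans ?_)
    apply Nat.add_le_add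
    · rw [card_product, card_range, sq]
    · exact card_image_le
  have h1 : ((LL S N).card : ℝ) ≤ (n₀ : ℝ) ^ 2 + ((WW S N).card : ℝ) := by exact_mod_cast hcard
  have h2 := hA S hS N hSN
  have h3 : (n₀ : ℝ) ^ 2 ≤ (n₀ : ℝ) ^ 2 * N * (1 + Real.log (N / S)) := by
    have : (1 : ℝ) ≤ N * (1 + Real.log (N / S)) := by
      calc (1 : ℝ) = 1 * 1 := by norm_num
        _ ≤ N * (1 + Real.log (N / S)) :=
          mul_le_mul hN0 (by linarith) (by norm_num) (by linarith)
    calc (n₀ : ℝ) ^ 2 = (n₀ : ℝ) ^ 2 * 1 := by ring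
      _ ≤ (n₀ : ℝ) ^ 2 * (N * (1 + Real.log (N / S))) :=
        mul_le_mul_of_nonneg_left this (by positivity)
      _ = _ := by ring
  calc ((LL S N).card : ℝ) ≤ (n₀ : ℝ) ^ 2 * N * (1 + Real.log (N / S)) +
        A * N * (1 + Real.log (N / S)) := by linarith
    _ = _ := by ring

end Pool.Agent.MatCount
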